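import Pool.Agent.ZL2.Geom3

open MvPolynomial Pool.Agent.MP_dd1803_nt Pool.Agent.ZPA

namespace Pool.Agent.ZL2

theorem dm_le_of_td {κ : Type} [Fintype κ] {Z : Set (κ → ℂˣ)} {n : ℕ} (h : ∀ Y, Irr Y → Y ⊆ Z → td ℂ Y ≤ n) :
    dm Z ≤ (n : WithBot ℕ∞) := by
  by_cases hne : Z.Nonempty
  · obtain ⟨d, hd, _, _, Y, hY, hYV, hY2⟩ := exists_dm hne
    rw [hd, ← hY2]
    exact_mod_cast h Y hY hYV
  · rw [Set.not_nonempty_iff_eq_empty] at hne
    rw [hne]
    have : IsEmpty {Y : Set (κ → ℂˣ) // Irr Y ∧ Y ⊆ (∅ : Set (κ → ℂˣ))} := by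
      constructor
      rintro ⟨Y, hY, hY0⟩
      obtain ⟨y, hy⟩ := hY.nonempty
      exact hY0 hy
    unfold dm
    rw [Order.krullDim_eq_bot]
    exact bot_le

/-- The case of three lines: one closed set. -/
theorem core3' (a b : Fin 3 → ℂ) (ha : ∀ i, a i ≠ 0) (hb : ∀ i, b i ≠ 0) :
    ∃ Z : Set (Fin 3 ⊕ Fin 3 → ℂˣ), ZClosed Z ∧ Z ⊆ Lines a b ∧ (∀ Y, Irr Y → Y ⊆ Z → td ℂ Y ≤ 2) ∧
      (∀ X, Irr X → X ⊆ Lines a b → 4 ≤ cd X → X ⊆ Z) ∧
      {X | Maximal (Atypical (Lines a b)) X ∧ dm X ≠ 0}.Finite := by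
  classical
  obtain ⟨S, Z0, hS, hSY, hZ0, hZ0V, hZ0d, hX⟩ := core3 a b ha hb
  have hcl : ZClosed (⋃ Y ∈ hS.toFinset, Y) := ZClosed.finset_biUnion hS.toFinset (X := fun Z => Z) (by
    intro Y hY
    exact (hSY Y ((Set.Finite.mem_toFinset hS).1 hY)).1.closed)
  refine ⟨Z0 ∪ ⋃ Y ∈ hS.toFinset, Y, hZ0.union hcl, ?_, ?_, ?_, ?_⟩
  · apply Set.union_subset hZ0V
    intro x hx
    rw [Set.mem_iUnion₂] at hx
    obtain ⟨Y, hY, hxY⟩ := hx
    exact (hSY Y ((Set.Finite.mem_toFinset hS).1 hY)).2.1 hxY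
  · intro Y hY hYZ
    rcases hY.subset_or hZ0 hcl hYZ with h | h
    · exact hZ0d Y hY h
    · obtain ⟨W, hW, hYW⟩ := hY.subset_of_finset hS.toFinset (fun W hW =>
        (hSY W ((Set.Finite.mem_toFinset hS).1 hW)).1.closed) h
      have h1 := hSY W ((Set.Finite.mem_toFinset hS).1 hW)
      exact (td_mono (k := ℂ) hY.pirr h1.1.pirr hYW).trans h1.2.2.2
  · intro X hXi hXV hcd
    rcases hX X hXi hXV hcd with ⟨Y, hY, hXY⟩ | ⟨P, hP, rfl⟩
    · refine hXY.trans (Set.Subset.trans ?_ Set.subset_union_right)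
      intro x hx
      rw [Set.mem_iUnion₂]
      exact ⟨Y, (Set.Finite.mem_toFinset hS).2 hY, hx⟩
    · rw [Set.singleton_subset_iff]
      exact Or.inl hP
  · refine hS.subset ?_
    rintro X ⟨hmax, hdim⟩
    have hcard : Fintype.card (Fin 3 ⊕ Fin 3) = 6 := by simp
    have hmax' := hmax
    rw [maximal_atypical_iff (zclosed_Lines a b) (dm_Lines ha hb) (by omega) X] at hmax'
    have hXi := MaxE.irr hmax'
    have h1 := MaxE.lt hmax'
    rcases hX X hXi (MaxE.subset hmax') (by omega) with ⟨Y, hY, hXY⟩ | ⟨P, hP, rfl⟩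
    · have h2 := hSY Y hY
      have h3 : X = Y := MaxE.eq hmax' h2.1 h2.2.1 (by omega) hXY
      rw [h3]
      exact hY
    · exfalso
      apply hdim
      rw [dm_irr hXi, td_singleton']
      rfl

theorem cd_of_atypical {a b : Fin 3 → ℂ} (ha : ∀ i, a i ≠ 0) (hb : ∀ i, b i ≠ 0)
    {X : Set (Fin 3 ⊕ Fin 3 → ℂˣ)} (h : Atypical (Lines a b) X) : Irr X ∧ X ⊆ Lines a b ∧ 4 ≤ cd X := by
  obtain ⟨T, hT, hX, hlt⟩ := h
  refine ⟨hX.irr, hX.subset.trans Set.inter_subset_left, ?_⟩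
  rw [dm_Lines ha hb, dm_irr hT.irr, dm_irr hX.irr, dm_univ] at hlt
  have h2 : 3 + td ℂ T < td ℂ X + Fintype.card (Fin 3 ⊕ Fin 3) := by exact_mod_cast hlt
  have h3 := hT.cd
  have h4 : rk T ≤ rk X := rk_anti (hX.subset.trans Set.inter_subset_right)
  have hcard : Fintype.card (Fin 3 ⊕ Fin 3) = 6 := by simp
  have h5 : cd T = rk T + td ℂ T := rfl
  have h6 : cd X = rk X + td ℂ X := rfl
  omega

theorem main2 {k : ℕ} (a b : Fin k → ℂ) (ha : ∀ i, a i ≠ 0) (hb : ∀ i, b i ≠ 0) :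
    ∃ Z : Set (Fin k ⊕ Fin k → ℂˣ), ZClosed Z ∧ Z ⊆ Lines a b ∧ dm Z ≤ 2 ∧
      ∀ T, Special T → dm T ≤ 2 → Lines a b ∩ T ⊆ Z := by
  classical
  have hmain := fun e : Fin 3 ↪ Fin k => core3' (fun j => a (e j)) (fun j => b (e j))
    (fun j => ha _) (fun j => hb _)
  choose Ze hZe hZeV hZed hZeX _ using hmain
  let pe : (Fin 3 ↪ Fin k) → (Fin 3 ⊕ Fin 3 → Fin k ⊕ Fin k) := fun e => Sum.map e e
  have hpe : ∀ e, Function.Injective (pe e) := fun e => Sum.map_injective.2 ⟨e.injective, e.injective⟩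
  refine ⟨Lines a b ∩ ⋂ e, pull (pe e) ⁻¹' Ze e, (zclosed_Lines a b).inter
    (ZClosed.iInter fun e => (ratMap_pull Set.univ (pe e)).preimage_closed (hZe e)), Set.inter_subset_left,
    ?_, ?_⟩
  · refine dm_le_of_td (n := 2) ?_
    intro Y hY hYZ
    by_contra hcon
    push Not at hcon
    obtain ⟨s, hs, hInd, hc⟩ := exists_basis_Lines hb hY (hYZ.trans Set.inter_subset_left)
    have hcard : 3 ≤ s.ncard := by omega
    obtain ⟨t, hts, htc⟩ := Set.exists_subset_card_eq hcard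
    have htfin : Finite t := Set.toFinite t
    have htcard : Nat.card t = 3 := htc
    let eqv : Fin 3 ≃ t := (Finite.equivFinOfCardEq htcard).symm
    have hin : ∀ j : Fin 3, ∃ i : Fin k, Sum.inl i = ((eqv j : t) : Fin k ⊕ Fin k) := by
      intro j
      obtain ⟨i, hi⟩ := hs (hts (eqv j).2)
      exact ⟨i, hi⟩
    choose e he using hin
    have hei : Function.Injective e := by
      intro j l hjl
      have h3 := he j
      rw [hjl, he l] at h3
      exact eqv.injective (Subtype.ext h3.symm)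
    have hIndF : IndF ℂ Y (fun j => Sum.inl (e j)) := by
      rw [indF_iff]
      rw [ind_iff] at hInd
      have h4 := hInd.comp (fun j : Fin 3 => (⟨(eqv j : t), hts (eqv j).2⟩ : s)) (by
        intro j l hjl
        exact eqv.injective (Subtype.ext (congrArg (fun z : s => (z : Fin k ⊕ Fin k)) hjl)))
      have h5 : (fun i : Fin 3 => gen ℂ Y (Sum.inl (e i))) =
          (fun i : s => gen ℂ Y i) ∘ (fun j : Fin 3 => (⟨(eqv j : t), hts (eqv j).2⟩ : s)) := by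
        funext j
        simp only [Function.comp_apply, he]
      rw [h5]
      exact h4
    let E : Fin 3 ↪ Fin k := ⟨e, hei⟩
    have hP : PIrr (pull (pe E) '' Y) := hY.pirr.pull (pe E)
    have hsub : cl ℂ (pull (pe E) '' Y) ⊆ Ze E := by
      apply cl_subset _ (hZe E)
      rintro _ ⟨y, hy, rfl⟩
      have := (hYZ hy).2
      rw [Set.mem_iInter] at this
      exact this E
    have h1 := hZed E _ hP.cl hsub
    have h2 : IndF ℂ (cl ℂ (pull (pe E) '' Y)) (fun j : Fin 3 => (Sum.inl j : Fin 3 ⊕ Fin 3)) := by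
      intro p hp
      apply hIndF p
      intro y hy
      have h3 := hp (pull (pe E) y) (subset_cl _ ⟨y, hy, rfl⟩)
      have h4 : (fun j : Fin 3 => co (pull (pe E) y) (Sum.inl j)) = fun j : Fin 3 => co y (Sum.inl (e j)) := by
        funext j
        rfl
      rw [h4] at h3
      exact h3
    have h3 := h2.card_le hP.cl.pirr
    rw [Nat.card_eq_fintype_card, Fintype.card_fin] at h3
    omega
  · rintro T hT hdm x ⟨hxV, hxT⟩
    refine ⟨hxV, ?_⟩
    rw [Set.mem_iInter]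
    intro e
    have htd : td ℂ T ≤ 2 := by
      rw [dm_irr hT.irr] at hdm
      exact_mod_cast hdm
    have h1 := hT.cd
    have h2 : cd T = rk T + td ℂ T := rfl
    have h3 : rk T ≤ rk ({x} : Set (Fin k ⊕ Fin k → ℂˣ)) := rk_anti (Set.singleton_subset_iff.2 hxT)
    have h4 : cd ({x} : Set (Fin k ⊕ Fin k → ℂˣ)) = rk ({x} : Set (Fin k ⊕ Fin k → ℂˣ)) +
      td ℂ ({x} : Set (Fin k ⊕ Fin k → ℂˣ)) := rfl
    have h5 := cd_pull (pirr_singleton x) (hpe e)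
    rw [Set.image_singleton] at h5
    have hcard : Fintype.card (Fin 3 ⊕ Fin 3) = 6 := by simp
    have h6 := hZeX e {pull (pe e) x} (irr_singleton _) (by
      rw [Set.singleton_subset_iff]
      intro j
      exact hxV (e j)) (by omega)
    exact h6 rfl

/-- The theorem. -/
theorem main_all (k : ℕ) (a b : Fin k → ℂ) (ha : ∀ i, a i ≠ 0) (hb : ∀ i, b i ≠ 0) :
    dm (Lines a b) = (k : WithBot ℕ∞) ∧
    ∃ Z : Set (Fin k ⊕ Fin k → ℂˣ), ZClosed Z ∧ Z ⊆ Lines a b ∧ dm Z ≤ 2 ∧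
      (∀ T, Special T → dm T ≤ 2 → Lines a b ∩ T ⊆ Z) ∧
      (k = 3 → (∀ X, Atypical (Lines a b) X → X ⊆ Z) ∧
        {X | Maximal (Atypical (Lines a b)) X ∧ dm X ≠ 0}.Finite) := by
  refine ⟨dm_Lines ha hb, ?_⟩
  by_cases hk : k = 3
  · subst hk
    obtain ⟨Z, hZ, hZV, hZd, hZX, hfin⟩ := core3' a b ha hb
    refine ⟨Z, hZ, hZV, dm_le_of_td (n := 2) hZd, ?_, fun _ => ⟨?_, hfin⟩⟩
    · rintro T hT hdm x ⟨hxV, hxT⟩
      have htd : td ℂ T ≤ 2 := by
        rw [dm_irr hT.irr] at hdm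
        exact_mod_cast hdm
      have h1 := hT.cd
      have h2 : cd T = rk T + td ℂ T := rfl
      have h3 : rk T ≤ rk ({x} : Set (Fin 3 ⊕ Fin 3 → ℂˣ)) := rk_anti (Set.singleton_subset_iff.2 hxT)
      have h4 : cd ({x} : Set (Fin 3 ⊕ Fin 3 → ℂˣ)) = rk ({x} : Set (Fin 3 ⊕ Fin 3 → ℂˣ)) +
        td ℂ ({x} : Set (Fin 3 ⊕ Fin 3 → ℂˣ)) := rfl
      have hcard : Fintype.card (Fin 3 ⊕ Fin 3) = 6 := by simp
      exact hZX {x} (irr_singleton x) (Set.singleton_subset_iff.2 hxV) (by omega) rfl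
    · intro X hX
      obtain ⟨h1, h2, h3⟩ := cd_of_atypical ha hb hX
      exact hZX X h1 h2 h3
  · obtain ⟨Z, h1, h2, h3, h4⟩ := main2 a b ha hb
    exact ⟨Z, h1, h2, h3, h4, fun h => absurd h hk⟩

end Pool.Agent.ZL2
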