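import Pool.Agent.ZL2.BP5

namespace Pool.Agent.ZL2

open Finset

/-- The (unnormalised) height. -/
noncomputable def hh {K : Type} [Field K] [NumberField K] (x : K) : ℝ := Sm (fun p : Pl K => max 0 (lv p x))

/-- Row ZL2-BP6, part 1: `∑_σ |log ‖σ x‖| ≤ 2 hh x` (`|t| = 2 max 0 t - t`, `Sm_lv`, `Sm_split`, the finite places are `≥ 0`). -/
theorem sum_abs_le {K : Type} [Field K] [NumberField K] {x : K} (hx : x ≠ 0) :
    ∑ σ : K →+* ℂ, |Real.log ‖σ x‖| ≤ 2 * hh x := by
  have hF := FS_lv (K := K) hx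
  have hM : FS (fun p : Pl K => max 0 (lv p x)) := FS.max FS.zero hF
  have h3 : Sm (fun p : Pl K => |lv p x|) = 2 * hh x := by
    have h4 : ∀ p : Pl K, |lv p x| = 2 * max 0 (lv p x) - lv p x := by
      intro p
      rcases le_total 0 (lv p x) with h | h
      · rw [abs_of_nonneg h, max_eq_right h]; ring
      · rw [abs_of_nonpos h, max_eq_left h]; ring
    rw [Sm_congr h4, Sm_sub (FS.smul 2 hM) hF, Sm_smul, Sm_lv hx, sub_zero]; rfl
  rw [← h3, Sm_split hF.abs]
  have h5 : 0 ≤ ∑ᶠ v : NumberField.FinitePlace K, |lv (Sum.inr v : Pl K) x| :=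
    finsum_nonneg fun _ => abs_nonneg _
  have h6 : ∀ σ : K →+* ℂ, lv (Sum.inl σ : Pl K) x = Real.log ‖σ x‖ := fun σ => rfl
  simp only [h6]
  linarith

/-- part 2: `hh (1 - x) ≤ hh x + [K:ℚ] log 2` (`lv_add_le`, `lv_neg`, `lv_one`, `Sm_ell`). -/
theorem hh_one_sub {K : Type} [Field K] [NumberField K] {x : K} (hx : x ≠ 0) (hx1 : x ≠ 1) :
    hh (1 - x) ≤ hh x + (Module.finrank ℚ K : ℝ) * Real.log 2 := by
  have h1x : (1 - x) ≠ 0 := sub_ne_zero.2 (Ne.symm hx1)
  have hp : ∀ p : Pl K, max 0 (lv p (1 - x)) ≤ max 0 (lv p x) + ell p := by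
    intro p
    have h := lv_add_le p (x := (1:K)) (y := -x) one_ne_zero (neg_ne_zero.2 hx)
      (by rwa [← sub_eq_add_neg])
    rw [← sub_eq_add_neg, lv_neg, lv_one] at h
    exact max_le (add_nonneg (le_max_left _ _) (ell_nonneg p)) h
  calc hh (1 - x) ≤ Sm (fun p : Pl K => max 0 (lv p x) + ell p) :=
        Sm_mono (FS.max FS.zero (FS_lv h1x)) ((FS.max FS.zero (FS_lv hx)).add FS_ell) hp
    _ = hh x + Sm (ell : Pl K → ℝ) := Sm_add (FS.max FS.zero (FS_lv hx)) FS_ell
    _ = _ := by rw [Sm_ell]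

theorem bp6_fin_int {K : Type} [Field K] [NumberField K] (v : NumberField.FinitePlace K) (n : ℤ) :
    v (n : K) ≤ 1 := by
  have hm1 : v (-1 : K) = 1 := by
    have h1 : v (-1 : K) * v (-1 : K) = 1 := by
      rw [← map_mul]; simp
    have h0 : 0 ≤ v (-1 : K) := apply_nonneg v _
    nlinarith
  induction n using Int.induction_on with
  | zero => simp
  | succ n ih =>
    push_cast
    refine (NumberField.FinitePlace.add_le v _ _).trans (max_le ?_ ?_)
    · simpa using ih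
    · rw [map_one]
  | pred n ih =>
    push_cast
    rw [sub_eq_add_neg]
    refine (NumberField.FinitePlace.add_le v _ _).trans (max_le ?_ ?_)
    · simpa using ih
    · rw [hm1]

theorem bp6_fin_sum {K : Type} [Field K] [NumberField K] (v : NumberField.FinitePlace K) {ι : Type}
    (s : Finset ι) (g : ι → K) (C : ℝ) (hC : 0 ≤ C) (h : ∀ i ∈ s, v (g i) ≤ C) :
    v (∑ i ∈ s, g i) ≤ C := by
  classical
  induction s using Finset.induction_on with
  | empty => simpa using hC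
  | insert a s ha ih =>
    rw [Finset.sum_insert ha]
    refine (NumberField.FinitePlace.add_le v _ _).trans (max_le ?_ ?_)
    · exact h a (Finset.mem_insert_self a s)
    · exact ih fun i hi => h i (Finset.mem_insert_of_mem hi)

theorem bp6_log_max {t : ℝ} (ht : 0 < t) : Real.log (max 1 t) = max 0 (Real.log t) := by
  rcases le_total 1 t with h | h
  · rw [max_eq_right h, max_eq_right (Real.log_nonneg h)]
  · rw [max_eq_left h, max_eq_left (Real.log_nonpos ht.le h), Real.log_one]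

theorem bp6_pow_le {t : ℝ} (ht : 0 ≤ t) {a L : ℕ} (h : a ≤ L) : t ^ a ≤ max 1 t ^ L :=
  (pow_le_pow_left₀ ht (le_max_right 1 t) a).trans (pow_le_pow_right₀ (le_max_left 1 t) h)

theorem bp6_log_prod {k : ℕ} (L : ℕ) (t : Fin k → ℝ) (ht : ∀ j, 0 < t j) :
    Real.log (∏ j, max 1 (t j) ^ L) = L * ∑ j, max 0 (Real.log (t j)) := by
  rw [Real.log_prod (fun j _ => pow_ne_zero _ (ne_of_gt (lt_max_of_lt_left one_pos))),
    Finset.mul_sum]
  refine Finset.sum_congr rfl fun j _ => ?_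
  rw [Real.log_pow, bp6_log_max (ht j)]

/-- part 3: the size of `ev f u` at the places: `≤ L ∑_j max 0 (lv p (u j))` at the finite places, plus
`log (2^L (L+1)^k) ≤ (k+1) L log 2` at the embeddings. -/
theorem lv_ev_le {K : Type} [Field K] [NumberField K] {k L : ℕ} (f : (Fin k → Fin (L + 1)) → ℤ)
    (hf : ∀ α, |f α| ≤ 2 ^ L) (u : Fin k → K) (hu : ∀ j, u j ≠ 0) (h0 : ev f u ≠ 0) (p : Pl K) :
    lv p (ev f u) ≤ L * ∑ j, max 0 (lv p (u j)) + Sum.elim (fun _ => ((k : ℝ) + 1) * L * Real.log 2) (fun _ => 0) p := by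
  rcases p with σ | v
  · simp only [lv, Sum.elim_inl]
    have ht : ∀ j, 0 < ‖σ (u j)‖ := fun j => norm_pos_iff.2 ((map_ne_zero σ).2 (hu j))
    have hP : 0 < ∏ j, max 1 ‖σ (u j)‖ ^ L :=
      Finset.prod_pos fun j _ => pow_pos (lt_max_of_lt_left one_pos) _
    have h1 : ‖σ (ev f u)‖ ≤ ((L : ℝ) + 1) ^ k * (2 ^ L * ∏ j, max 1 ‖σ (u j)‖ ^ L) := by
      unfold ev
      rw [map_sum]
      refine (norm_sum_le _ _).trans ?_
      have h2 : ∀ α ∈ (Finset.univ : Finset (Fin k → Fin (L + 1))),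
          ‖σ ((f α : K) * ∏ j, u j ^ (α j : ℕ))‖ ≤ 2 ^ L * ∏ j, max 1 ‖σ (u j)‖ ^ L := by
        intro α _
        rw [map_mul, norm_mul, map_prod, norm_prod, map_intCast]
        refine mul_le_mul ?_ ?_ (Finset.prod_nonneg fun _ _ => norm_nonneg _) (by positivity)
        · rw [Complex.norm_intCast]
          exact_mod_cast hf α
        · refine Finset.prod_le_prod (fun _ _ => norm_nonneg _) fun j _ => ?_
          rw [map_pow, norm_pow]
          exact bp6_pow_le (norm_nonneg _) (Nat.lt_succ_iff.1 (α j).2)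
      refine (Finset.sum_le_card_nsmul _ _ _ h2).trans (le_of_eq ?_)
      rw [Finset.card_univ, Fintype.card_fun, Fintype.card_fin, Fintype.card_fin, nsmul_eq_mul]
      push_cast
      rfl
    have h0' : 0 < ‖σ (ev f u)‖ := norm_pos_iff.2 ((map_ne_zero σ).2 h0)
    have h3 := Real.log_le_log h0' h1
    have hL1 : (0 : ℝ) < (L : ℝ) + 1 := by positivity
    rw [Real.log_mul (by positivity) (by positivity), Real.log_mul (by positivity) hP.ne',
      bp6_log_prod L _ ht, Real.log_pow, Real.log_pow] at h3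
    have h4 : Real.log ((L : ℝ) + 1) ≤ L * Real.log 2 := by
      rw [← Real.log_pow]
      refine Real.log_le_log hL1 ?_
      have := Nat.lt_two_pow_self (n := L)
      exact_mod_cast this
    have h5 : (k : ℝ) * Real.log ((L : ℝ) + 1) ≤ k * (L * Real.log 2) :=
      mul_le_mul_of_nonneg_left h4 (Nat.cast_nonneg k)
    linarith
  · simp only [lv, Sum.elim_inr, add_zero]
    have ht : ∀ j, 0 < v (u j) := fun j => NumberField.FinitePlace.pos_iff.2 (hu j)
    have hP : 0 < ∏ j, max 1 (v (u j)) ^ L :=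
      Finset.prod_pos fun j _ => pow_pos (lt_max_of_lt_left one_pos) _
    have h1 : v (ev f u) ≤ ∏ j, max 1 (v (u j)) ^ L := by
      unfold ev
      refine bp6_fin_sum v _ _ _ hP.le fun α _ => ?_
      rw [map_mul, map_prod]
      have h2 : ∏ j, v (u j ^ (α j : ℕ)) ≤ ∏ j, max 1 (v (u j)) ^ L := by
        refine Finset.prod_le_prod (fun j _ => apply_nonneg v _) fun j _ => ?_
        rw [map_pow]
        exact bp6_pow_le (ht j).le (Nat.lt_succ_iff.1 (α j).2)
      calc v (f α : K) * ∏ j, v (u j ^ (α j : ℕ)) ≤ 1 * ∏ j, max 1 (v (u j)) ^ L :=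
            mul_le_mul (bp6_fin_int v _) h2 (Finset.prod_nonneg fun j _ => apply_nonneg v _)
              zero_le_one
        _ = _ := one_mul _
    have h3 := Real.log_le_log (NumberField.FinitePlace.pos_iff.2 h0) h1
    rwa [bp6_log_prod L _ ht] at h3

theorem bp6_norm_le {ι : Type} [Fintype ι] (v : EuclideanSpace ℝ ι) : ‖v‖ ≤ ∑ i, |v i| := by
  rw [EuclideanSpace.norm_eq]
  have h0 : 0 ≤ ∑ i, |v i| := Finset.sum_nonneg fun _ _ => abs_nonneg _
  rw [← Real.sqrt_sq h0]
  refine Real.sqrt_le_sqrt ?_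
  exact Finset.sum_sq_le_sq_sum_of_nonneg fun i _ => abs_nonneg _

theorem bp6_apply_le {ι : Type} [Fintype ι] (v : EuclideanSpace ℝ ι) (i : ι) : |v i| ≤ ‖v‖ := by
  have := PiLp.norm_apply_le v i
  simpa using this

theorem bp6_basis {ι : Type} [Fintype ι] (V : Submodule ℝ (EuclideanSpace ℝ ι)) (r : ℕ)
    (h : Module.finrank ℝ V ≤ r) :
    ∃ b : Fin r → ι → ℝ, (∀ j i, |b j i| ≤ 1) ∧ ∀ v ∈ V, ∃ τ : Fin r → ℝ,
      (∀ j, |τ j| ≤ ∑ i, |v i|) ∧ ∀ i, v i = ∑ j, τ j * b j i := by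
  obtain ⟨s, hs⟩ := Nat.exists_eq_add_of_le h
  subst hs
  have e := stdOrthonormalBasis ℝ V
  refine ⟨Fin.append (fun j : Fin (Module.finrank ℝ V) => fun i => ((e j : V) : EuclideanSpace ℝ ι) i)
    (fun _ _ => 0), ?_, ?_⟩
  · intro j
    refine Fin.addCases (fun j => ?_) (fun j => ?_) j
    · intro i
      rw [Fin.append_left]
      refine (bp6_apply_le _ i).trans ?_
      have := e.orthonormal.1 j
      rw [← Submodule.coe_norm, this]
    · intro i
      rw [Fin.append_right]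
      simp
  · intro v hv
    refine ⟨Fin.append (fun j : Fin (Module.finrank ℝ V) => inner ℝ (e j) (⟨v, hv⟩ : V))
      (fun _ => 0), ?_, ?_⟩
    · intro j
      refine Fin.addCases (fun j => ?_) (fun j => ?_) j
      · rw [Fin.append_left]
        refine (abs_real_inner_le_norm _ _).trans ?_
        rw [e.orthonormal.1 j, one_mul]
        exact bp6_norm_le v
      · rw [Fin.append_right, abs_zero]
        exact Finset.sum_nonneg fun _ _ => abs_nonneg _
    · intro i
      rw [Fin.sum_univ_add]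
      simp only [Fin.append_left, Fin.append_right, mul_zero, Finset.sum_const_zero, add_zero]
      have h1 := e.sum_repr' (⟨v, hv⟩ : V)
      have h2 := congrArg (fun w : V => (w : EuclideanSpace ℝ ι) i) h1
      simp only [Submodule.coe_sum, Submodule.coe_smul] at h2
      rw [← h2]
      simp

/-- Row ZL2-BP6. The box principle. With `A = 2k(4B+2)+1`, `C3 = 2(k+1)+2kB+1`, `A' = 2k(A+C0+1)` apply `small` with `A'` (and
replace `δ` by `min δ 1`). Given the `V n` choose orthonormal bases (`stdOrthonormalBasis ℝ (V n)`, at most `r` vectors; fill up with `0`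
to `Fin r`): `v = ∑ τ_j b_j`, `|b_j i| ≤ ‖b_j‖ = 1`, `|τ_j| = |⟪b_j, v⟫| ≤ ‖v‖ ≤ 2k·sup |v_i| ≤ 2k(A+C0+δ) ≤ A'`.
Call `σ` good if `|Lg (σ ∘ u) i| ≤ A` for all `i`. By `sum_abs_le`, `hh_one_sub`: `∑_σ ∑_i |Lg| ≤ D k (4B+2)`, so at most `D/2` bad `σ`
(`D = [K:ℚ]`; number of embeddings `NumberField.Embeddings.card`). If `ev f u ≠ 0`, the product formula `Sm_lv` and
`lv_ev_le`, `small` (for good `σ`: `log ‖σ (ev f u)‖ = log ‖ev f (σ ∘ u)‖ ≤ -C3 L`) give
`0 ≤ -(D/2) C3 L + D (k+1) L log 2 + L k B D < 0`. -/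
theorem BP (k r N : ℕ) (hr : r < k) (B C0 : ℝ) (hB : 0 ≤ B) (hC0 : 0 ≤ C0) :
    ∃ L : ℕ, ∃ δ : ℝ, 0 < δ ∧ ∀ (K : Type) [Field K] [NumberField K] (u : Fin k → K),
      (∀ j, u j ≠ 0) → (∀ j, u j ≠ 1) → (∀ j, hh (u j) ≤ B * Module.finrank ℚ K) →
      ∀ (c : Fin N → Fin k × Fin 2 → ℝ)
        (V : Fin N → Submodule ℝ (EuclideanSpace ℝ (Fin k × Fin 2))),
        (∀ n i, |c n i| ≤ C0) → (∀ n, Module.finrank ℝ (V n) ≤ r) →
        (∀ σ : K →+* ℂ, ∃ n, ∃ v ∈ V n, ∀ i, |Lg (fun j => σ (u j)) i - (c n i + v i)| ≤ δ) →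
        ∃ f : (Fin k → Fin (L + 1)) → ℤ, f ≠ 0 ∧ (∀ α, |f α| ≤ 2 ^ L) ∧ ev f u = 0 := by
  classical
  have hk1 : (1 : ℝ) ≤ k := by
    have : 1 ≤ k := by omega
    exact_mod_cast this
  obtain ⟨A, hA⟩ : ∃ A : ℝ, A = 2 * k * (4 * B + 2) + 1 := ⟨_, rfl⟩
  obtain ⟨C3, hC3⟩ : ∃ C3 : ℝ, C3 = 2 * (k + 1) + 2 * k * B + 1 := ⟨_, rfl⟩
  obtain ⟨A', hA'⟩ : ∃ A' : ℝ, A' = 2 * k * (A + C0 + 1) := ⟨_, rfl⟩
  have hA1 : 1 ≤ A := by rw [hA]; nlinarith [mul_nonneg (by linarith : (0:ℝ) ≤ k) (by linarith : (0:ℝ) ≤ 4 * B + 2)]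
  have hC30 : 0 ≤ C3 := by rw [hC3]; nlinarith [mul_nonneg (by linarith : (0:ℝ) ≤ k) hB]
  have hAA' : A ≤ A' := by
    rw [hA']
    nlinarith [mul_nonneg (by linarith : (0:ℝ) ≤ k - 1) (by linarith : (0:ℝ) ≤ A + C0 + 1)]
  obtain ⟨L, hL, δ0, hδ0, hsmall⟩ := small k r N hr C0 A' C3 hC0 (by linarith) hC30
  refine ⟨L, min δ0 1, lt_min hδ0 one_pos, ?_⟩
  intro K _ _ u hu0 hu1 huB c V hc hV hσ
  choose b hb1 hb2 using fun n => bp6_basis (V n) r (hV n)
  obtain ⟨f, hf0, hfb, hfs⟩ := hsmall c b hc hb1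
  refine ⟨f, hf0, hfb, ?_⟩
  by_contra h0
  set D : ℝ := (Module.finrank ℚ K : ℝ) with hD
  have hDpos : 0 < D := by
    have : 0 < Module.finrank ℚ K := Module.finrank_pos
    rw [hD]
    exact Nat.cast_pos.2 this
  have hcard : ((Finset.univ : Finset (K →+* ℂ)).card : ℝ) = D := by
    rw [Finset.card_univ, NumberField.Embeddings.card K ℂ]
  have hLpos : (0 : ℝ) < L := by exact_mod_cast hL
  -- good embeddings
  have hgood : ∀ σ : K →+* ℂ, (∀ i, |Lg (fun j => σ (u j)) i| ≤ A) →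
      lv (Sum.inl σ : Pl K) (ev f u) ≤ -(C3 * L) := by
    intro σ hg
    have hev : σ (ev f u) = ev f (fun j => σ (u j)) := by
      unfold ev
      rw [map_sum]
      refine Finset.sum_congr rfl fun α _ => ?_
      rw [map_mul, map_prod, map_intCast]
      simp only [map_pow]
    have hle : ‖ev f (fun j => σ (u j))‖ ≤ Real.exp (-(C3 * L)) := by
      refine hfs _ (fun j => (map_ne_zero σ).2 (hu0 j)) (fun j => ?_) (fun i => (hg i).trans hAA') ?_
      · intro h
        apply hu1 j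
        apply σ.injective
        rw [h, map_one]
      · obtain ⟨n, v, hv, hn⟩ := hσ σ
        obtain ⟨τ, hτ1, hτ2⟩ := hb2 n v hv
        refine ⟨n, τ, ?_, ?_⟩
        · intro j
          refine (hτ1 j).trans ?_
          have hvi : ∀ i ∈ (Finset.univ : Finset (Fin k × Fin 2)), |v i| ≤ A + C0 + 1 := by
            intro i _
            have h1 := hn i
            have h2 := hg i
            have h3 := hc n i
            have h4 : min δ0 1 ≤ 1 := min_le_right _ _
            rw [abs_le] at h1 h2 h3 ⊢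
            constructor <;> linarith [h1.1, h1.2, h2.1, h2.2, h3.1, h3.2]
          refine (Finset.sum_le_card_nsmul _ _ _ hvi).trans (le_of_eq ?_)
          rw [Finset.card_univ, Fintype.card_prod, Fintype.card_fin, Fintype.card_fin, nsmul_eq_mul,
            hA']
          push_cast
          ring
        · intro i
          rw [← hτ2 i]
          exact (hn i).trans (min_le_left _ _)
    have hpos : 0 < ‖σ (ev f u)‖ := norm_pos_iff.2 ((map_ne_zero σ).2 h0)
    have : Real.log ‖σ (ev f u)‖ ≤ Real.log (Real.exp (-(C3 * L))) :=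
      Real.log_le_log hpos (by rw [hev]; exact hle)
    rw [Real.log_exp] at this
    exact this
  -- counting of bad embeddings
  have hlog2 : Real.log 2 ≤ 1 := by
    have := Real.log_two_lt_d9
    linarith
  have hlog20 : 0 ≤ Real.log 2 := Real.log_nonneg (by norm_num)
  have hsum : ∑ σ : K →+* ℂ, ∑ i, |Lg (fun j => σ (u j)) i| ≤ k * D * (4 * B + 2) := by
    rw [Finset.sum_comm, Fintype.sum_prod_type]
    have h1 : ∀ j ∈ (Finset.univ : Finset (Fin k)),
        ∑ y : Fin 2, ∑ σ : K →+* ℂ, |Lg (fun j => σ (u j)) (j, y)| ≤ D * (4 * B + 2) := by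
      intro j _
      rw [Fin.sum_univ_two]
      have e1 : ∑ σ : K →+* ℂ, |Lg (fun j => σ (u j)) (j, 0)| ≤ 2 * hh (u j) := by
        have := sum_abs_le (hu0 j)
        simpa [Lg] using this
      have e2 : ∑ σ : K →+* ℂ, |Lg (fun j => σ (u j)) (j, 1)| ≤ 2 * hh (1 - u j) := by
        have := sum_abs_le (x := 1 - u j) (sub_ne_zero.2 (Ne.symm (hu1 j)))
        simpa [Lg] using this
      have e3 := hh_one_sub (hu0 j) (hu1 j)
      have e4 := huB j
      rw [← hD] at e3
      have e5 : D * Real.log 2 ≤ D * 1 := mul_le_mul_of_nonneg_left hlog2 hDpos.le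
      nlinarith
    refine (Finset.sum_le_card_nsmul _ _ _ h1).trans (le_of_eq ?_)
    rw [Finset.card_univ, Fintype.card_fin, nsmul_eq_mul]
    ring
  obtain ⟨bad, hbad⟩ : ∃ bad : Finset (K →+* ℂ), bad = Finset.univ.filter
      (fun σ => ¬ ∀ i, |Lg (fun j => σ (u j)) i| ≤ A) := ⟨_, rfl⟩
  have hbadcard : (bad.card : ℝ) ≤ D / 2 := by
    have h1 : ∀ σ ∈ bad, A ≤ ∑ i, |Lg (fun j => σ (u j)) i| := by
      intro σ hσb
      rw [hbad, Finset.mem_filter] at hσb
      have h2 := hσb.2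
      push Not at h2
      obtain ⟨i, hi⟩ := h2
      refine hi.le.trans ?_
      exact Finset.single_le_sum (f := fun i => |Lg (fun j => σ (u j)) i|)
        (fun _ _ => abs_nonneg _) (Finset.mem_univ i)
    have h2 : (bad.card : ℝ) * A ≤ k * D * (4 * B + 2) := by
      have h3 := Finset.card_nsmul_le_sum bad _ A h1
      rw [nsmul_eq_mul] at h3
      refine h3.trans (le_trans ?_ hsum)
      exact Finset.sum_le_sum_of_subset_of_nonneg (Finset.subset_univ _)
        fun _ _ _ => Finset.sum_nonneg fun _ _ => abs_nonneg _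
    have hq : 0 < (k : ℝ) * (4 * B + 2) := mul_pos (by linarith) (by linarith)
    have hcn : (0 : ℝ) ≤ bad.card := Nat.cast_nonneg _
    by_contra hcon
    push Not at hcon
    have h5 : D / 2 * (2 * (k * (4 * B + 2))) < (bad.card : ℝ) * (2 * (k * (4 * B + 2))) :=
      mul_lt_mul_of_pos_right hcon (by linarith)
    rw [hA] at h2
    nlinarith
  -- the majorant
  obtain ⟨G, hG⟩ : ∃ G : Pl K → ℝ, G = Sum.elim
      (fun σ => if σ ∈ bad then ((k : ℝ) + 1) * L * Real.log 2 else -(C3 * L)) (fun _ => 0) :=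
    ⟨_, rfl⟩
  have hGF : FS G := by
    unfold FS
    refine Set.Finite.subset (Set.finite_range (Sum.inl : (K →+* ℂ) → Pl K)) ?_
    rintro (σ | v) hp
    · exact ⟨σ, rfl⟩
    · simp [hG] at hp
  have hpt : ∀ p : Pl K, lv p (ev f u) ≤ L * ∑ j, max 0 (lv p (u j)) + G p := by
    intro p
    have hS : 0 ≤ (L : ℝ) * ∑ j, max 0 (lv p (u j)) :=
      mul_nonneg hLpos.le (Finset.sum_nonneg fun _ _ => le_max_left _ _)
    rcases p with σ | v
    · by_cases hb : σ ∈ bad
      · have := lv_ev_le f hfb u hu0 h0 (Sum.inl σ)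
        simp only [Sum.elim_inl] at this
        simpa only [hG, Sum.elim_inl, if_pos hb] using this
      · have hg : ∀ i, |Lg (fun j => σ (u j)) i| ≤ A := by
          by_contra hcon
          exact hb (by rw [hbad]; exact Finset.mem_filter.2 ⟨Finset.mem_univ _, hcon⟩)
        have h1 := hgood σ hg
        have h2 : G (Sum.inl σ) = -(C3 * L) := by
          simp only [hG, Sum.elim_inl, if_neg hb]
        rw [h2]
        linarith
    · have := lv_ev_le f hfb u hu0 h0 (Sum.inr v)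
      simpa only [hG, Sum.elim_inr] using this
  have hFm : ∀ j, FS (fun p : Pl K => max 0 (lv p (u j))) :=
    fun j => FS.max FS.zero (FS_lv (hu0 j))
  have hFs : FS (fun p : Pl K => ∑ j, max 0 (lv p (u j))) :=
    FS.sum Finset.univ (F := fun j (p : Pl K) => max 0 (lv p (u j))) fun j _ => hFm j
  have hfin := Sm_mono (FS_lv h0) ((hFs.smul (L : ℝ)).add hGF) hpt
  rw [Sm_lv h0, Sm_add (hFs.smul (L : ℝ)) hGF, Sm_smul,
    Sm_sum Finset.univ (F := fun j (p : Pl K) => max 0 (lv p (u j))) fun j _ => hFm j] at hfin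
  have hhs : ∑ j, Sm (fun p : Pl K => max 0 (lv p (u j))) ≤ k * (B * D) := by
    have h1 : ∀ j ∈ (Finset.univ : Finset (Fin k)),
        Sm (fun p : Pl K => max 0 (lv p (u j))) ≤ B * D := fun j _ => huB j
    refine (Finset.sum_le_card_nsmul _ _ _ h1).trans (le_of_eq ?_)
    rw [Finset.card_univ, Fintype.card_fin, nsmul_eq_mul]
  have hGs : Sm G = bad.card * (((k : ℝ) + 1) * L * Real.log 2) + (D - bad.card) * (-(C3 * L)) := by
    rw [Sm_split hGF]
    simp only [hG, Sum.elim_inl, Sum.elim_inr, finsum_zero, add_zero]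
    rw [Finset.sum_ite, Finset.sum_const, Finset.sum_const, nsmul_eq_mul, nsmul_eq_mul]
    have c1 : (Finset.univ.filter (fun σ : K →+* ℂ => σ ∈ bad)).card = bad.card := by
      congr 1
      ext σ
      simp
    have c2 : ((Finset.univ.filter (fun σ : K →+* ℂ => σ ∉ bad)).card : ℝ) = D - bad.card := by
      have h3 := Finset.card_filter_add_card_filter_not (s := (Finset.univ : Finset (K →+* ℂ)))
        (fun σ : K →+* ℂ => σ ∈ bad)
      rw [c1] at h3
      have h4 : (bad.card : ℝ) + ((Finset.univ.filter (fun σ : K →+* ℂ => σ ∉ bad)).card : ℝ) = D := by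
        rw [← hcard]
        exact_mod_cast h3
      linarith
    rw [c1, c2]
  rw [hGs] at hfin
  have hcn : (0 : ℝ) ≤ bad.card := Nat.cast_nonneg _
  have t1 : (L : ℝ) * ∑ j, Sm (fun p : Pl K => max 0 (lv p (u j))) ≤ L * (k * (B * D)) :=
    mul_le_mul_of_nonneg_left hhs hLpos.le
  have t2 : (bad.card : ℝ) * (((k : ℝ) + 1) * L * Real.log 2) ≤ D / 2 * (((k : ℝ) + 1) * L) := by
    have : ((k : ℝ) + 1) * L * Real.log 2 ≤ ((k : ℝ) + 1) * L := by
      have h6 : 0 ≤ ((k : ℝ) + 1) * L := by positivity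
      nlinarith
    have h7 : 0 ≤ ((k : ℝ) + 1) * L * Real.log 2 := by positivity
    calc (bad.card : ℝ) * (((k : ℝ) + 1) * L * Real.log 2) ≤ D / 2 * (((k : ℝ) + 1) * L * Real.log 2) :=
          mul_le_mul_of_nonneg_right hbadcard h7
      _ ≤ _ := mul_le_mul_of_nonneg_left this (by linarith)
  have t3 : (D - bad.card) * (-(C3 * L)) ≤ D / 2 * (-(C3 * L)) := by
    have h8 : 0 ≤ C3 * L := mul_nonneg hC30 hLpos.le
    nlinarith
  have t4 : D / 2 * (-(C3 * L)) = -(D * L * ((k + 1) + k * B + 1 / 2)) := by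
    rw [hC3]; ring
  have hDL : 0 < D * L := mul_pos hDpos hLpos
  have t5 : L * (k * (B * D)) + (D / 2 * (((k : ℝ) + 1) * L) + -(D * L * ((k + 1) + k * B + 1 / 2))) < 0 := by
    have : L * (k * (B * D)) + (D / 2 * (((k : ℝ) + 1) * L) + -(D * L * ((k + 1) + k * B + 1 / 2))) =
        -(D * L * (((k : ℝ) + 1) / 2 + 1 / 2)) := by ring
    rw [this]
    have h9 : 0 < ((k : ℝ) + 1) / 2 + 1 / 2 := by positivity
    linarith [mul_pos hDL h9]
  linarith

end Pool.Agent.ZL2
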