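import Pool.Agent.ZL2.H
import Pool.Agent.ZL2.BP6

namespace Pool.Agent.ZL2

open Finset

theorem FS_max0 {K : Type} [Field K] [NumberField K] {x : K} (hx : x ≠ 0) :
    FS (fun p : Pl K => max 0 (lv p x)) := FS.zero.max (FS_lv hx)

theorem hh_nonneg {K : Type} [Field K] [NumberField K] (x : K) : 0 ≤ hh x :=
  Sm_nonneg fun _ => le_max_left _ _

theorem Sm_abs {K : Type} [Field K] [NumberField K] {x : K} (hx : x ≠ 0) :
    Sm (fun p : Pl K => |lv p x|) = 2 * hh x := by
  unfold hh
  have h1 := Sm_sub ((FS_max0 hx).smul 2) (FS_lv hx)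
  rw [Sm_lv hx, sub_zero, Sm_smul] at h1
  rw [← h1]
  refine Sm_congr fun p => ?_
  rcases le_total 0 (lv p x) with h | h
  · rw [abs_of_nonneg h, max_eq_right h]; ring
  · rw [abs_of_nonpos h, max_eq_left h]; ring

theorem lv_integral {K : Type} [Field K] [NumberField K] (v : NumberField.FinitePlace K) {z : K}
    (hz : IsIntegral ℤ z) : v z ≤ 1 := by
  have h := NumberField.FinitePlace.norm_le_one (K := K) (NumberField.FinitePlace.maximalIdeal v)
    (⟨z, hz⟩ : NumberField.RingOfIntegers K)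
  rwa [NumberField.FinitePlace.norm_embedding_eq] at h

/-- The height of a fixed algebraic number in extensions. -/
theorem hh_ext {F : Type} [Field F] [NumberField F] {a : F} (ha : a ≠ 0) :
    ∃ C : ℝ, 0 ≤ C ∧ ∀ (K : Type) [Field K] [NumberField K] [Algebra F K],
      hh (algebraMap F K a) ≤ C * Module.finrank ℚ K := by
  obtain ⟨n, hn, _, hint⟩ := NumberField.exists_nat_le_mulHeight₁ a
  obtain ⟨C1, hC1⟩ : ∃ C1 : ℝ, C1 = ∑ τ : F →+* ℂ, |Real.log ‖τ a‖| := ⟨_, rfl⟩
  have hC10 : 0 ≤ C1 := by rw [hC1]; exact Finset.sum_nonneg fun _ _ => abs_nonneg _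
  have hn1 : (1 : ℝ) ≤ n := by exact_mod_cast Nat.one_le_iff_ne_zero.2 hn
  have hlog : 0 ≤ Real.log n := Real.log_nonneg hn1
  refine ⟨C1 + Real.log n, by positivity, ?_⟩
  intro K _ _ _
  have haK : algebraMap F K a ≠ 0 := (map_ne_zero _).2 ha
  have hnK : (n : K) ≠ 0 := by exact_mod_cast hn
  have hlog2 : 0 < Real.log 2 := Real.log_pos (by norm_num)
  have key : ∀ p : Pl K, max 0 (lv p (algebraMap F K a)) ≤
      ((C1 + Real.log n) / Real.log 2) * ell p - lv p (n : K) := by
    rintro (σ | v)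
    · simp only [lv, ell, Sum.elim_inl, map_natCast, Complex.norm_natCast]
      rw [div_mul_cancel₀ _ hlog2.ne']
      have h1 : |Real.log ‖(σ.comp (algebraMap F K)) a‖| ≤ C1 := by
        rw [hC1]
        exact Finset.single_le_sum (f := fun τ : F →+* ℂ => |Real.log ‖τ a‖|)
          (fun _ _ => abs_nonneg _) (Finset.mem_univ (σ.comp (algebraMap F K)))
      have h2 : Real.log ‖σ (algebraMap F K a)‖ ≤ C1 := (le_abs_self _).trans h1
      exact max_le (by linarith) (by linarith)
    · simp only [lv, ell, Sum.elim_inr, mul_zero, zero_sub]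
      have h1 : v (algebraMap F K (n * a)) ≤ 1 := lv_integral v (hint.algebraMap)
      rw [map_mul, map_natCast, map_mul] at h1
      have h2 : 0 < v (n : K) := NumberField.FinitePlace.pos_iff.2 hnK
      have h3 : 0 < v (algebraMap F K a) := NumberField.FinitePlace.pos_iff.2 haK
      have h4 : Real.log (v (n : K)) + Real.log (v (algebraMap F K a)) ≤ 0 := by
        rw [← Real.log_mul h2.ne' h3.ne']
        exact Real.log_nonpos (mul_nonneg h2.le h3.le) h1
      have h5 : v (n : K) ≤ 1 := lv_integral v (by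
        have := isIntegral_algebraMap (R := ℤ) (A := K) (x := (n : ℤ))
        simpa using this)
      have h6 : Real.log (v (n : K)) ≤ 0 := Real.log_nonpos h2.le h5
      exact max_le (by linarith) (by linarith)
  have h1 := Sm_mono (FS_max0 haK) ((FS_ell.smul _).sub (FS_lv hnK)) key
  rw [Sm_sub (FS_ell.smul _) (FS_lv hnK), Sm_smul, Sm_lv hnK, Sm_ell, sub_zero] at h1
  unfold hh
  refine h1.trans (le_of_eq ?_)
  field_simp

/-- Linear algebra: if any three coordinates are dependent on `V` then `dim V ≤ 2`. -/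
theorem finrank_le_two {ι : Type} [Fintype ι] (V : Submodule ℝ (EuclideanSpace ℝ ι))
    (h : ∀ i : Fin 3 → ι, ∃ n : Fin 3 → ℝ, n ≠ 0 ∧ ∀ w ∈ V, ∑ l, n l * w (i l) = 0) :
    Module.finrank ℝ V ≤ 2 := by
  classical
  -- the coordinate functionals on `V`
  let f : ι → Module.Dual ℝ V := fun i =>
    (LinearMap.proj i : (ι → ℝ) →ₗ[ℝ] ℝ).comp
      ((WithLp.linearEquiv 2 ℝ (ι → ℝ)).toLinearMap.comp V.subtype)
  have hf : ∀ (i : ι) (w : V), f i w = (w : EuclideanSpace ℝ ι) i := fun i w => rfl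
  obtain ⟨κ, a, ha, hspan, hli⟩ := exists_linearIndependent' ℝ f
  have : Finite κ := Finite.of_injective a ha
  have := Fintype.ofFinite κ
  have hcard : Fintype.card κ ≤ 2 := by
    by_contra hc
    push Not at hc
    obtain ⟨e⟩ : Nonempty (Fin 3 ↪ κ) := by
      apply Function.Embedding.nonempty_of_card_le
      rw [Fintype.card_fin]
      exact hc
    obtain ⟨n, hn, hrel⟩ := h fun l => a (e l)
    apply hn
    have hli' := hli.comp e e.injective
    rw [Fintype.linearIndependent_iff] at hli'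
    funext l
    refine hli' n ?_ l
    ext w
    have := hrel w w.2
    simpa [hf] using this
  -- `V` embeds into `κ → ℝ`
  let g : V →ₗ[ℝ] (κ → ℝ) := LinearMap.pi fun k => f (a k)
  have hg : Function.Injective g := by
    rw [← LinearMap.ker_eq_bot, LinearMap.ker_eq_bot']
    intro w hw
    have h1 : ∀ k, f (a k) w = 0 := fun k => congrFun hw k
    have h2 : ∀ i, f i w = 0 := by
      intro i
      have h3 : f i ∈ Submodule.span ℝ (Set.range (f ∘ a)) := by
        rw [hspan]
        exact Submodule.subset_span ⟨i, rfl⟩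
      refine Submodule.span_induction (p := fun φ _ => φ w = 0) ?_ ?_ ?_ ?_ h3
      · rintro _ ⟨k, rfl⟩
        exact h1 k
      · simp
      · intro φ ψ _ _ h4 h5
        rw [LinearMap.add_apply, h4, h5, add_zero]
      · intro c φ _ h4
        rw [LinearMap.smul_apply, h4, smul_zero]
    apply Subtype.ext
    ext i
    rw [← hf]
    exact h2 i
  have h3 := LinearMap.finrank_le_finrank_of_injective hg
  rw [Module.finrank_pi] at h3
  exact h3.trans hcard

/-- The polynomial with coefficients `f`. -/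
noncomputable def toP {k L : ℕ} (f : (Fin k → Fin (L + 1)) → ℤ) : MvPolynomial (Fin k) ℤ :=
  ∑ α, MvPolynomial.monomial (Finsupp.equivFunOnFinite.symm fun j => (α j : ℕ)) (f α)

theorem aeval_toP {K : Type} [Field K] {k L : ℕ} (f : (Fin k → Fin (L + 1)) → ℤ) (u : Fin k → K) :
    MvPolynomial.aeval u (toP f) = ev f u := by
  unfold toP ev
  rw [map_sum]
  refine Finset.sum_congr rfl fun α _ => ?_
  rw [MvPolynomial.aeval_monomial]
  congr 1
  rw [Finsupp.prod_fintype _ _ (fun i => pow_zero _)]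
  rfl

theorem toP_ne {k L : ℕ} {f : (Fin k → Fin (L + 1)) → ℤ} (hf : f ≠ 0) : toP f ≠ 0 := by
  obtain ⟨α0, hα0⟩ := Function.ne_iff.1 hf
  intro h
  have h1 := congrArg (MvPolynomial.coeff (Finsupp.equivFunOnFinite.symm fun j => (α0 j : ℕ))) h
  unfold toP at h1
  rw [MvPolynomial.coeff_sum, MvPolynomial.coeff_zero] at h1
  rw [Finset.sum_eq_single α0] at h1
  · rw [MvPolynomial.coeff_monomial, if_pos rfl] at h1
    exact hα0 h1
  · intro α _ hne
    rw [MvPolynomial.coeff_monomial, if_neg]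
    intro h2
    apply hne
    funext j
    have h3 := DFunLike.congr_fun h2 j
    simp only [Finsupp.equivFunOnFinite_symm_apply_apply] at h3
    exact Fin.ext h3
  · intro h2
    exact absurd (Finset.mem_univ _) h2

/-- The finite set of nonzero coefficient functions with `|f α| ≤ B`. -/
theorem finite_coeffs (k L B : ℕ) :
    {f : (Fin k → Fin (L + 1)) → ℤ | f ≠ 0 ∧ ∀ α, |f α| ≤ (B : ℤ)}.Finite := by
  refine Set.Finite.subset (Set.finite_Icc (fun _ => -(B : ℤ)) (fun _ => (B : ℤ))) ?_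
  rintro f ⟨_, hf⟩
  rw [Set.mem_Icc]
  exact ⟨fun α => (abs_le.1 (hf α)).1, fun α => (abs_le.1 (hf α)).2⟩

/-- The equivalence polynomials. -/
noncomputable def EQ (j l : Fin 3) (σ : Equiv.Perm (Fin 3)) : MvPolynomial (Fin 3) ℤ :=
  MvPolynomial.X j * (![MvPolynomial.X l, 1 - MvPolynomial.X l, -1] : Fin 3 → MvPolynomial (Fin 3) ℤ) (σ 1) -
    (1 - MvPolynomial.X j) * (![MvPolynomial.X l, 1 - MvPolynomial.X l, -1] : Fin 3 → MvPolynomial (Fin 3) ℤ) (σ 0)

theorem EQ_ne {j l : Fin 3} (hjl : j ≠ l) (σ : Equiv.Perm (Fin 3)) : EQ j l σ ≠ 0 := by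
  intro h
  have h1 := congrArg (MvPolynomial.eval (fun i : Fin 3 => if i = l then (2 : ℤ) else 0)) h
  unfold EQ at h1
  simp only [map_sub, map_mul, MvPolynomial.eval_X, map_one, map_zero, if_neg hjl] at h1
  rw [zero_mul, sub_zero, one_mul, zero_sub, neg_eq_zero] at h1
  have h2 : ∀ i : Fin 3, (MvPolynomial.eval (fun i : Fin 3 => if i = l then (2 : ℤ) else 0))
      ((![MvPolynomial.X l, 1 - MvPolynomial.X l, -1] : Fin 3 → MvPolynomial (Fin 3) ℤ) i) ≠ 0 := by
    intro i
    fin_cases i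
    · simp
    · simp
    · simp only [Fin.reduceFinMk]
      have : (![MvPolynomial.X l, 1 - MvPolynomial.X l, -1] : Fin 3 → MvPolynomial (Fin 3) ℤ) 2 = -1 := rfl
      rw [this]
      simp
  exact h2 _ h1

theorem aeval_EQ {K : Type} [Field K] [NumberField K] (j l : Fin 3) (σ : Equiv.Perm (Fin 3))
    (A B x y : Fin 3 → K) (h : ∀ j, A j * x j + B j * y j = 1) :
    MvPolynomial.aeval (fun i => A i * x i) (EQ j l σ) =
      DD (Xl (A j) (B j) (x j) (y j)) (fun i => Xl (A l) (B l) (x l) (y l) (σ i)) := by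
  have h2 : ∀ i : Fin 3, MvPolynomial.aeval (fun i => A i * x i)
      ((![MvPolynomial.X l, 1 - MvPolynomial.X l, -1] : Fin 3 → MvPolynomial (Fin 3) ℤ) i) =
      Xl (A l) (B l) (x l) (y l) i := by
    intro i
    fin_cases i
    · simp [Xl]
    · have e1 : (![MvPolynomial.X l, 1 - MvPolynomial.X l, -1] : Fin 3 → MvPolynomial (Fin 3) ℤ) 1 =
        1 - MvPolynomial.X l := rfl
      have e2 : Xl (A l) (B l) (x l) (y l) 1 = B l * y l := rfl
      simp only [Fin.mk_one]
      rw [e1, e2, map_sub, map_one, MvPolynomial.aeval_X]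
      linear_combination -(h l)
    · have e1 : (![MvPolynomial.X l, 1 - MvPolynomial.X l, -1] : Fin 3 → MvPolynomial (Fin 3) ℤ) 2 = -1 := rfl
      have e2 : Xl (A l) (B l) (x l) (y l) 2 = -1 := rfl
      simp only [Fin.reduceFinMk]
      rw [e1, e2, map_neg, map_one]
  have e5 : MvPolynomial.aeval (fun i => A i * x i) (1 - MvPolynomial.X j : MvPolynomial (Fin 3) ℤ) =
      B j * y j := by
    rw [map_sub, map_one, MvPolynomial.aeval_X]
    linear_combination -(h j)
  unfold EQ DD
  rw [map_sub, map_mul, map_mul, h2, h2, e5, MvPolynomial.aeval_X]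
  rfl

end Pool.Agent.ZL2
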