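import Pool.Agent.ZL2.Const

namespace Pool.Agent.ZL2

open Finset

section aux

variable {K : Type} [Field K] [NumberField K]

/-- The coordinates. -/
def cc {K : Type} (x y : Fin 3 → K) (i : Fin 3 × Fin 2) : K := if i.2 = 0 then x i.1 else y i.1

theorem hh_le_Ht {a b x y : K} (ha : a ≠ 0) (hb : b ≠ 0) (hx : x ≠ 0) (hy : y ≠ 0) :
    hh (a * x) ≤ Ht (Xl a b x y) ∧ hh (b * y) ≤ Ht (Xl a b x y) := by
  have hX := Xl_ne ha hb hx hy
  have h2 : ∀ p : Pl K, lv p (Xl a b x y 2) = 0 := by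
    intro p
    have : Xl a b x y 2 = -1 := rfl
    rw [this, lv_neg, lv_one]
  constructor
  · refine Sm_mono (FS_max0 (mul_ne_zero ha hx)) (FS_mx hX) fun p => max_le ?_ ?_
    · rw [← h2 p]; exact lv_le_mx _ p 2
    · exact lv_le_mx (Xl a b x y) p 0
  · refine Sm_mono (FS_max0 (mul_ne_zero hb hy)) (FS_mx hX) fun p => max_le ?_ ?_
    · rw [← h2 p]; exact lv_le_mx _ p 2
    · exact lv_le_mx (Xl a b x y) p 1

theorem Sm_abs_div {a x : K} (ha : a ≠ 0) (hx : x ≠ 0) {H : ℝ} (hH : hh (a * x) ≤ H) :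
    Sm (fun p : Pl K => |lv p x|) ≤ 2 * H + 2 * hh a := by
  have h1 : Sm (fun p : Pl K => |lv p x|) ≤ Sm (fun p : Pl K => |lv p (a * x)| + |lv p a|) := by
    refine Sm_mono (FS_lv hx).abs ((FS_lv (mul_ne_zero ha hx)).abs.add (FS_lv ha).abs) fun p => ?_
    have e : lv p x = lv p (a * x) - lv p a := by rw [lv_mul p ha hx]; ring
    rw [e]
    exact abs_sub _ _
  rw [Sm_add (FS_lv (mul_ne_zero ha hx)).abs (FS_lv ha).abs, Sm_abs (mul_ne_zero ha hx), Sm_abs ha] at h1
  linarith

theorem near_ray {a b x y z : K} (ha : a ≠ 0) (hb : b ≠ 0) (hx : x ≠ 0) (hy : y ≠ 0)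
    {p q κ : ℝ} (v : Pl K) (r : lv v z = p * lv v x + q * lv v y)
    (hκ : ∀ i, |(![-p, -q, p + q] : Fin 3 → ℝ) i| ≤ κ) (h0 : ∀ i, 0 ≤ tt (Xl a b x y) v i)
    {μ : Fin 3} (hμ : ∀ j, j ≠ μ → tt (Xl a b x y) v j ≤ ell v) :
    |lv v z - tt (Xl a b x y) v μ * (![-p, -q, p + q] : Fin 3 → ℝ) μ| ≤
      κ * (2 * ell v + (|lv v a| + |lv v b|)) := by
  have hκ0 : 0 ≤ κ := (abs_nonneg _).trans (hκ 0)
  obtain ⟨α, hα⟩ : ∃ α : Fin 3 → ℝ, α = ![-p, -q, p + q] := ⟨_, rfl⟩
  rw [← hα] at hκ ⊢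
  have a0 : α 0 = -p := by rw [hα]; rfl
  have a1 : α 1 = -q := by rw [hα]; rfl
  have a2 : α 2 = p + q := by rw [hα]; rfl
  have T0 := tt_Xl0 v (a := a) (b := b) (x := x) (y := y) ha hx
  have T1 := tt_Xl1 v (a := a) (b := b) (x := x) (y := y) hb hy
  set t := tt (Xl a b x y) with ht
  have e1 : ∑ i, α i * t v i = lv v z + (p * lv v a + q * lv v b) := by
    rw [Fin.sum_univ_three, a0, a1, a2, r]
    linear_combination p * T0 + q * T1
  have e2 : lv v z - t v μ * α μ = ∑ i ∈ Finset.univ.erase μ, α i * t v i -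
      (p * lv v a + q * lv v b) := by
    have := Finset.add_sum_erase Finset.univ (fun i => α i * t v i) (Finset.mem_univ μ)
    linear_combination -this - e1
  have e3 : |∑ i ∈ Finset.univ.erase μ, α i * t v i| ≤ 2 * (κ * ell v) := by
    have hcard : (Finset.univ.erase μ).card = 2 := by
      rw [Finset.card_erase_of_mem (Finset.mem_univ _)]; rfl
    calc |∑ i ∈ Finset.univ.erase μ, α i * t v i| ≤ ∑ i ∈ Finset.univ.erase μ, |α i * t v i| :=
          Finset.abs_sum_le_sum_abs _ _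
      _ ≤ ∑ i ∈ Finset.univ.erase μ, κ * ell v := by
          refine Finset.sum_le_sum fun i hi' => ?_
          rw [abs_mul, abs_of_nonneg (h0 i)]
          exact mul_le_mul (hκ i) (hμ i (Finset.ne_of_mem_erase hi')) (h0 i) hκ0
      _ = 2 * (κ * ell v) := by
          rw [Finset.sum_const, hcard]
          simp
  have hp : |p| ≤ κ := by
    have := hκ 0
    rwa [a0, abs_neg] at this
  have hq : |q| ≤ κ := by
    have := hκ 1
    rwa [a1, abs_neg] at this
  rw [e2]
  have i1 := abs_sub (∑ i ∈ Finset.univ.erase μ, α i * t v i) (p * lv v a + q * lv v b)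
  have i2 := abs_add_le (p * lv v a) (q * lv v b)
  rw [abs_mul, abs_mul] at i2
  have i3 := mul_le_mul_of_nonneg_right hp (abs_nonneg (lv v a))
  have i4 := mul_le_mul_of_nonneg_right hq (abs_nonneg (lv v b))
  linarith

end aux

theorem main3 {F : Type} [Field F] [NumberField F] (a b : Fin 3 → F) (ha : ∀ j, a j ≠ 0)
    (hb : ∀ j, b j ≠ 0) :
    ∃ PP : Finset (MvPolynomial (Fin 3) ℤ), (∀ P ∈ PP, P ≠ 0) ∧
      ∀ (K : Type) [Field K] [NumberField K] [Algebra F K] (x y : Fin 3 → K),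
        (∀ j, x j ≠ 0) → (∀ j, y j ≠ 0) →
        (∀ j, algebraMap F K (a j) * x j + algebraMap F K (b j) * y j = 1) →
        (∀ i : Fin 3 → Fin 3 × Fin 2, ∃ n : Fin 3 → ℤ, n ≠ 0 ∧ ∏ l, (cc x y (i l)) ^ n l = 1) →
        ∃ P ∈ PP, MvPolynomial.aeval (fun j => algebraMap F K (a j) * x j) P = 0 := by
  classical
  -- constants
  choose Ca hCa0 hCa using fun j => hh_ext (ha j)
  choose Cb hCb0 hCb using fun j => hh_ext (hb j)
  obtain ⟨Mc, hMc⟩ : ∃ Mc : ℝ, Mc = ∑ j, (2 * Ca j + 2 * Cb j) := ⟨_, rfl⟩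
  have hMc0 : 0 ≤ Mc := by
    rw [hMc]
    exact Finset.sum_nonneg fun j _ => by linarith [hCa0 j, hCb0 j]
  obtain ⟨M0, hM0⟩ : ∃ M0 : ℝ, M0 = 1 + 2 * Mc := ⟨_, rfl⟩
  have hM01 : 1 ≤ M0 := by linarith
  obtain ⟨Ci, hCi⟩ : ∃ Ci : ℝ, Ci = ∑ j, ∑ τ : F →+* ℂ, (|Real.log ‖τ (a j)‖| + |Real.log ‖τ (b j)‖|) :=
    ⟨_, rfl⟩
  have hCi1 : ∀ (j : Fin 3) (τ : F →+* ℂ), |Real.log ‖τ (a j)‖| + |Real.log ‖τ (b j)‖| ≤ Ci := by
    intro j τ
    rw [hCi]
    calc |Real.log ‖τ (a j)‖| + |Real.log ‖τ (b j)‖| ≤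
          ∑ τ : F →+* ℂ, (|Real.log ‖τ (a j)‖| + |Real.log ‖τ (b j)‖|) :=
          Finset.single_le_sum (f := fun τ : F →+* ℂ => |Real.log ‖τ (a j)‖| + |Real.log ‖τ (b j)‖|)
            (fun _ _ => by positivity) (Finset.mem_univ τ)
      _ ≤ _ := Finset.single_le_sum
          (f := fun j => ∑ τ : F →+* ℂ, (|Real.log ‖τ (a j)‖| + |Real.log ‖τ (b j)‖|))
            (fun _ _ => Finset.sum_nonneg fun _ _ => by positivity) (Finset.mem_univ j)
  have hCi0 : 0 ≤ Ci := by
    rw [hCi]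
    exact Finset.sum_nonneg fun _ _ => Finset.sum_nonneg fun _ _ => by positivity
  set NF := Fintype.card (F →+* ℂ) with hNF
  obtain ⟨L2, δ2, hδ2, bp2⟩ := BP 2 1 (3 * NF) (by norm_num) (2000 * M0) Ci (by positivity) hCi0
  obtain ⟨C1, hC1⟩ : ∃ C1 : ℝ, C1 = 2000 * M0 + 4001 * M0 * (2 + Ci) / δ2 := ⟨_, rfl⟩
  have hC1' : 0 ≤ 4001 * M0 * (2 + Ci) / δ2 := by positivity
  have hC10 : 0 ≤ C1 := by rw [hC1]; positivity
  obtain ⟨L3, δ3, hδ3, bp3⟩ := BP 3 2 NF (by norm_num) C1 Ci hC10 hCi0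
  -- the finite set
  obtain ⟨S2, hS2⟩ : ∃ S2 : Finset ((Fin 2 → Fin (L2 + 1)) → ℤ), ∀ f, f ∈ S2 ↔ (f ≠ 0 ∧ ∀ α, |f α| ≤ ((2 ^ L2 : ℕ) : ℤ)) :=
    ⟨(finite_coeffs 2 L2 (2 ^ L2)).toFinset, fun f => by rw [Set.Finite.mem_toFinset]; rfl⟩
  obtain ⟨S3, hS3⟩ : ∃ S3 : Finset ((Fin 3 → Fin (L3 + 1)) → ℤ), ∀ f, f ∈ S3 ↔ (f ≠ 0 ∧ ∀ α, |f α| ≤ ((2 ^ L3 : ℕ) : ℤ)) :=
    ⟨(finite_coeffs 3 L3 (2 ^ L3)).toFinset, fun f => by rw [Set.Finite.mem_toFinset]; rfl⟩
  refine ⟨((Finset.univ : Finset ({jl : Fin 3 × Fin 3 // jl.1 ≠ jl.2} × Equiv.Perm (Fin 3))).image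
      fun q => EQ q.1.1.1 q.1.1.2 q.2) ∪ (S3.image toP) ∪
    ((Finset.univ ×ˢ S2).image fun q : Fin 3 × ((Fin 2 → Fin (L2 + 1)) → ℤ) =>
      MvPolynomial.rename q.1.succAbove (toP q.2)), ?_, ?_⟩
  · intro P hP
    rw [Finset.mem_union, Finset.mem_union, Finset.mem_image, Finset.mem_image, Finset.mem_image] at hP
    rcases hP with (⟨q, _, rfl⟩ | ⟨f, hf, rfl⟩) | ⟨q, hq, rfl⟩
    · exact EQ_ne q.1.2 q.2
    · exact toP_ne ((hS3 f).1 hf).1
    · rw [Finset.mem_product] at hq
      have h1 := toP_ne ((hS2 q.2).1 hq.2).1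
      intro h2
      apply h1
      exact (MvPolynomial.rename_injective q.1.succAbove Fin.succAbove_right_injective)
        (by rw [h2, map_zero])
  intro K _ _ _ x y hx hy hxy hrel
  set A : Fin 3 → K := fun j => algebraMap F K (a j) with hA
  set B : Fin 3 → K := fun j => algebraMap F K (b j) with hB
  have hA0 : ∀ j, A j ≠ 0 := fun j => (map_ne_zero _).2 (ha j)
  have hB0 : ∀ j, B j ≠ 0 := fun j => (map_ne_zero _).2 (hb j)
  have hxy' : ∀ j, A j * x j + B j * y j = 1 := hxy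
  set D : ℝ := (Module.finrank ℚ K : ℝ) with hD
  have hDpos : 0 < D := by
    rw [hD]
    exact_mod_cast Module.finrank_pos
  obtain ⟨c, hc⟩ : ∃ c : Pl K → ℝ, ∀ v, c v = ∑ j, (|lv v (A j)| + |lv v (B j)|) := ⟨_, fun _ => rfl⟩
  have hcF : FS c := by
    have : c = fun v => ∑ j, (|lv v (A j)| + |lv v (B j)|) := funext hc
    rw [this]
    exact FS.sum _ fun j _ => (FS_lv (hA0 j)).abs.add (FS_lv (hB0 j)).abs
  have hcl : ∀ (j : Fin 3) (v : Pl K), |lv v (A j)| + |lv v (B j)| ≤ c v := by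
    intro j v
    rw [hc]
    exact Finset.single_le_sum (f := fun j => |lv v (A j)| + |lv v (B j)|) (fun _ _ => by positivity)
      (Finset.mem_univ j)
  have hcl' : ∀ (j : Fin 3) (v : Pl K), |lv v (A j)| ≤ c v ∧ |lv v (B j)| ≤ c v := by
    intro j v
    have := hcl j v
    constructor <;> linarith [abs_nonneg (lv v (A j)), abs_nonneg (lv v (B j))]
  obtain ⟨M, hM⟩ : ∃ M : ℝ, Sm (fun v : Pl K => ell v + 2 * c v) = M := ⟨_, rfl⟩
  have hc0 : ∀ v, 0 ≤ c v := fun v => (abs_nonneg _).trans (hcl' 0 v).1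
  have hMnn : 0 ≤ M := by
    rw [← hM]
    exact Sm_nonneg fun v => by linarith [hc0 v, ell_nonneg v]
  have hMle : M ≤ M0 * D := by
    have h1 : Sm c = ∑ j, (2 * hh (A j) + 2 * hh (B j)) := by
      have : c = fun v => ∑ j, (|lv v (A j)| + |lv v (B j)|) := funext hc
      rw [this, Sm_sum _ fun j _ => (FS_lv (hA0 j)).abs.add (FS_lv (hB0 j)).abs]
      refine Finset.sum_congr rfl fun j _ => ?_
      rw [Sm_add (FS_lv (hA0 j)).abs (FS_lv (hB0 j)).abs, Sm_abs (hA0 j), Sm_abs (hB0 j)]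
    have h2 : Sm c ≤ Mc * D := by
      rw [h1, hMc, Finset.sum_mul]
      refine Finset.sum_le_sum fun j _ => ?_
      have i1 := hCa j K
      have i2 := hCb j K
      linarith
    rw [← hM, Sm_add FS_ell (hcF.smul 2), Sm_smul, Sm_ell, hM0]
    have h3 : Real.log 2 ≤ 1 := by
      have := Real.log_two_lt_d9
      linarith
    have h4 : D * Real.log 2 ≤ D * 1 := mul_le_mul_of_nonneg_left h3 hDpos.le
    linarith
  -- the heights
  set X : Fin 3 → Fin 3 → K := fun j => Xl (A j) (B j) (x j) (y j) with hX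
  have hXne : ∀ j i, X j i ≠ 0 := fun j => Xl_ne (hA0 j) (hB0 j) (hx j) (hy j)
  by_cases hE : ∃ (j l : Fin 3) (_ : j ≠ l) (σ : Equiv.Perm (Fin 3)), DD (X j) (fun i => X l (σ i)) = 0
  · obtain ⟨j, l, hjl, σ, hσ⟩ := hE
    refine ⟨EQ j l σ, ?_, ?_⟩
    · rw [Finset.mem_union, Finset.mem_union, Finset.mem_image]
      exact Or.inl (Or.inl ⟨(⟨(j, l), hjl⟩, σ), Finset.mem_univ _, rfl⟩)
    · rw [← hσ]
      exact aeval_EQ j l σ A B x y hxy'
  push Not at hE
  -- relations
  have rel : ∀ j, 2 * M < Ht (X j) → ∀ i : Fin 3 × Fin 2, ∃ p q : ℝ, ∀ v : Pl K,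
      lv v (cc x y i) = p * lv v (x j) + q * lv v (y j) := by
    intro j hj i
    have hcc : ∀ i, cc x y i ≠ 0 := by
      intro i
      unfold cc
      split_ifs
      · exact hx _
      · exact hy _
    obtain ⟨n, hn, hprod⟩ := hrel ![(j, 0), (j, 1), i]
    have hlog : ∀ v : Pl K, (n 0 : ℝ) * lv v (x j) + (n 1 : ℝ) * lv v (y j) + (n 2 : ℝ) * lv v (cc x y i) = 0 := by
      intro v
      have h1 := congrArg (lv v) hprod
      rw [lv_one, Fin.prod_univ_three] at h1
      have e0 : (![(j, 0), (j, 1), i] : Fin 3 → Fin 3 × Fin 2) 0 = (j, 0) := rfl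
      have e1 : (![(j, 0), (j, 1), i] : Fin 3 → Fin 3 × Fin 2) 1 = (j, 1) := rfl
      have e2 : (![(j, 0), (j, 1), i] : Fin 3 → Fin 3 × Fin 2) 2 = i := rfl
      rw [e0, e1, e2] at h1
      have e3 : cc x y (j, 0) = x j := rfl
      have e4 : cc x y (j, 1) = y j := rfl
      rw [e3, e4, lv_mul v (mul_ne_zero (zpow_ne_zero _ (hx j)) (zpow_ne_zero _ (hy j)))
        (zpow_ne_zero _ (hcc i)), lv_mul v (zpow_ne_zero _ (hx j)) (zpow_ne_zero _ (hy j)),
        lv_zpow, lv_zpow, lv_zpow] at h1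
      exact h1
    have hn2 : n 2 ≠ 0 := by
      intro h2
      have h01 : (n 0 : ℝ) ≠ 0 ∨ (n 1 : ℝ) ≠ 0 := by
        by_contra hcon
        rw [not_or, not_not, not_not] at hcon
        apply hn
        funext l
        fin_cases l
        · exact_mod_cast hcon.1
        · exact_mod_cast hcon.2
        · exact h2
      have h3 := rank_one (hA0 j) (hB0 j) (hx j) (hy j) (hxy' j) h01 (fun v => by
        have := hlog v
        rw [h2, Int.cast_zero, zero_mul, add_zero] at this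
        exact this) hcF (hcl j)
      rw [hM] at h3
      exact absurd h3 (not_le.2 hj)
    refine ⟨-(n 0 : ℝ) / n 2, -(n 1 : ℝ) / n 2, fun v => ?_⟩
    have hn2' : (n 2 : ℝ) ≠ 0 := by exact_mod_cast hn2
    field_simp
    linear_combination hlog v
  -- pairs
  have pair : ∀ j l, j ≠ l → Ht (X j) ≤ Ht (X l) → Ht (X j) ≤ 2000 * M := by
    intro j l hjl hle
    by_contra hcon
    push Not at hcon
    have h2M : 2 * M < Ht (X j) := by linarith
    obtain ⟨p1, q1, r1⟩ := rel j h2M (l, 0)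
    obtain ⟨p2, q2, r2⟩ := rel j h2M (l, 1)
    obtain ⟨σ, hσ⟩ := theoremH (hA0 j) (hB0 j) (hA0 l) (hB0 l) (hx j) (hy j) (hx l) (hy l)
      (hxy' j) (hxy' l) r1 r2 hcF (hcl j) (hcl' l) hM hcon hle
    exact hE j l hjl σ hσ
  -- the relevant facts for the embeddings
  have hu1 : ∀ j, 1 - A j * x j = B j * y j := fun j => by linear_combination -(hxy' j)
  by_cases hbig : ∃ j0, C1 * D < Ht (X j0)
  · obtain ⟨j0, hj0⟩ := hbig
    have h2000 : 2000 * M < Ht (X j0) := by
      have h1 : 2000 * M ≤ 2000 * (M0 * D) := by linarith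
      have h2 : 2000 * (M0 * D) ≤ C1 * D := by
        rw [hC1]
        nlinarith
      linarith
    have hoth : ∀ l, l ≠ j0 → Ht (X l) ≤ 2000 * M := by
      intro l hl
      rcases le_total (Ht (X l)) (Ht (X j0)) with h | h
      · exact pair l j0 hl h
      · exact absurd (pair j0 l (Ne.symm hl) h) (not_le.2 h2000)
    set s := j0.succAbove with hs
    have hsj : ∀ e, s e ≠ j0 := fun e => Fin.succAbove_ne j0 e
    -- the coefficients
    have hrel0 := rel j0 (by linarith)
    choose p q hpq using fun ei : Fin 2 × Fin 2 => hrel0 (s ei.1, ei.2)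
    obtain ⟨κ, hκ⟩ : ∃ κ : ℝ, κ = δ2 / (2 + Ci) := ⟨_, rfl⟩
    have hsmall : ∀ (ei : Fin 2 × Fin 2) (i : Fin 3),
        |(![-(p ei), -(q ei), p ei + q ei] : Fin 3 → ℝ) i| ≤ κ := by
      intro ei i
      have hcc : cc x y (s ei.1, ei.2) ≠ 0 := by
        unfold cc
        split_ifs
        · exact hx _
        · exact hy _
      have h1 := coeff_small (hA0 j0) (hB0 j0) (hx j0) (hy j0) hcc (hxy' j0) (hpq ei) hcF (hcl j0) hM i
      have h2 : Sm (fun v : Pl K => |lv v (cc x y (s ei.1, ei.2))|) ≤ 4001 * M := by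
        have hHt := hh_le_Ht (hA0 (s ei.1)) (hB0 (s ei.1)) (hx (s ei.1)) (hy (s ei.1))
        have hle := hoth (s ei.1) (hsj ei.1)
        have hle' : Ht (Xl (A (s ei.1)) (B (s ei.1)) (x (s ei.1)) (y (s ei.1))) ≤ 2000 * M := hle
        have hAM : 2 * hh (A (s ei.1)) ≤ M := by
          rw [← Sm_abs (hA0 _), ← hM]
          refine Sm_mono (FS_lv (hA0 _)).abs (FS_m hcF) fun v => ?_
          linarith [(hcl' (s ei.1) v).1, ell_nonneg v, hc0 v]
        have hBM : 2 * hh (B (s ei.1)) ≤ M := by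
          rw [← Sm_abs (hB0 _), ← hM]
          refine Sm_mono (FS_lv (hB0 _)).abs (FS_m hcF) fun v => ?_
          linarith [(hcl' (s ei.1) v).2, ell_nonneg v, hc0 v]
        unfold cc
        split_ifs
        · have := Sm_abs_div (hA0 (s ei.1)) (hx (s ei.1)) (hHt.1.trans hle')
          simp only
          linarith
        · have := Sm_abs_div (hB0 (s ei.1)) (hy (s ei.1)) (hHt.2.trans hle')
          simp only
          linarith
      have h3 : |(![-(p ei), -(q ei), p ei + q ei] : Fin 3 → ℝ) i| * (4001 * M0 * (2 + Ci) / δ2 * D) ≤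
          4001 * (M0 * D) := by
        have h4 : 4001 * M0 * (2 + Ci) / δ2 * D ≤ Ht (Xl (A j0) (B j0) (x j0) (y j0)) - 3 * M := by
          have h5 : C1 * D < Ht (Xl (A j0) (B j0) (x j0) (y j0)) := hj0
          rw [hC1] at h5
          nlinarith
        have h5 := mul_le_mul_of_nonneg_left h4
          (abs_nonneg ((![-(p ei), -(q ei), p ei + q ei] : Fin 3 → ℝ) i))
        linarith
      rw [hκ, le_div_iff₀ (by linarith)]
      have h6 : 0 < 4001 * M0 * D / δ2 := by positivity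
      have h7 : |(![-(p ei), -(q ei), p ei + q ei] : Fin 3 → ℝ) i| * (2 + Ci) * (4001 * M0 * D / δ2) ≤
          δ2 * (4001 * M0 * D / δ2) := by
        have e1 : δ2 * (4001 * M0 * D / δ2) = 4001 * (M0 * D) := by field_simp
        rw [e1]
        refine le_trans (le_of_eq ?_) h3
        ring
      exact le_of_mul_le_mul_right h7 h6
    have hκ0 : 0 ≤ κ := by rw [hκ]; positivity
    -- apply BP with k = 2, r = 1
    have heq : Fintype.card (Fin 3 × (F →+* ℂ)) = 3 * NF := by
      rw [Fintype.card_prod, Fintype.card_fin]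
    let eN : Fin (3 * NF) ≃ Fin 3 × (F →+* ℂ) := (Fintype.equivFinOfCardEq heq).symm
    obtain ⟨f, hf0, hfB, hfev⟩ := bp2 K (fun e => A (s e) * x (s e))
      (fun e => mul_ne_zero (hA0 _) (hx _))
      (fun e h => by
        have h1 := hu1 (s e)
        rw [h, sub_self] at h1
        exact mul_ne_zero (hB0 (s e)) (hy (s e)) h1.symm)
      (fun e => by
        have h1 := (hh_le_Ht (hA0 (s e)) (hB0 (s e)) (hx (s e)) (hy (s e))).1
        have h2 := hoth (s e) (hsj e)
        have h2' : Ht (Xl (A (s e)) (B (s e)) (x (s e)) (y (s e))) ≤ 2000 * M := h2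
        have h3 : 2000 * M ≤ 2000 * M0 * D := by nlinarith
        linarith)
      (fun n ei => if ei.2 = 0 then Real.log ‖(eN n).2 (a (s ei.1))‖ else Real.log ‖(eN n).2 (b (s ei.1))‖)
      (fun n => Submodule.span ℝ {WithLp.toLp 2 (fun ei : Fin 2 × Fin 2 =>
        (![-(p ei), -(q ei), p ei + q ei] : Fin 3 → ℝ) (eN n).1)})
      (by
        intro n ei
        have h1 := hCi1 (s ei.1) (eN n).2
        split_ifs
        · linarith [abs_nonneg (Real.log ‖(eN n).2 (b (s ei.1))‖)]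
        · linarith [abs_nonneg (Real.log ‖(eN n).2 (a (s ei.1))‖)])
      (by
        intro n
        refine (finrank_span_le_card (R := ℝ) ({_} : Set _)).trans ?_
        simp)
      (by
        intro σ
        have hT := tri_of_sum_zero (hXne j0) (Xl_sum (hxy' j0))
        obtain ⟨μ, hμ⟩ := hT.main (Sum.inl σ)
        refine ⟨eN.symm (μ, σ.comp (algebraMap F K)), tt (X j0) (Sum.inl σ) μ •
          (WithLp.toLp 2 (fun ei : Fin 2 × Fin 2 => (![-(p ei), -(q ei), p ei + q ei] : Fin 3 → ℝ) μ)), ?_, ?_⟩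
        · rw [Equiv.apply_symm_apply]
          exact Submodule.smul_mem _ _ (Submodule.mem_span_singleton_self _)
        · intro ei
          rw [Equiv.apply_symm_apply]
          have h1 := near_ray (hA0 j0) (hB0 j0) (hx j0) (hy j0) (Sum.inl σ) (hpq ei (Sum.inl σ))
            (hsmall ei) (fun i => hT.nonneg _ i) hμ
          have h2 : κ * (2 * ell (Sum.inl σ : Pl K) + (|lv (Sum.inl σ) (A j0)| + |lv (Sum.inl σ) (B j0)|)) ≤ δ2 := by
            have e1 : |lv (Sum.inl σ : Pl K) (A j0)| + |lv (Sum.inl σ : Pl K) (B j0)| ≤ Ci :=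
              hCi1 j0 (σ.comp (algebraMap F K))
            have e2 : ell (Sum.inl σ : Pl K) ≤ 1 := by
              simp only [ell, Sum.elim_inl]
              have := Real.log_two_lt_d9
              linarith
            calc _ ≤ κ * (2 + Ci) := mul_le_mul_of_nonneg_left (by linarith) hκ0
              _ = δ2 := by rw [hκ]; field_simp
          refine le_trans (le_of_eq ?_) (h1.trans h2)
          congr 1
          have e3 : Lg (fun e => σ (A (s e) * x (s e))) ei =
              (if ei.2 = 0 then Real.log ‖(σ.comp (algebraMap F K)) (a (s ei.1))‖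
                else Real.log ‖(σ.comp (algebraMap F K)) (b (s ei.1))‖) +
              lv (Sum.inl σ : Pl K) (cc x y (s ei.1, ei.2)) := by
            unfold Lg cc
            simp only [lv, Sum.elim_inl, RingHom.comp_apply]
            split_ifs
            · rw [map_mul, norm_mul, Real.log_mul]
              · exact norm_ne_zero_iff.2 ((map_ne_zero σ).2 (hA0 _))
              · exact norm_ne_zero_iff.2 ((map_ne_zero σ).2 (hx _))
            · have : (1 : ℂ) - σ (A (s ei.1) * x (s ei.1)) = σ (B (s ei.1) * y (s ei.1)) := by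
                rw [← map_one σ, ← map_sub, hu1]
              rw [this, map_mul, norm_mul, Real.log_mul]
              · exact norm_ne_zero_iff.2 ((map_ne_zero σ).2 (hB0 _))
              · exact norm_ne_zero_iff.2 ((map_ne_zero σ).2 (hy _))
          rw [e3]
          simp only [PiLp.smul_apply, smul_eq_mul]
          ring)
    refine ⟨MvPolynomial.rename s (toP f), ?_, ?_⟩
    · rw [Finset.mem_union, Finset.mem_image]
      refine Or.inr ⟨(j0, f), ?_, rfl⟩
      rw [Finset.mem_product]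
      exact ⟨Finset.mem_univ _, (hS2 f).2 ⟨hf0, fun α => by exact_mod_cast hfB α⟩⟩
    · rw [MvPolynomial.aeval_rename]
      have : ((fun j => (algebraMap F K) (a j) * x j) ∘ s) = fun e => A (s e) * x (s e) := rfl
      rw [this, aeval_toP, hfev]
  · push Not at hbig
    -- all heights bounded: BP with k = 3, r = 2
    let eN : Fin NF ≃ (F →+* ℂ) := (Fintype.equivFin _).symm
    let W : Submodule ℝ (EuclideanSpace ℝ (Fin 3 × Fin 2)) :=
      Submodule.span ℝ (Set.range fun v : Pl K => WithLp.toLp 2 (fun i : Fin 3 × Fin 2 => lv v (cc x y i)))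
    have hcc : ∀ i, cc x y i ≠ 0 := by
      intro i
      unfold cc
      split_ifs
      · exact hx _
      · exact hy _
    have hW : Module.finrank ℝ W ≤ 2 := by
      refine finrank_le_two W fun i => ?_
      obtain ⟨n, hn, hprod⟩ := hrel i
      refine ⟨fun l => (n l : ℝ), ?_, ?_⟩
      · intro h0
        apply hn
        funext l
        have := congrFun h0 l
        simpa using this
      · intro w hw
        refine Submodule.span_induction (p := fun w _ => ∑ l, (n l : ℝ) * w (i l) = 0) ?_ ?_ ?_ ?_ hw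
        · rintro _ ⟨v, rfl⟩
          have h1 := congrArg (lv v) hprod
          rw [lv_one, Fin.prod_univ_three, lv_mul v (mul_ne_zero (zpow_ne_zero _ (hcc _)) (zpow_ne_zero _ (hcc _)))
            (zpow_ne_zero _ (hcc _)), lv_mul v (zpow_ne_zero _ (hcc _)) (zpow_ne_zero _ (hcc _)),
            lv_zpow, lv_zpow, lv_zpow] at h1
          rw [Fin.sum_univ_three]
          exact h1
        · simp
        · intro w w' _ _ h1 h2
          have e : ∑ l, (n l : ℝ) * (w + w') (i l) = ∑ l, (n l : ℝ) * w (i l) + ∑ l, (n l : ℝ) * w' (i l) := by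
            rw [← Finset.sum_add_distrib]
            refine Finset.sum_congr rfl fun l _ => ?_
            rw [PiLp.add_apply]
            ring
          rw [e, h1, h2, add_zero]
        · intro t w _ h1
          have e : ∑ l, (n l : ℝ) * (t • w) (i l) = t * ∑ l, (n l : ℝ) * w (i l) := by
            rw [Finset.mul_sum]
            refine Finset.sum_congr rfl fun l _ => ?_
            rw [PiLp.smul_apply, smul_eq_mul]
            ring
          rw [e, h1, mul_zero]
    obtain ⟨f, hf0, hfB, hfev⟩ := bp3 K (fun e => A e * x e)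
      (fun e => mul_ne_zero (hA0 _) (hx _))
      (fun e h => by
        have h1 := hu1 e
        rw [h, sub_self] at h1
        exact mul_ne_zero (hB0 e) (hy e) h1.symm)
      (fun e => by
        have h1 := (hh_le_Ht (hA0 e) (hB0 e) (hx e) (hy e)).1
        exact h1.trans (hbig e))
      (fun n ei => if ei.2 = 0 then Real.log ‖eN n (a ei.1)‖ else Real.log ‖eN n (b ei.1)‖)
      (fun _ => W)
      (by
        intro n ei
        have h1 := hCi1 ei.1 (eN n)
        split_ifs
        · linarith [abs_nonneg (Real.log ‖(eN n) (b ei.1)‖)]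
        · linarith [abs_nonneg (Real.log ‖(eN n) (a ei.1)‖)])
      (fun _ => hW)
      (by
        intro σ
        refine ⟨eN.symm (σ.comp (algebraMap F K)),
          WithLp.toLp 2 (fun i : Fin 3 × Fin 2 => lv (Sum.inl σ : Pl K) (cc x y i)), ?_, ?_⟩
        · exact Submodule.subset_span ⟨Sum.inl σ, rfl⟩
        · intro ei
          rw [Equiv.apply_symm_apply]
          have e3 : Lg (fun e => σ (A e * x e)) ei =
              (if ei.2 = 0 then Real.log ‖(σ.comp (algebraMap F K)) (a ei.1)‖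
                else Real.log ‖(σ.comp (algebraMap F K)) (b ei.1)‖) +
              lv (Sum.inl σ : Pl K) (cc x y ei) := by
            unfold Lg cc
            simp only [lv, Sum.elim_inl, RingHom.comp_apply]
            split_ifs
            · rw [map_mul, norm_mul, Real.log_mul]
              · exact norm_ne_zero_iff.2 ((map_ne_zero σ).2 (hA0 _))
              · exact norm_ne_zero_iff.2 ((map_ne_zero σ).2 (hx _))
            · have : (1 : ℂ) - σ (A ei.1 * x ei.1) = σ (B ei.1 * y ei.1) := by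
                rw [← map_one σ, ← map_sub, hu1]
              rw [this, map_mul, norm_mul, Real.log_mul]
              · exact norm_ne_zero_iff.2 ((map_ne_zero σ).2 (hB0 _))
              · exact norm_ne_zero_iff.2 ((map_ne_zero σ).2 (hy _))
          rw [e3]
          simp only
          rw [sub_self, abs_zero]
          exact hδ3.le)
    refine ⟨toP f, ?_, ?_⟩
    · rw [Finset.mem_union, Finset.mem_union, Finset.mem_image, Finset.mem_image]
      exact Or.inl (Or.inr ⟨f, (hS3 f).2 ⟨hf0, fun α => by exact_mod_cast hfB α⟩, rfl⟩)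
    · exact (aeval_toP f _).trans hfev

end Pool.Agent.ZL2
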