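import Pool.Agent.ZL2.BPdef

namespace Pool.Agent.ZL2

open Finset

/-- Row ZL2-BP1. For `z ≠ 0, 1`: `z^n = U_n + i (Im z) V_n` with `U_n, V_n` evaluated at
`p = log |z|`, `q = log |1 - z|`. Proof: `exp (2p) = |z|^2`, `exp (2q) = |1 - z|^2`, so `Rf p q = Re z`
(`|1 - z|^2 = 1 - 2 Re z + |z|^2`); `z^(n+2) = 2 (Re z) z^(n+1) - |z|^2 z^n` (as `z^2 = 2 (Re z) z - |z|^2`),
two-step induction. -/
theorem pow_eq_UV (z : ℂ) (hz : z ≠ 0) (hz1 : z ≠ 1) (n : ℕ) :
    z ^ n = (Uf n (Real.log ‖z‖) (Real.log ‖1 - z‖) : ℂ) +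
      Complex.I * z.im * (Vf n (Real.log ‖z‖) (Real.log ‖1 - z‖) : ℂ) := by
  have hp : Real.exp (2 * Real.log ‖z‖) = z.re ^ 2 + z.im ^ 2 := by
    have h0 : 0 < ‖z‖ := norm_pos_iff.2 hz
    rw [two_mul, Real.exp_add, Real.exp_log h0, ← sq, Complex.sq_norm, Complex.normSq_apply]
    ring
  have hq : Real.exp (2 * Real.log ‖1 - z‖) = (1 - z.re) ^ 2 + z.im ^ 2 := by
    have h0 : 0 < ‖1 - z‖ := norm_pos_iff.2 (sub_ne_zero.2 (Ne.symm hz1))
    rw [two_mul, Real.exp_add, Real.exp_log h0, ← sq, Complex.sq_norm, Complex.normSq_apply,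
      Complex.sub_re, Complex.sub_im, Complex.one_re, Complex.one_im]
    ring
  have hR : Rf (Real.log ‖z‖) (Real.log ‖1 - z‖) = z.re := by
    unfold Rf
    rw [hp, hq]
    ring
  have hz2 : z ^ 2 = 2 * (z.re : ℂ) * z - ((z.re ^ 2 + z.im ^ 2 : ℝ) : ℂ) := by
    apply Complex.ext
    · simp only [sq, Complex.mul_re, Complex.mul_im, Complex.sub_re, Complex.ofReal_re,
        Complex.ofReal_im, Complex.re_ofNat, Complex.im_ofNat]
      ring
    · simp only [sq, Complex.mul_re, Complex.mul_im, Complex.sub_im, Complex.ofReal_re,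
        Complex.ofReal_im, Complex.re_ofNat, Complex.im_ofNat]
      ring
  have hstep : ∀ m : ℕ, z ^ (m + 2) =
      2 * (z.re : ℂ) * z ^ (m + 1) - ((z.re ^ 2 + z.im ^ 2 : ℝ) : ℂ) * z ^ m := by
    intro m
    calc z ^ (m + 2) = z ^ m * z ^ 2 := pow_add z m 2
      _ = z ^ m * (2 * (z.re : ℂ) * z - ((z.re ^ 2 + z.im ^ 2 : ℝ) : ℂ)) := by rw [hz2]
      _ = _ := by rw [pow_succ z m]; ring
  have key : ∀ m : ℕ, (z ^ m = (Uf m (Real.log ‖z‖) (Real.log ‖1 - z‖) : ℂ) +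
      Complex.I * z.im * (Vf m (Real.log ‖z‖) (Real.log ‖1 - z‖) : ℂ)) ∧
      (z ^ (m + 1) = (Uf (m + 1) (Real.log ‖z‖) (Real.log ‖1 - z‖) : ℂ) +
      Complex.I * z.im * (Vf (m + 1) (Real.log ‖z‖) (Real.log ‖1 - z‖) : ℂ)) := by
    intro m
    induction m with
    | zero =>
      refine ⟨?_, ?_⟩
      · simp [Uf, Vf]
      · simp only [zero_add, pow_one, Uf, Vf, hR, Complex.ofReal_one, mul_one]
        conv_lhs => rw [← Complex.re_add_im z]
        ring
    | succ m ih =>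
      refine ⟨ih.2, ?_⟩
      rw [show m + 1 + 1 = m + 2 from rfl, hstep m, ih.1, ih.2]
      rw [show Uf (m + 2) (Real.log ‖z‖) (Real.log ‖1 - z‖) =
        2 * z.re * Uf (m + 1) (Real.log ‖z‖) (Real.log ‖1 - z‖) -
          (z.re ^ 2 + z.im ^ 2) * Uf m (Real.log ‖z‖) (Real.log ‖1 - z‖) by
            rw [Uf, hR, hp]]
      rw [show Vf (m + 2) (Real.log ‖z‖) (Real.log ‖1 - z‖) =
        2 * z.re * Vf (m + 1) (Real.log ‖z‖) (Real.log ‖1 - z‖) -
          (z.re ^ 2 + z.im ^ 2) * Vf m (Real.log ‖z‖) (Real.log ‖1 - z‖) by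
            rw [Vf, hR, hp]]
      push_cast
      ring
  exact (key n).1

/-- Row ZL2-BP1 (second part). The expansion of a monomial: apply `pow_eq_UV` to every factor and
`Finset.prod_add` (or `Fintype.prod_add`/`Finset.prod_add` over subsets), then collect. -/
theorem prod_pow_eq_GS {k : ℕ} (z : Fin k → ℂ) (hz : ∀ j, z j ≠ 0) (hz1 : ∀ j, z j ≠ 1)
    (a : Fin k → ℕ) :
    ∏ j, z j ^ a j = ∑ S : Finset (Fin k), (∏ j ∈ S, (Complex.I * (z j).im)) * (GS a S (Lg z) : ℂ) := by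
  classical
  have h1 : ∀ j, z j ^ a j = Complex.I * (z j).im *
      (Vf (a j) (Real.log ‖z j‖) (Real.log ‖1 - z j‖) : ℂ) +
      (Uf (a j) (Real.log ‖z j‖) (Real.log ‖1 - z j‖) : ℂ) := by
    intro j
    rw [pow_eq_UV (z j) (hz j) (hz1 j) (a j), add_comm]
  rw [Finset.prod_congr rfl (fun j _ => h1 j), Finset.prod_add, Finset.powerset_univ]
  refine Finset.sum_congr rfl fun S _ => ?_
  rw [Finset.prod_mul_distrib, mul_assoc]
  congr 1
  have hL0 : ∀ j, Lg z (j, 0) = Real.log ‖z j‖ := fun j => by simp [Lg]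
  have hL1 : ∀ j, Lg z (j, 1) = Real.log ‖1 - z j‖ := fun j => by simp [Lg]
  unfold GS
  simp only [hL0, hL1]
  rw [← Finset.prod_mul_prod_compl S, Complex.ofReal_mul, Complex.ofReal_prod,
    Complex.ofReal_prod, Finset.compl_eq_univ_sdiff]
  congr 1
  · refine Finset.prod_congr rfl fun j hj => ?_
    rw [if_pos hj]
  · refine Finset.prod_congr rfl fun j hj => ?_
    rw [if_neg (Finset.mem_sdiff.1 hj).2]

/-- Row ZL2-BP1 (third part). The bound: if `|Lg z i| ≤ A` for all `i`, `0 ≤ A`, and for all `S` the real number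
`∑_α f_α GS α S (Lg z)` has absolute value at most `ε`, then `‖ev f z‖ ≤ 2^k e^{kA} ε`
(`|Im z_j| ≤ |z_j| ≤ e^A`, and `1 ≤ e^A` to extend the product over `S` to all `j`; there are `2^k` sets `S`). -/
theorem norm_ev_le {k L : ℕ} (f : (Fin k → Fin (L + 1)) → ℤ) (z : Fin k → ℂ) (hz : ∀ j, z j ≠ 0)
    (hz1 : ∀ j, z j ≠ 1) {A ε : ℝ} (hA : 0 ≤ A) (hw : ∀ i, |Lg z i| ≤ A)
    (hε : ∀ S : Finset (Fin k), |∑ α : Fin k → Fin (L + 1), (f α : ℝ) * GS (fun j => (α j : ℕ)) S (Lg z)| ≤ ε) :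
    ‖ev f z‖ ≤ 2 ^ k * Real.exp (k * A) * ε := by
  classical
  have h1 : ev f z = ∑ S : Finset (Fin k), (∏ j ∈ S, (Complex.I * (z j).im)) *
      ((∑ α : Fin k → Fin (L + 1), (f α : ℝ) * GS (fun j => (α j : ℕ)) S (Lg z) : ℝ) : ℂ) := by
    unfold ev
    rw [Finset.sum_congr rfl (fun α _ => by
      rw [prod_pow_eq_GS z hz hz1 (fun j => (α j : ℕ)), Finset.mul_sum])]
    rw [Finset.sum_comm]
    refine Finset.sum_congr rfl fun S _ => ?_
    push_cast
    rw [Finset.mul_sum]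
    refine Finset.sum_congr rfl fun α _ => ?_
    ring
  have hε0 : 0 ≤ ε := (abs_nonneg _).trans (hε ∅)
  have hz3 : ∀ j, ‖z j‖ ≤ Real.exp A := by
    intro j
    have h0 : 0 < ‖z j‖ := norm_pos_iff.2 (hz j)
    have h2 : Real.log ‖z j‖ ≤ A := by
      have h3 := hw (j, 0)
      have h4 : Lg z (j, 0) = Real.log ‖z j‖ := by simp [Lg]
      rw [h4] at h3
      exact (le_abs_self _).trans h3
    calc ‖z j‖ = Real.exp (Real.log ‖z j‖) := (Real.exp_log h0).symm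
      _ ≤ Real.exp A := Real.exp_le_exp.2 h2
  have hprod : ∀ S : Finset (Fin k), ‖∏ j ∈ S, (Complex.I * ((z j).im : ℂ))‖ ≤ Real.exp (k * A) := by
    intro S
    rw [norm_prod]
    calc ∏ j ∈ S, ‖Complex.I * ((z j).im : ℂ)‖ ≤ ∏ _j ∈ S, Real.exp A := by
          refine Finset.prod_le_prod (fun j _ => norm_nonneg _) fun j _ => ?_
          rw [norm_mul, Complex.norm_I, one_mul, Complex.norm_real, Real.norm_eq_abs]
          exact (Complex.abs_im_le_norm (z j)).trans (hz3 j)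
      _ = Real.exp A ^ S.card := by rw [Finset.prod_const]
      _ ≤ Real.exp A ^ k := by
          refine pow_le_pow_right₀ (Real.one_le_exp hA) ?_
          simpa using Finset.card_le_univ S
      _ = Real.exp (k * A) := by rw [← Real.exp_nat_mul]
  rw [h1]
  calc _ ≤ ∑ S : Finset (Fin k), ‖(∏ j ∈ S, (Complex.I * ((z j).im : ℂ))) *
      ((∑ α : Fin k → Fin (L + 1), (f α : ℝ) * GS (fun j => (α j : ℕ)) S (Lg z) : ℝ) : ℂ)‖ :=
        norm_sum_le _ _
    _ ≤ ∑ _S : Finset (Fin k), Real.exp (k * A) * ε := by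
        refine Finset.sum_le_sum fun S _ => ?_
        rw [norm_mul, Complex.norm_real, Real.norm_eq_abs]
        exact mul_le_mul (hprod S) (hε S) (abs_nonneg _) (Real.exp_pos _).le
    _ = 2 ^ k * Real.exp (k * A) * ε := by
        rw [Finset.sum_const, Finset.card_univ, Fintype.card_finset, Fintype.card_fin, nsmul_eq_mul]
        push_cast
        ring

end Pool.Agent.ZL2
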