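import Pool.Agent.ZL2.BPdef

namespace Pool.Agent.ZL2

open Finset

/-- Row ZL2-BP2. Closure properties of the class `EP`; index types: `α ⊕ β` for the sum, `α × β` for the product,
`Unit` for a single exponential. -/
theorem EP.add {ι : Type} [Fintype ι] {C C' Λ : ℝ} {g g' : (ι → ℝ) → ℝ} (h : EP C Λ g) (h' : EP C' Λ g') :
    EP (C + C') Λ (fun w => g w + g' w) := by
  obtain ⟨α, hα, c, l, h1, h2, h3⟩ := h
  obtain ⟨β, hβ, c', l', h1', h2', h3'⟩ := h'
  refine ⟨α ⊕ β, inferInstance, Sum.elim c c', Sum.elim l l', fun w => ?_, ?_, ?_⟩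
  · change g w + g' w = _
    rw [Fintype.sum_sum_type, h1 w, h1' w]
    rfl
  · rw [Fintype.sum_sum_type]
    simp only [Sum.elim_inl, Sum.elim_inr]
    linarith
  · rintro (a | a)
    · exact h3 a
    · exact h3' a

theorem EP.mul {ι : Type} [Fintype ι] {C C' Λ Λ' : ℝ} {g g' : (ι → ℝ) → ℝ} (h : EP C Λ g)
    (h' : EP C' Λ' g') : EP (C * C') (Λ + Λ') (fun w => g w * g' w) := by
  obtain ⟨α, hα, c, l, h1, h2, h3⟩ := h
  obtain ⟨β, hβ, c', l', h1', h2', h3'⟩ := h'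
  refine ⟨α × β, inferInstance, fun x => c x.1 * c' x.2, fun x i => l x.1 i + l' x.2 i,
    fun w => ?_, ?_, ?_⟩
  · change g w * g' w = _
    rw [h1 w, h1' w, Finset.sum_mul_sum, Fintype.sum_prod_type]
    refine Finset.sum_congr rfl fun a _ => Finset.sum_congr rfl fun b _ => ?_
    have h4 : ∑ i, (l a i + l' b i) * w i = ∑ i, l a i * w i + ∑ i, l' b i * w i := by
      rw [← Finset.sum_add_distrib]
      exact Finset.sum_congr rfl fun i _ => by ring
    change _ = c a * c' b * Real.exp (∑ i, (l a i + l' b i) * w i)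
    rw [h4, Real.exp_add]
    ring
  · have h4 : ∑ x : α × β, |c x.1 * c' x.2| = (∑ a, |c a|) * ∑ b, |c' b| := by
      rw [Finset.sum_mul_sum, Fintype.sum_prod_type]
      exact Finset.sum_congr rfl fun a _ => Finset.sum_congr rfl fun b _ => abs_mul _ _
    rw [h4]
    have h5 : 0 ≤ ∑ a, |c a| := Finset.sum_nonneg fun a _ => abs_nonneg _
    have h6 : 0 ≤ ∑ b, |c' b| := Finset.sum_nonneg fun a _ => abs_nonneg _
    exact mul_le_mul h2 h2' h6 (h5.trans h2)
  · intro x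
    calc ∑ i, |l x.1 i + l' x.2 i| ≤ ∑ i, (|l x.1 i| + |l' x.2 i|) :=
          Finset.sum_le_sum fun i _ => abs_add_le _ _
      _ = ∑ i, |l x.1 i| + ∑ i, |l' x.2 i| := Finset.sum_add_distrib
      _ ≤ Λ + Λ' := add_le_add (h3 _) (h3' _)

theorem EP.mono {ι : Type} [Fintype ι] {C C' Λ Λ' : ℝ} {g : (ι → ℝ) → ℝ} (h : EP C Λ g) (hC : C ≤ C')
    (hΛ : Λ ≤ Λ') : EP C' Λ' g := by
  obtain ⟨α, hα, c, l, h1, h2, h3⟩ := h
  exact ⟨α, hα, c, l, h1, h2.trans hC, fun a => (h3 a).trans hΛ⟩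

theorem EP.const_mul {ι : Type} [Fintype ι] {C Λ : ℝ} {g : (ι → ℝ) → ℝ} (h : EP C Λ g) (c : ℝ) :
    EP (|c| * C) Λ (fun w => c * g w) := by
  obtain ⟨α, hα, c', l, h1, h2, h3⟩ := h
  refine ⟨α, hα, fun a => c * c' a, l, fun w => ?_, ?_, h3⟩
  · change c * g w = _
    rw [h1 w, Finset.mul_sum]
    exact Finset.sum_congr rfl fun a _ => by ring
  · have h4 : ∑ a, |c * c' a| = |c| * ∑ a, |c' a| := by
      rw [Finset.mul_sum]
      exact Finset.sum_congr rfl fun a _ => abs_mul _ _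
    rw [h4]
    exact mul_le_mul_of_nonneg_left h2 (abs_nonneg _)

theorem EP.one {ι : Type} [Fintype ι] : EP 1 0 (fun _ : ι → ℝ => (1 : ℝ)) := by
  refine ⟨Unit, inferInstance, fun _ => 1, fun _ _ => 0, fun w => ?_, ?_, fun _ => ?_⟩
  · simp
  · simp
  · simp

theorem EP.exp {ι : Type} [Fintype ι] [DecidableEq ι] (i : ι) :
    EP 1 2 (fun w : ι → ℝ => Real.exp (2 * w i)) := by
  refine ⟨Unit, inferInstance, fun _ => 1, fun _ j => if j = i then 2 else 0, fun w => ?_, ?_,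
    fun _ => ?_⟩
  · simp
  · simp
  · have h1 : ∀ j : ι, |(if j = i then (2 : ℝ) else 0)| = if j = i then 2 else 0 := by
      intro j
      split_ifs
      · norm_num
      · norm_num
    rw [Finset.sum_congr rfl fun j _ => h1 j]
    simp

theorem EP.prod {ι κ : Type} [Fintype ι] (s : Finset κ) {C Λ : κ → ℝ} {g : κ → (ι → ℝ) → ℝ}
    (h : ∀ j ∈ s, EP (C j) (Λ j) (g j)) :
    EP (∏ j ∈ s, C j) (∑ j ∈ s, Λ j) (fun w => ∏ j ∈ s, g j w) := by
  classical
  induction s using Finset.induction_on with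
  | empty => simpa using EP.one
  | insert a s ha ih =>
    simp only [Finset.prod_insert ha, Finset.sum_insert ha]
    exact (h a (Finset.mem_insert_self a s)).mul
      (ih fun j hj => h j (Finset.mem_insert_of_mem hj))

theorem EP_Rf {ι : Type} [Fintype ι] [DecidableEq ι] (i j : ι) :
    EP (3 / 2) 2 (fun w : ι → ℝ => Rf (w i) (w j)) := by
  have h1 : EP (|1 / 2| * 1) 2 (fun _ : ι → ℝ => (1 / 2 : ℝ) * 1) :=
    (EP.one.const_mul (1 / 2)).mono le_rfl (by norm_num)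
  have h2 : EP (|1 / 2| * 1) 2 (fun w : ι → ℝ => (1 / 2 : ℝ) * Real.exp (2 * w i)) :=
    (EP.exp i).const_mul (1 / 2)
  have h3 : EP (|(-(1 / 2))| * 1) 2 (fun w : ι → ℝ => (-(1 / 2) : ℝ) * Real.exp (2 * w j)) :=
    (EP.exp j).const_mul (-(1 / 2))
  have h4 := (h1.add h2).add h3
  have h5 : (fun w : ι → ℝ => Rf (w i) (w j)) = fun w : ι → ℝ =>
      (1 / 2 : ℝ) * 1 + (1 / 2 : ℝ) * Real.exp (2 * w i) + (-(1 / 2) : ℝ) * Real.exp (2 * w j) := by
    funext w
    unfold Rf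
    ring
  rw [h5]
  refine h4.mono ?_ le_rfl
  rw [abs_neg, abs_of_pos (by norm_num : (0 : ℝ) < 1 / 2)]
  norm_num

theorem EP_step {ι : Type} [Fintype ι] [DecidableEq ι] (i j : ι) (n : ℕ)
    {g g' : (ι → ℝ) → ℝ} (h : EP (4 ^ (n + 1)) (2 * ((n + 1 : ℕ) : ℝ)) g)
    (h' : EP (4 ^ n) (2 * (n : ℝ)) g') :
    EP (4 ^ (n + 2)) (2 * ((n + 2 : ℕ) : ℝ))
      (fun w : ι → ℝ => 2 * Rf (w i) (w j) * g w - Real.exp (2 * w i) * g' w) := by
  have h1 := ((EP_Rf i j).const_mul 2).mul h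
  have h2 := ((EP.exp i).mul h').const_mul (-1)
  have e1 : (0 : ℝ) < 4 ^ n := by positivity
  have h3 := (h1.mono (C' := 3 * 4 ^ (n + 1)) (Λ' := 2 * ((n + 2 : ℕ) : ℝ)) (by
    rw [abs_of_pos (by norm_num : (0 : ℝ) < 2)]
    apply le_of_eq
    ring) (by push_cast; linarith)).add (h2.mono (C' := 4 ^ n) (Λ' := 2 * ((n + 2 : ℕ) : ℝ)) (by
    rw [abs_neg, abs_one]
    apply le_of_eq
    ring) (by push_cast; linarith))
  have h4 : (fun w : ι → ℝ => 2 * Rf (w i) (w j) * g w - Real.exp (2 * w i) * g' w) =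
      fun w => 2 * Rf (w i) (w j) * g w + -1 * (Real.exp (2 * w i) * g' w) := by
    funext w
    ring
  rw [h4]
  refine h3.mono ?_ le_rfl
  have e2 : (4 : ℝ) ^ (n + 1) = 4 * 4 ^ n := by ring
  have e3 : (4 : ℝ) ^ (n + 2) = 16 * 4 ^ n := by ring
  rw [e2, e3]
  linarith

/-- `U_n` and `V_n` are exponential sums with mass `≤ 4^n` and frequencies `≤ 2n`
(induction: `Rf` has mass `≤ 3/2`, frequency `≤ 2`; `2 * (3/2) * 4^(n+1) + 4^n ≤ 4^(n+2)`). -/
theorem EP_U {ι : Type} [Fintype ι] [DecidableEq ι] (i j : ι) (n : ℕ) :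
    EP (4 ^ n) (2 * n) (fun w : ι → ℝ => Uf n (w i) (w j)) := by
  have key : ∀ m : ℕ, EP (4 ^ m) (2 * (m : ℝ)) (fun w : ι → ℝ => Uf m (w i) (w j)) ∧
      EP (4 ^ (m + 1)) (2 * ((m + 1 : ℕ) : ℝ)) (fun w : ι → ℝ => Uf (m + 1) (w i) (w j)) := by
    intro m
    induction m with
    | zero =>
      refine ⟨?_, ?_⟩
      · have h1 : (fun w : ι → ℝ => Uf 0 (w i) (w j)) = fun _ => 1 := by
          funext w
          unfold Uf
          rfl
        rw [h1]
        exact EP.one.mono (by norm_num) (by norm_num)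
      · have h1 : (fun w : ι → ℝ => Uf (0 + 1) (w i) (w j)) = fun w => Rf (w i) (w j) := by
          funext w
          unfold Uf
          rfl
        rw [h1]
        exact (EP_Rf i j).mono (by norm_num) (by norm_num)
    | succ m ih =>
      refine ⟨ih.2, ?_⟩
      have h1 : (fun w : ι → ℝ => Uf (m + 1 + 1) (w i) (w j)) = fun w =>
          2 * Rf (w i) (w j) * Uf (m + 1) (w i) (w j) - Real.exp (2 * w i) * Uf m (w i) (w j) := by
        funext w
        conv_lhs => unfold Uf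
      rw [h1]
      exact EP_step i j m ih.2 ih.1
  exact (key n).1

theorem EP_V {ι : Type} [Fintype ι] [DecidableEq ι] (i j : ι) (n : ℕ) :
    EP (4 ^ n) (2 * n) (fun w : ι → ℝ => Vf n (w i) (w j)) := by
  have key : ∀ m : ℕ, EP (4 ^ m) (2 * (m : ℝ)) (fun w : ι → ℝ => Vf m (w i) (w j)) ∧
      EP (4 ^ (m + 1)) (2 * ((m + 1 : ℕ) : ℝ)) (fun w : ι → ℝ => Vf (m + 1) (w i) (w j)) := by
    intro m
    induction m with
    | zero =>
      refine ⟨?_, ?_⟩
      · have h1 : (fun w : ι → ℝ => Vf 0 (w i) (w j)) = fun _ => 0 * 1 := by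
          funext w
          unfold Vf
          rw [zero_mul]
        rw [h1]
        exact (EP.one.const_mul 0).mono (by norm_num) (by norm_num)
      · have h1 : (fun w : ι → ℝ => Vf (0 + 1) (w i) (w j)) = fun _ => 1 := by
          funext w
          unfold Vf
          rfl
        rw [h1]
        exact EP.one.mono (by norm_num) (by norm_num)
    | succ m ih =>
      refine ⟨ih.2, ?_⟩
      have h1 : (fun w : ι → ℝ => Vf (m + 1 + 1) (w i) (w j)) = fun w =>
          2 * Rf (w i) (w j) * Vf (m + 1) (w i) (w j) - Real.exp (2 * w i) * Vf m (w i) (w j) := by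
        funext w
        conv_lhs => unfold Vf
      rw [h1]
      exact EP_step i j m ih.2 ih.1
  exact (key n).1

/-- Hence `G_{α,S}` has mass `≤ 4^(kL)` and frequencies `≤ 2kL` if all `α_j ≤ L`. -/
theorem EP_GS {k L : ℕ} (a : Fin k → ℕ) (ha : ∀ j, a j ≤ L) (S : Finset (Fin k)) :
    EP (4 ^ (k * L)) (2 * (k * L : ℕ)) (GS a S) := by
  have h1 := EP.prod (ι := Fin k × Fin 2) (Finset.univ : Finset (Fin k))
    (C := fun j => (4 : ℝ) ^ (a j)) (Λ := fun j => 2 * (a j : ℝ))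
    (g := fun j w => if j ∈ S then Vf (a j) (w (j, 0)) (w (j, 1)) else
      Uf (a j) (w (j, 0)) (w (j, 1))) (fun j _ => by
        by_cases hj : j ∈ S
        · simp only [if_pos hj]
          exact EP_V (j, 0) (j, 1) (a j)
        · simp only [if_neg hj]
          exact EP_U (j, 0) (j, 1) (a j))
  have h2 : ∑ j, a j ≤ k * L := by
    calc ∑ j, a j ≤ ∑ _j : Fin k, L := Finset.sum_le_sum fun j _ => ha j
      _ = k * L := by rw [Finset.sum_const, Finset.card_univ, Fintype.card_fin, smul_eq_mul]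
  refine EP.mono h1 ?_ ?_
  · rw [Finset.prod_pow_eq_pow_sum]
    exact pow_le_pow_right₀ (by norm_num) h2
  · rw [← Finset.mul_sum, ← Nat.cast_sum]
    have h3 : ((∑ j, a j : ℕ) : ℝ) ≤ ((k * L : ℕ) : ℝ) := by exact_mod_cast h2
    linarith

end Pool.Agent.ZL2
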