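import Pool.Agent.ZL2.BPdef

namespace Pool.Agent.ZL2

open Finset

theorem BP3.hasSum (x : ℝ) : HasSum (fun n : ℕ => x ^ n / n.factorial) (Real.exp x) := by
  have h := NormedSpace.expSeries_div_hasSum_exp x
  rwa [← Real.exp_eq_exp_ℝ] at h

/-- The tail of the exponential series: `|e^x - ∑_{n<m} x^n/n!| ≤ |x|^m/m! e^{|x|}`
(the tail is `∑_{n ≥ m} x^n/n!` and `n! ≥ m! (n-m)!`). -/
theorem exp_tail (x : ℝ) (m : ℕ) :
    |Real.exp x - ∑ n ∈ range m, x ^ n / n.factorial| ≤ |x| ^ m / m.factorial * Real.exp |x| := by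
  have h1 := BP3.hasSum x
  have h2 : HasSum (fun n : ℕ => x ^ (n + m) / (n + m).factorial)
      (Real.exp x - ∑ n ∈ range m, x ^ n / n.factorial) := (hasSum_nat_add_iff' m).2 h1
  have h3 : HasSum (fun n : ℕ => |x| ^ m / m.factorial * (|x| ^ n / n.factorial))
      (|x| ^ m / m.factorial * Real.exp |x|) := (BP3.hasSum |x|).mul_left _
  have h4 : ∀ n : ℕ, ‖x ^ (n + m) / (n + m).factorial‖ ≤
      |x| ^ m / m.factorial * (|x| ^ n / n.factorial) := by
    intro n
    rw [Real.norm_eq_abs, abs_div, abs_pow, Nat.abs_cast]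
    have h5 : (m.factorial : ℝ) * n.factorial ≤ (n + m).factorial := by
      have h6 : m.factorial * n.factorial ≤ (n + m).factorial := by
        rw [mul_comm]
        exact Nat.le_of_dvd (Nat.factorial_pos _) (Nat.factorial_mul_factorial_dvd_factorial_add n m)
      exact_mod_cast h6
    have h7 : |x| ^ m / m.factorial * (|x| ^ n / n.factorial) =
        |x| ^ (n + m) / ((m.factorial : ℝ) * n.factorial) := by
      rw [div_mul_div_comm, pow_add]
      ring
    rw [h7]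
    apply div_le_div_of_nonneg_left (by positivity) _ h5
    have h8 := Nat.factorial_pos m
    have h9 := Nat.factorial_pos n
    positivity
  have h5 := tsum_of_norm_bounded h3 h4
  rw [h2.tsum_eq, Real.norm_eq_abs] at h5
  exact h5

theorem BP3.prod_sub {r : ℕ} {x y : Fin r → ℝ} {M ε : ℝ} (hM : 0 ≤ M) (_hε : 0 ≤ ε)
    (hx : ∀ j, |x j| ≤ M) (hy : ∀ j, |y j| ≤ M) (hxy : ∀ j, |x j - y j| ≤ ε * M)
    (s : Finset (Fin r)) : |∏ j ∈ s, x j - ∏ j ∈ s, y j| ≤ s.card * ε * M ^ s.card := by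
  classical
  induction s using Finset.induction_on with
  | empty => simp
  | insert a s ha ih =>
    rw [Finset.prod_insert ha, Finset.prod_insert ha, Finset.card_insert_of_notMem ha]
    have e : x a * ∏ j ∈ s, x j - y a * ∏ j ∈ s, y j =
        (x a - y a) * ∏ j ∈ s, x j + y a * (∏ j ∈ s, x j - ∏ j ∈ s, y j) := by ring
    have h1 : |∏ j ∈ s, x j| ≤ M ^ s.card := by
      rw [Finset.abs_prod]
      refine (Finset.prod_le_prod (fun j _ => abs_nonneg _) (fun j _ => hx j)).trans (le_of_eq ?_)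
      rw [Finset.prod_const]
    rw [e]
    refine (abs_add_le _ _).trans ?_
    rw [abs_mul, abs_mul]
    have h2 : |x a - y a| * |∏ j ∈ s, x j| ≤ ε * M * M ^ s.card :=
      mul_le_mul (hxy a) h1 (abs_nonneg _) ((abs_nonneg _).trans (hxy a))
    have h3 : |y a| * |∏ j ∈ s, x j - ∏ j ∈ s, y j| ≤ M * (s.card * ε * M ^ s.card) :=
      mul_le_mul (hy a) ih (abs_nonneg _) hM
    push_cast
    rw [pow_succ]
    linarith

theorem BP3.one {X : ℝ} {t : ℝ} (ht : |t| ≤ X) (m : ℕ) :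
    |Real.exp t| ≤ Real.exp X ∧ |∑ n : Fin m, t ^ (n : ℕ) / (n : ℕ).factorial| ≤ Real.exp X ∧
      |Real.exp t - ∑ n : Fin m, t ^ (n : ℕ) / (n : ℕ).factorial| ≤
        X ^ m / m.factorial * Real.exp X := by
  have hX : 0 ≤ X := (abs_nonneg t).trans ht
  refine ⟨?_, ?_, ?_⟩
  · rw [abs_of_pos (Real.exp_pos t)]
    exact Real.exp_le_exp.2 ((le_abs_self t).trans ht)
  · refine (Finset.abs_sum_le_sum_abs _ _).trans ?_
    have h1 : ∀ n : Fin m, |t ^ (n : ℕ) / (n : ℕ).factorial| ≤ X ^ (n : ℕ) / (n : ℕ).factorial := by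
      intro n
      rw [abs_div, abs_pow, Nat.abs_cast]
      exact div_le_div_of_nonneg_right (pow_le_pow_left₀ (abs_nonneg t) ht _) (Nat.cast_nonneg _)
    refine (Finset.sum_le_sum fun n _ => h1 n).trans ?_
    rw [Fin.sum_univ_eq_sum_range (fun n => X ^ n / (n.factorial : ℝ)) m]
    exact Real.sum_le_exp_of_nonneg hX m
  · rw [Fin.sum_univ_eq_sum_range (fun n => t ^ n / (n.factorial : ℝ)) m]
    refine (exp_tail t m).trans ?_
    have h1 : |t| ^ m / m.factorial ≤ X ^ m / m.factorial :=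
      div_le_div_of_nonneg_right (pow_le_pow_left₀ (abs_nonneg t) ht _) (Nat.cast_nonneg _)
    exact mul_le_mul h1 (Real.exp_le_exp.2 ht) (Real.exp_pos _).le (by positivity)

theorem BP3.dot {ι : Type} [Fintype ι] {Λ A : ℝ} (hA : 0 ≤ A) (l w : ι → ℝ) (hl : ∑ i, |l i| ≤ Λ)
    (hw : ∀ i, |w i| ≤ A) : |∑ i, l i * w i| ≤ Λ * A := by
  refine (Finset.abs_sum_le_sum_abs _ _).trans ?_
  refine (Finset.sum_le_sum (fun i _ => ?_) : _ ≤ ∑ i, |l i| * A).trans ?_
  · rw [abs_mul]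
    exact mul_le_mul_of_nonneg_left (hw i) (abs_nonneg _)
  · rw [← Finset.sum_mul]
    exact mul_le_mul_of_nonneg_right hl hA

/-- Row ZL2-BP3. Taylor approximation of an exponential sum on an affine subspace. For one exponential:
`exp(λ·(c + ∑_j τ_j b_j)) = exp(λ·c) ∏_j exp(μ_j τ_j)`, `μ_j = λ·b_j`, `|μ_j| ≤ Λ`, `|λ·c| ≤ Λ C0`; replace every factor
`exp(μ_j τ_j)` by its Taylor polynomial of degree `< m` (error `≤ X^m/m! e^X`, `X = Λ T`; telescoping gives the factor `r` and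
`e^{rX}`); the coefficient of `τ^β` is `exp(λ·c) ∏_j μ_j^{β_j}/β_j!`, of absolute value `≤ e^{Λ C0} ∏_j e^{|μ_j|} ≤ e^{Λ(C0+r)}`.
Then sum over the exponentials (mass `C`). -/
theorem EP.taylor {ι : Type} [Fintype ι] {C Λ C0 T : ℝ} {g : (ι → ℝ) → ℝ} (h : EP C Λ g) (hΛ : 0 ≤ Λ)
    (hC0 : 0 ≤ C0) (hT : 0 ≤ T) {r : ℕ} (m : ℕ) (c : ι → ℝ) (hc : ∀ i, |c i| ≤ C0)
    (b : Fin r → ι → ℝ) (hb : ∀ j i, |b j i| ≤ 1) :
    ∃ cf : (Fin r → Fin m) → ℝ, (∀ β, |cf β| ≤ C * Real.exp (Λ * (C0 + r))) ∧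
      ∀ τ : Fin r → ℝ, (∀ j, |τ j| ≤ T) →
        |g (fun i => c i + ∑ j, τ j * b j i) - ∑ β : Fin r → Fin m, cf β * ∏ j, τ j ^ (β j : ℕ)| ≤
          C * Real.exp (Λ * C0) * (r * ((Λ * T) ^ m / m.factorial) * Real.exp (r * (Λ * T))) := by
  classical
  obtain ⟨α, hα, c0, l, hg, hC, hl⟩ := h
  set μ : α → Fin r → ℝ := fun a j => ∑ i, l a i * b j i with hμ
  set e : α → ℝ := fun a => Real.exp (∑ i, l a i * c i) with he
  have hμb : ∀ a j, |μ a j| ≤ Λ := fun a j => by
    have := BP3.dot zero_le_one (l a) (b j) (hl a) (hb j)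
    rwa [mul_one] at this
  have heb : ∀ a, |e a| ≤ Real.exp (Λ * C0) := fun a => by
    rw [he, abs_of_pos (Real.exp_pos _)]
    exact Real.exp_le_exp.2 ((le_abs_self _).trans (BP3.dot hC0 (l a) c (hl a) hc))
  refine ⟨fun β => ∑ a, c0 a * (e a * ∏ j, (μ a j ^ (β j : ℕ) / (β j : ℕ).factorial)), ?_, ?_⟩
  · intro β
    refine (Finset.abs_sum_le_sum_abs _ _).trans ?_
    have h1 : ∀ a ∈ (Finset.univ : Finset α),
        |c0 a * (e a * ∏ j, (μ a j ^ (β j : ℕ) / (β j : ℕ).factorial))| ≤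
        |c0 a| * Real.exp (Λ * (C0 + r)) := by
      intro a _
      rw [abs_mul, abs_mul, Finset.abs_prod]
      refine mul_le_mul_of_nonneg_left ?_ (abs_nonneg _)
      have h2 : ∏ j, |μ a j ^ (β j : ℕ) / (β j : ℕ).factorial| ≤ Real.exp (Λ * r) := by
        have h3 : ∀ j ∈ (Finset.univ : Finset (Fin r)),
            |μ a j ^ (β j : ℕ) / (β j : ℕ).factorial| ≤ Real.exp Λ := by
          intro j _
          rw [abs_div, abs_pow, Nat.abs_cast]
          refine (Real.pow_div_factorial_le_exp _ (abs_nonneg _) _).trans ?_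
          exact Real.exp_le_exp.2 (hμb a j)
        refine (Finset.prod_le_prod (fun j _ => abs_nonneg _) h3).trans (le_of_eq ?_)
        rw [Finset.prod_const, Finset.card_univ, Fintype.card_fin, ← Real.exp_nat_mul, mul_comm]
      calc |e a| * ∏ j, |μ a j ^ (β j : ℕ) / (β j : ℕ).factorial|
          ≤ Real.exp (Λ * C0) * Real.exp (Λ * r) :=
            mul_le_mul (heb a) h2 (Finset.prod_nonneg fun j _ => abs_nonneg _) (Real.exp_pos _).le
        _ = Real.exp (Λ * (C0 + r)) := by rw [← Real.exp_add, mul_add]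
    refine (Finset.sum_le_sum h1).trans ?_
    rw [← Finset.sum_mul]
    exact mul_le_mul_of_nonneg_right hC (Real.exp_pos _).le
  · intro τ hτ
    have hX : ∀ a j, |μ a j * τ j| ≤ Λ * T := by
      intro a j
      rw [abs_mul]
      exact mul_le_mul (hμb a j) (hτ j) (abs_nonneg _) hΛ
    have e1 : g (fun i => c i + ∑ j, τ j * b j i) =
        ∑ a, c0 a * (e a * ∏ j, Real.exp (μ a j * τ j)) := by
      rw [hg]
      refine Finset.sum_congr rfl fun a _ => ?_
      rw [he, ← Real.exp_sum, ← Real.exp_add]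
      congr 2
      have e2 : ∑ i, l a i * (c i + ∑ j, τ j * b j i) =
          ∑ i, l a i * c i + ∑ i, ∑ j, l a i * (τ j * b j i) := by
        rw [← Finset.sum_add_distrib]
        refine Finset.sum_congr rfl fun i _ => ?_
        rw [mul_add, Finset.mul_sum]
      rw [e2, Finset.sum_comm]
      congr 1
      refine Finset.sum_congr rfl fun j _ => ?_
      rw [hμ, Finset.sum_mul]
      refine Finset.sum_congr rfl fun i _ => ?_
      ring
    have e3 : ∑ β : Fin r → Fin m,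
        (∑ a, c0 a * (e a * ∏ j, (μ a j ^ (β j : ℕ) / (β j : ℕ).factorial))) *
          ∏ j, τ j ^ (β j : ℕ) =
        ∑ a, c0 a * (e a * ∏ j, ∑ n : Fin m, (μ a j * τ j) ^ (n : ℕ) / (n : ℕ).factorial) := by
      have e4 : ∀ β : Fin r → Fin m,
          (∑ a, c0 a * (e a * ∏ j, (μ a j ^ (β j : ℕ) / (β j : ℕ).factorial))) *
          ∏ j, τ j ^ (β j : ℕ) =
          ∑ a, c0 a * (e a * ∏ j, ((μ a j * τ j) ^ (β j : ℕ) / (β j : ℕ).factorial)) := by
        intro β
        rw [Finset.sum_mul]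
        refine Finset.sum_congr rfl fun a _ => ?_
        rw [mul_assoc, mul_assoc, ← Finset.prod_mul_distrib]
        congr 2
        refine Finset.prod_congr rfl fun j _ => ?_
        rw [mul_pow]
        ring
      rw [Finset.sum_congr rfl fun β _ => e4 β, Finset.sum_comm]
      refine Finset.sum_congr rfl fun a _ => ?_
      rw [← Finset.mul_sum, ← Finset.mul_sum]
      congr 2
      have h5 := Finset.prod_univ_sum (fun _ : Fin r => (Finset.univ : Finset (Fin m)))
        (fun j n => (μ a j * τ j) ^ (n : ℕ) / ((n : ℕ).factorial : ℝ))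
      rw [h5, Fintype.piFinset_univ]
    rw [e1, e3, ← Finset.sum_sub_distrib]
    refine (Finset.abs_sum_le_sum_abs _ _).trans ?_
    have hXn : 0 ≤ Λ * T := mul_nonneg hΛ hT
    have h6 : ∀ a ∈ (Finset.univ : Finset α),
        |c0 a * (e a * ∏ j, Real.exp (μ a j * τ j)) -
          c0 a * (e a * ∏ j, ∑ n : Fin m, (μ a j * τ j) ^ (n : ℕ) / (n : ℕ).factorial)| ≤
        |c0 a| * (Real.exp (Λ * C0) *
          (r * ((Λ * T) ^ m / m.factorial) * Real.exp (r * (Λ * T)))) := by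
      intro a _
      rw [← mul_sub, ← mul_sub, abs_mul, abs_mul]
      refine mul_le_mul_of_nonneg_left ?_ (abs_nonneg _)
      refine mul_le_mul (heb a) ?_ (abs_nonneg _) (Real.exp_pos _).le
      have h7 := BP3.prod_sub (M := Real.exp (Λ * T)) (ε := (Λ * T) ^ m / m.factorial)
        (Real.exp_pos _).le (by positivity) (fun j => (BP3.one (hX a j) m).1)
        (fun j => (BP3.one (hX a j) m).2.1) (fun j => (BP3.one (hX a j) m).2.2) Finset.univ
      rw [Finset.card_univ, Fintype.card_fin, ← Real.exp_nat_mul] at h7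
      exact h7
    refine (Finset.sum_le_sum h6).trans ?_
    rw [← Finset.sum_mul]
    refine (mul_le_mul_of_nonneg_right hC (by positivity)).trans (le_of_eq ?_)
    ring

/-- An exponential sum is Lipschitz on bounded sets: `|e^{λ·w} - e^{λ·w'}| ≤ |λ·(w-w')| e^{ΛA}` if `|λ·w|, |λ·w'| ≤ Λ A`. -/
theorem EP.lip {ι : Type} [Fintype ι] {C Λ A δ : ℝ} {g : (ι → ℝ) → ℝ} (h : EP C Λ g) (hΛ : 0 ≤ Λ)
    (hA : 0 ≤ A) (hδ : 0 ≤ δ) (w w' : ι → ℝ) (hw : ∀ i, |w i| ≤ A) (hw' : ∀ i, |w' i| ≤ A)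
    (hd : ∀ i, |w i - w' i| ≤ δ) : |g w - g w'| ≤ C * (Λ * δ) * Real.exp (Λ * A) := by
  have key : ∀ s t : ℝ, s ≤ t → Real.exp t - Real.exp s ≤ (t - s) * Real.exp t := by
    intro s t _
    have h1 := Real.add_one_le_exp (s - t)
    have h2 : Real.exp s = Real.exp t * Real.exp (s - t) := by
      rw [← Real.exp_add]
      congr 1
      ring
    rw [h2]
    have h3 := mul_le_mul_of_nonneg_left h1 (Real.exp_pos t).le
    linarith
  have key2 : ∀ s t B : ℝ, |s| ≤ B → |t| ≤ B →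
      |Real.exp s - Real.exp t| ≤ |s - t| * Real.exp B := by
    intro s t B hs ht
    rcases le_total s t with hst | hst
    · rw [abs_sub_comm (Real.exp s), abs_sub_comm s t,
        abs_of_nonneg (sub_nonneg.2 (Real.exp_le_exp.2 hst)), abs_of_nonneg (sub_nonneg.2 hst)]
      refine (key s t hst).trans (mul_le_mul_of_nonneg_left ?_ (sub_nonneg.2 hst))
      exact Real.exp_le_exp.2 ((le_abs_self t).trans ht)
    · rw [abs_of_nonneg (sub_nonneg.2 (Real.exp_le_exp.2 hst)), abs_of_nonneg (sub_nonneg.2 hst)]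
      refine (key t s hst).trans (mul_le_mul_of_nonneg_left ?_ (sub_nonneg.2 hst))
      exact Real.exp_le_exp.2 ((le_abs_self s).trans hs)
  obtain ⟨α, hα, c0, l, hg, hC, hl⟩ := h
  rw [hg, hg, ← Finset.sum_sub_distrib]
  refine (Finset.abs_sum_le_sum_abs _ _).trans ?_
  have h1 : ∀ a ∈ (Finset.univ : Finset α),
      |c0 a * Real.exp (∑ i, l a i * w i) - c0 a * Real.exp (∑ i, l a i * w' i)| ≤
      |c0 a| * (Λ * δ * Real.exp (Λ * A)) := by
    intro a _
    rw [← mul_sub, abs_mul]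
    refine mul_le_mul_of_nonneg_left ?_ (abs_nonneg _)
    refine (key2 _ _ (Λ * A) (BP3.dot hA (l a) w (hl a) hw)
      (BP3.dot hA (l a) w' (hl a) hw')).trans ?_
    refine mul_le_mul_of_nonneg_right ?_ (Real.exp_pos _).le
    have h2 := BP3.dot hδ (l a) (fun i => w i - w' i) (hl a) hd
    have h3 : ∑ i, l a i * (w i - w' i) = ∑ i, l a i * w i - ∑ i, l a i * w' i := by
      rw [← Finset.sum_sub_distrib]
      exact Finset.sum_congr rfl fun i _ => mul_sub _ _ _
    rwa [h3] at h2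
  refine (Finset.sum_le_sum h1).trans ?_
  rw [← Finset.sum_mul]
  refine (mul_le_mul_of_nonneg_right hC
    (mul_nonneg (mul_nonneg hΛ hδ) (Real.exp_pos _).le)).trans (le_of_eq ?_)
  ring

end Pool.Agent.ZL2
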