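import Mathlib

namespace Pool.Agent.ZL2

open Finset

/-- Row ZL2-BP4. Pigeonhole (Siegel's lemma for real matrices). The `(B+1)^|A|` vectors `f : A → {0..B}` are mapped to
`(⌊(∑_a f_a c_{a,j}) / η⌋)_j`, integers in an interval of length `2 B |A| S / η`, so at most `(2 B |A| S/η + 2)^|J|` images; two
different vectors have the same image, take the difference. -/
theorem pigeon {A J : Type} [Fintype A] [Fintype J] (B : ℕ) (c : A → J → ℝ) (S η : ℝ) (hη : 0 < η)
    (hS : 0 ≤ S) (hc : ∀ a j, |c a j| ≤ S)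
    (hcount : (2 * B * (Fintype.card A : ℝ) * S / η + 2) ^ Fintype.card J < ((B : ℝ) + 1) ^ Fintype.card A) :
    ∃ f : A → ℤ, f ≠ 0 ∧ (∀ a, |f a| ≤ B) ∧ ∀ j, |∑ a, (f a : ℝ) * c a j| ≤ η := by
  classical
  have hX : ∀ (f : A → Fin (B + 1)) (j : J),
      |∑ a, ((f a : ℕ) : ℝ) * c a j| ≤ B * (Fintype.card A : ℝ) * S := by
    intro f j
    calc |∑ a, ((f a : ℕ) : ℝ) * c a j| ≤ ∑ a, |((f a : ℕ) : ℝ) * c a j| :=
          Finset.abs_sum_le_sum_abs _ _
      _ ≤ ∑ _a : A, (B : ℝ) * S := by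
          refine Finset.sum_le_sum fun a _ => ?_
          rw [abs_mul, Nat.abs_cast]
          have h1 : ((f a : ℕ) : ℝ) ≤ B := by
            exact_mod_cast Nat.lt_succ_iff.1 (f a).2
          exact mul_le_mul h1 (hc a j) (abs_nonneg _) (Nat.cast_nonneg _)
      _ = _ := by
          rw [Finset.sum_const, Finset.card_univ, nsmul_eq_mul]
          ring
  have hM0 : 0 ≤ B * (Fintype.card A : ℝ) * S := by positivity
  have hM1 : 0 ≤ B * (Fintype.card A : ℝ) * S / η := div_nonneg hM0 hη.le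
  have hcard : (((Finset.Icc ⌊-(B * (Fintype.card A : ℝ) * S / η)⌋
      ⌊B * (Fintype.card A : ℝ) * S / η⌋).card : ℕ) : ℝ) ≤
      2 * B * (Fintype.card A : ℝ) * S / η + 2 := by
    rw [Int.card_Icc]
    have h1 : ⌊-(B * (Fintype.card A : ℝ) * S / η)⌋ ≤ ⌊B * (Fintype.card A : ℝ) * S / η⌋ :=
      Int.floor_le_floor (by linarith)
    have h2 : (((⌊B * (Fintype.card A : ℝ) * S / η⌋ + 1 -
        ⌊-(B * (Fintype.card A : ℝ) * S / η)⌋).toNat : ℕ) : ℝ) =
        ((⌊B * (Fintype.card A : ℝ) * S / η⌋ + 1 -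
          ⌊-(B * (Fintype.card A : ℝ) * S / η)⌋ : ℤ) : ℝ) := by
      have h3 : (((⌊B * (Fintype.card A : ℝ) * S / η⌋ + 1 -
        ⌊-(B * (Fintype.card A : ℝ) * S / η)⌋).toNat : ℕ) : ℤ) =
        ⌊B * (Fintype.card A : ℝ) * S / η⌋ + 1 - ⌊-(B * (Fintype.card A : ℝ) * S / η)⌋ :=
        Int.toNat_of_nonneg (by omega)
      exact_mod_cast congrArg (fun z : ℤ => (z : ℝ)) h3
    rw [h2]
    push_cast
    have h4 := Int.floor_le (B * (Fintype.card A : ℝ) * S / η)
    have h5 := Int.sub_one_lt_floor (-(B * (Fintype.card A : ℝ) * S / η))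
    have h6 : 2 * B * (Fintype.card A : ℝ) * S / η = 2 * (B * (Fintype.card A : ℝ) * S / η) := by
      ring
    rw [h6]
    linarith
  have hlt : (Fintype.piFinset (fun _ : J => Finset.Icc ⌊-(B * (Fintype.card A : ℝ) * S / η)⌋
      ⌊B * (Fintype.card A : ℝ) * S / η⌋)).card < (Finset.univ : Finset (A → Fin (B + 1))).card := by
    rw [Fintype.card_piFinset, Finset.prod_const, Finset.card_univ, Finset.card_univ,
      Fintype.card_fun, Fintype.card_fin]
    have h1 := pow_le_pow_left₀ (Nat.cast_nonneg _) hcard (Fintype.card J)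
    have h2 := h1.trans_lt hcount
    exact_mod_cast h2
  obtain ⟨f, -, g, -, hfg, himg⟩ := Finset.exists_ne_map_eq_of_card_lt_of_maps_to hlt
    (f := fun (f : A → Fin (B + 1)) (j : J) => ⌊(∑ a, ((f a : ℕ) : ℝ) * c a j) / η⌋)
    (fun f _ => by
      refine Fintype.mem_piFinset.2 fun j => Finset.mem_Icc.2 ⟨?_, ?_⟩
      · refine Int.floor_le_floor ?_
        rw [← neg_div]
        exact div_le_div_of_nonneg_right (abs_le.1 (hX f j)).1 hη.le
      · refine Int.floor_le_floor ?_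
        exact div_le_div_of_nonneg_right (abs_le.1 (hX f j)).2 hη.le)
  refine ⟨fun a => ((f a : ℕ) : ℤ) - ((g a : ℕ) : ℤ), ?_, ?_, ?_⟩
  · intro h
    apply hfg
    funext a
    have h1 := congrFun h a
    simp only [Pi.zero_apply, sub_eq_zero, Nat.cast_inj] at h1
    exact Fin.ext h1
  · intro a
    have h1 := Nat.lt_succ_iff.1 (f a).2
    have h2 := Nat.lt_succ_iff.1 (g a).2
    rw [abs_le]
    constructor <;> push_cast <;> omega
  · intro j
    have h1 := congrFun himg j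
    have h2 := Int.abs_sub_lt_one_of_floor_eq_floor h1
    rw [← sub_div, abs_div, abs_of_pos hη, div_lt_one hη, ← Finset.sum_sub_distrib] at h2
    have h3 : ∑ a, (((((f a : ℕ) : ℤ) - ((g a : ℕ) : ℤ) : ℤ)) : ℝ) * c a j =
        ∑ a, (((f a : ℕ) : ℝ) * c a j - ((g a : ℕ) : ℝ) * c a j) := by
      refine Finset.sum_congr rfl fun a _ => ?_
      push_cast
      ring
    rw [h3]
    exact h2.le

end Pool.Agent.ZL2
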