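import Pool.Agent.ZL2.BP1
import Pool.Agent.ZL2.BP2
import Pool.Agent.ZL2.BP3
import Pool.Agent.ZL2.BP4

namespace Pool.Agent.ZL2

open Finset

theorem bp5_pow (a : ℝ) (ha : 0 < a) (n : ℕ) : a ^ n = Real.exp (n * Real.log a) := by
  rw [Real.exp_nat_mul, Real.exp_log ha]

theorem bp5_card (k L : ℕ) : ((L : ℝ) + 1) ^ k ≤ Real.exp (k * L * Real.log 2) := by
  have h1 : ((L : ℝ) + 1) ≤ 2 ^ L := by
    have h2 : L + 1 ≤ 2 ^ L := Nat.lt_two_pow_self
    exact_mod_cast h2
  calc ((L : ℝ) + 1) ^ k ≤ (2 ^ L) ^ k := pow_le_pow_left₀ (by positivity) h1 k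
    _ = 2 ^ (k * L) := by rw [← pow_mul, mul_comm]
    _ = Real.exp (k * L * Real.log 2) := by
        rw [bp5_pow 2 (by norm_num)]
        push_cast
        ring_nf

theorem bp5_fact {x : ℝ} (hx : 0 ≤ x) (m : ℕ) (h : x ≤ Real.exp (-2) * m) :
    x ^ m / m.factorial ≤ Real.exp (-m) := by
  have h1 : x ^ m ≤ (Real.exp (-2) * m) ^ m := pow_le_pow_left₀ hx h m
  have h2 : (m : ℝ) ^ m / m.factorial ≤ Real.exp m :=
    Real.pow_div_factorial_le_exp m (Nat.cast_nonneg m) m
  calc x ^ m / m.factorial ≤ (Real.exp (-2) * m) ^ m / m.factorial :=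
        div_le_div_of_nonneg_right h1 (by positivity)
    _ = Real.exp (-2) ^ m * ((m : ℝ) ^ m / m.factorial) := by rw [mul_pow]; ring
    _ ≤ Real.exp (-2) ^ m * Real.exp m := mul_le_mul_of_nonneg_left h2 (by positivity)
    _ = Real.exp (-m) := by
        rw [← Real.exp_nat_mul, ← Real.exp_add]
        ring_nf

theorem bp5_count (k r N lam L : ℕ) (hr : r < k) (hL : 1 ≤ L) (s : ℝ) (hs : 0 ≤ s)
    (hLs : (Real.log 4 + (1 + k) * Real.log 2 + s) * (2 ^ k * N * lam ^ r) ≤ Real.log 2 * L) :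
    (2 * 2 ^ L * ((L : ℝ) + 1) ^ k * Real.exp (L * s) + 2) ^ (2 ^ k * (N * (lam * L) ^ r)) <
      ((2 : ℝ) ^ L + 1) ^ ((L + 1) ^ k) := by
  have hL1 : (1 : ℝ) ≤ L := by exact_mod_cast hL
  have hl2 : 0 < Real.log 2 := Real.log_pos (by norm_num)
  have hl4 : 0 < Real.log 4 := Real.log_pos (by norm_num)
  have hk0 : (0 : ℝ) ≤ k := Nat.cast_nonneg k
  have hbase : 2 * 2 ^ L * ((L : ℝ) + 1) ^ k * Real.exp (L * s) + 2 ≤
      Real.exp (L * (Real.log 4 + (1 + k) * Real.log 2 + s)) := by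
    have h1 : (1 : ℝ) ≤ 2 ^ L * ((L : ℝ) + 1) ^ k * Real.exp (L * s) := by
      have a1 : (1 : ℝ) ≤ 2 ^ L := one_le_pow₀ (by norm_num)
      have a2 : (1 : ℝ) ≤ ((L : ℝ) + 1) ^ k := one_le_pow₀ (by linarith)
      have a3 : (1 : ℝ) ≤ Real.exp (L * s) := Real.one_le_exp (by positivity)
      have a4 := one_le_mul_of_one_le_of_one_le a1 a2
      exact one_le_mul_of_one_le_of_one_le a4 a3
    calc 2 * 2 ^ L * ((L : ℝ) + 1) ^ k * Real.exp (L * s) + 2
        ≤ 4 * (2 ^ L * ((L : ℝ) + 1) ^ k * Real.exp (L * s)) := by linarith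
      _ ≤ Real.exp (L * Real.log 4) *
          (Real.exp (L * Real.log 2) * Real.exp (k * L * Real.log 2) * Real.exp (L * s)) := by
          have b1 : (4 : ℝ) ≤ Real.exp (L * Real.log 4) := by
            rw [← bp5_pow 4 (by norm_num)]
            exact le_self_pow₀ (by norm_num) (by omega)
          have b2 : (2 : ℝ) ^ L = Real.exp (L * Real.log 2) := bp5_pow 2 (by norm_num) L
          rw [b2]
          refine mul_le_mul b1 ?_ (by positivity) (by positivity)
          exact mul_le_mul_of_nonneg_right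
            (mul_le_mul_of_nonneg_left (bp5_card k L) (by positivity)) (by positivity)
      _ = _ := by
          rw [← Real.exp_add, ← Real.exp_add, ← Real.exp_add]
          ring_nf
  have hpos : 0 ≤ 2 * 2 ^ L * ((L : ℝ) + 1) ^ k * Real.exp (L * s) + 2 := by positivity
  calc (2 * 2 ^ L * ((L : ℝ) + 1) ^ k * Real.exp (L * s) + 2) ^ (2 ^ k * (N * (lam * L) ^ r))
      ≤ Real.exp (L * (Real.log 4 + (1 + k) * Real.log 2 + s)) ^ (2 ^ k * (N * (lam * L) ^ r)) :=
        pow_le_pow_left₀ hpos hbase _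
    _ = Real.exp (((Real.log 4 + (1 + k) * Real.log 2 + s) * (2 ^ k * N * lam ^ r)) *
          (L : ℝ) ^ (r + 1)) := by
        rw [← Real.exp_nat_mul]
        push_cast
        congr 1
        ring
    _ ≤ Real.exp ((Real.log 2 * L) * (L : ℝ) ^ k) := by
        apply Real.exp_le_exp.2
        have h2 : (L : ℝ) ^ (r + 1) ≤ (L : ℝ) ^ k := pow_le_pow_right₀ hL1 hr
        exact mul_le_mul hLs h2 (by positivity) (by positivity)
    _ ≤ Real.exp ((Real.log 2 * L) * ((L : ℝ) + 1) ^ k) := by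
        apply Real.exp_le_exp.2
        exact mul_le_mul_of_nonneg_left
          (pow_le_pow_left₀ (by positivity) (by linarith) k) (by positivity)
    _ = ((2 : ℝ) ^ L) ^ ((L + 1) ^ k) := by
        rw [bp5_pow 2 (by norm_num), ← Real.exp_nat_mul]
        push_cast
        congr 1
        ring
    _ < ((2 : ℝ) ^ L + 1) ^ ((L + 1) ^ k) :=
        pow_lt_pow_left₀ (by linarith) (by positivity) (by positivity)

theorem bp5_sum {α : Type} [Fintype α] (f : α → ℤ) (B : ℝ) (hf : ∀ a, |(f a : ℝ)| ≤ B)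
    (g : α → ℝ) (e : ℝ) (hg : ∀ a, |g a| ≤ e) :
    |∑ a, (f a : ℝ) * g a| ≤ Fintype.card α * (B * e) := by
  refine (Finset.abs_sum_le_sum_abs _ _).trans ?_
  calc ∑ a, |(f a : ℝ) * g a| ≤ ∑ _a : α, B * e := by
        refine Finset.sum_le_sum fun a _ => ?_
        rw [abs_mul]
        exact mul_le_mul (hf a) (hg a) (abs_nonneg _) ((abs_nonneg _).trans (hf a))
    _ = Fintype.card α * (B * e) := by
        rw [Finset.sum_const, Finset.card_univ, nsmul_eq_mul]

/-- Row ZL2-BP5. The auxiliary polynomial. Constants (in this order, `lg = Real.log`, `L ≥ 1` chosen last but one, `δ` last):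
`s0 = k lg 4 + 2k(C0+r)`; `s1 = (1+k) lg 2 + k lg 4 + 2k C0 + 2rkA`; `c1 = lg (3·2^k) + kA`;
`λ : ℕ` with `λ ≥ 2 e² k A`, `λ ≥ s1 + C3 + c1 + r`, `λ ≥ 1`; `m = λ L`;
`s2 = C3 + c1 + λ r lg 2 + r λ lg (max 1 A)`, `η = exp(-L s2)`; `s4 = lg 4 + (1+k) lg 2 + s0 + s2`;
`L ≥ s4 2^k N λ^r / lg 2`, `L ≥ 1`.
(1) `GS α S` is `EP (4^(kL)) (2kL)` (`EP_GS`); `EP.taylor` with `Λ = 2kL`, `T = A`, base `c n`, directions `b n` gives
coefficients `cf α S n β` with `|cf| ≤ 4^(kL) e^{2kL(C0+r)} = e^{L s0}`, error `≤ 4^(kL) e^{2kL C0} r ((ΛA)^m/m!) e^{rΛA}`, and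
`(ΛA)^m/m! ≤ (e Λ A/m)^m = (2ekA/λ)^m ≤ e^{-m}` (`m! ≥ (m/e)^m`: `Real.exp`-bound `m^m/m! ≤ e^m`).
(2) `pigeon` with index set `J = Finset (Fin k) × Fin N × (Fin r → Fin m)`, `|J| = 2^k N m^r`, `B = 2^L`, `S = e^{L s0}`, `η`:
`|A_L| = (L+1)^k ≤ 2^{kL}`; base `≤ e^{L s4}`, so the left side is `≤ exp(L s4 2^k N λ^r L^r) ≤ 2^{L·L^k} < (2^L+1)^{(L+1)^k}` since `r < k`.
(3) For `z` as in the statement let `w = Lg z`, `w0 = c n + ∑ τ_j b n j` (`|w0 i| ≤ C0 + rA`). For every `S`: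
`|∑_α f_α GS α S w0| ≤ η m^r max(1,A)^{rm} + 2^L 2^{kL}·(Taylor error) ≤ (2/3)·2^{-k} e^{-kA} e^{-C3 L}`, and
`|∑_α f_α (GS α S w - GS α S w0)| ≤ 2^L 2^{kL}·4^{kL}(2kLδ) e^{2kL(A+C0+rA)}` (`EP.lip`), `≤ (1/3)(same)` for `δ` small (depending on `L`).
(4) `norm_ev_le`. -/
theorem small (k r N : ℕ) (hr : r < k) (C0 A C3 : ℝ) (hC0 : 0 ≤ C0) (hA : 0 ≤ A) (hC3 : 0 ≤ C3) :
    ∃ L : ℕ, 0 < L ∧ ∃ δ : ℝ, 0 < δ ∧
      ∀ (c : Fin N → Fin k × Fin 2 → ℝ) (b : Fin N → Fin r → Fin k × Fin 2 → ℝ),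
        (∀ n i, |c n i| ≤ C0) → (∀ n j i, |b n j i| ≤ 1) →
        ∃ f : (Fin k → Fin (L + 1)) → ℤ, f ≠ 0 ∧ (∀ α, |f α| ≤ 2 ^ L) ∧
          ∀ z : Fin k → ℂ, (∀ j, z j ≠ 0) → (∀ j, z j ≠ 1) → (∀ i, |Lg z i| ≤ A) →
            (∃ n, ∃ τ : Fin r → ℝ, (∀ j, |τ j| ≤ A) ∧
              ∀ i, |Lg z i - (c n i + ∑ j, τ j * b n j i)| ≤ δ) →
            ‖ev f z‖ ≤ Real.exp (-(C3 * L)) := by
  classical
  have hl2 : 0 < Real.log 2 := Real.log_pos (by norm_num)
  have hl4 : 0 < Real.log 4 := Real.log_pos (by norm_num)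
  have hl3 : 0 < Real.log 3 := Real.log_pos (by norm_num)
  have hk0 : (0 : ℝ) ≤ k := Nat.cast_nonneg k
  have hr0 : (0 : ℝ) ≤ r := Nat.cast_nonneg r
  obtain ⟨c1, hc1⟩ : ∃ c1 : ℝ, c1 = Real.log 3 + k * Real.log 2 + k * A := ⟨_, rfl⟩
  have hc10 : 0 ≤ c1 := by rw [hc1]; positivity
  obtain ⟨lam, hlam⟩ := exists_nat_ge (max (2 * Real.exp 2 * k * A)
    (C3 + c1 + ((1 + k) * Real.log 2 + k * Real.log 4 + 2 * k * C0 + r + 2 * r * k * A)))
  have hlam1 : 2 * Real.exp 2 * k * A ≤ lam := (le_max_left _ _).trans hlam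
  have hlam2 : C3 + c1 + ((1 + k) * Real.log 2 + k * Real.log 4 + 2 * k * C0 + r + 2 * r * k * A) ≤
      lam := (le_max_right _ _).trans hlam
  have hlam0 : (0 : ℝ) ≤ lam := Nat.cast_nonneg lam
  obtain ⟨s0, hs0⟩ : ∃ s0 : ℝ, s0 = k * Real.log 4 + 2 * k * (C0 + r) := ⟨_, rfl⟩
  obtain ⟨s2, hs2⟩ : ∃ s2 : ℝ, s2 = C3 + c1 + lam * r + r * lam * A := ⟨_, rfl⟩
  have hs00 : 0 ≤ s0 := by rw [hs0]; positivity
  have hs20 : 0 ≤ s2 := by rw [hs2]; positivity
  obtain ⟨L0, hL0⟩ := exists_nat_ge ((Real.log 4 + (1 + k) * Real.log 2 + (s0 + s2)) *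
    (2 ^ k * N * lam ^ r) / Real.log 2)
  obtain ⟨L, hLdef⟩ : ∃ L, L = max 1 L0 := ⟨_, rfl⟩
  have hL : 1 ≤ L := by rw [hLdef]; exact le_max_left _ _
  have hL1 : (1 : ℝ) ≤ L := by exact_mod_cast hL
  have hLs : (Real.log 4 + (1 + k) * Real.log 2 + (s0 + s2)) * (2 ^ k * N * lam ^ r) ≤
      Real.log 2 * L := by
    rw [div_le_iff₀ hl2] at hL0
    have h1 : (L0 : ℝ) ≤ L := by
      rw [hLdef]
      exact_mod_cast le_max_right _ _
    have h2 := mul_le_mul_of_nonneg_right h1 hl2.le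
    linarith
  obtain ⟨t1, ht1⟩ : ∃ t1 : ℝ, t1 = Real.exp (-(C3 * L) - c1) := ⟨_, rfl⟩
  have ht10 : 0 < t1 := by rw [ht1]; exact Real.exp_pos _
  obtain ⟨Λ, hΛd⟩ : ∃ Λ : ℝ, Λ = 2 * ((k * L : ℕ) : ℝ) := ⟨_, rfl⟩
  have hΛ : 0 ≤ Λ := by rw [hΛd]; positivity
  have hΛ' : Λ = 2 * k * L := by rw [hΛd]; push_cast; ring
  obtain ⟨D, hD⟩ : ∃ D : ℝ, D = ((L : ℝ) + 1) ^ k * (2 ^ L * (4 ^ (k * L) * Λ *
    Real.exp (Λ * (A + C0 + r * A)))) := ⟨_, rfl⟩
  have hD0 : 0 ≤ D := by rw [hD]; positivity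
  obtain ⟨m, hm⟩ : ∃ m, m = lam * L := ⟨_, rfl⟩
  have hmr : (m : ℝ) = lam * L := by rw [hm]; push_cast; ring
  have hcardA : Fintype.card (Fin k → Fin (L + 1)) = (L + 1) ^ k := by simp
  refine ⟨L, hL, t1 / (D + 1), by positivity, fun c b hc hb => ?_⟩
  have hEP : ∀ (α : Fin k → Fin (L + 1)) (S : Finset (Fin k)),
      EP (4 ^ (k * L)) Λ (GS (fun j => (α j : ℕ)) S) := fun α S => by
    rw [hΛd]
    exact EP_GS _ (fun j => Nat.lt_succ_iff.1 (α j).2) S
  have hT := fun (α : Fin k → Fin (L + 1)) (S : Finset (Fin k)) (n : Fin N) =>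
    (hEP α S).taylor hΛ hC0 hA m (c n) (hc n) (b n) (hb n)
  choose cf hcf1 hcf2 using hT
  have h4 : (4 : ℝ) ^ (k * L) = Real.exp (k * L * Real.log 4) := by
    rw [bp5_pow 4 (by norm_num)]
    push_cast
    ring_nf
  have h2L : (2 : ℝ) ^ L = Real.exp (L * Real.log 2) := bp5_pow 2 (by norm_num) L
  have hSb : ∀ (α : Fin k → Fin (L + 1)) (j : Finset (Fin k) × Fin N × (Fin r → Fin m)),
      |cf α j.1 j.2.1 j.2.2| ≤ Real.exp (L * s0) := by
    intro α j
    refine (hcf1 α j.1 j.2.1 j.2.2).trans (le_of_eq ?_)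
    rw [h4, ← Real.exp_add, hs0, hΛ']
    ring_nf
  obtain ⟨f, hf0, hf1, hf2⟩ := pigeon (A := Fin k → Fin (L + 1))
    (J := Finset (Fin k) × Fin N × (Fin r → Fin m)) (2 ^ L)
    (fun α j => cf α j.1 j.2.1 j.2.2) (Real.exp (L * s0)) (Real.exp (-(L * s2)))
    (Real.exp_pos _) (Real.exp_pos _).le hSb (by
      have hcount := bp5_count k r N lam L hr hL (s0 + s2) (add_nonneg hs00 hs20) hLs
      have hcardJ : Fintype.card (Finset (Fin k) × Fin N × (Fin r → Fin m)) =
          2 ^ k * (N * (lam * L) ^ r) := by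
        simp [hm]
      rw [hcardA, hcardJ]
      push_cast
      have e1 : 2 * 2 ^ L * ((L : ℝ) + 1) ^ k * Real.exp (L * s0) / Real.exp (-(L * s2)) =
          2 * 2 ^ L * ((L : ℝ) + 1) ^ k * Real.exp (L * (s0 + s2)) := by
        rw [mul_div_assoc, ← Real.exp_sub]
        ring_nf
      rw [e1]
      exact hcount)
  have hfR : ∀ α, |(f α : ℝ)| ≤ 2 ^ L := by
    intro α
    have := hf1 α
    exact_mod_cast this
  refine ⟨f, hf0, fun α => by have := hf1 α; exact_mod_cast this, fun z hz hz1 hw hex => ?_⟩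
  obtain ⟨n, τ, hτ, hclose⟩ := hex
  have key : ∀ S : Finset (Fin k),
      |∑ α : Fin k → Fin (L + 1), (f α : ℝ) * GS (fun j => (α j : ℕ)) S (Lg z)| ≤ 3 * t1 := by
    intro S
    have hw0 : ∀ i, |c n i + ∑ j, τ j * b n j i| ≤ C0 + r * A := by
      intro i
      refine (abs_add_le _ _).trans (add_le_add (hc n i) ?_)
      refine (Finset.abs_sum_le_sum_abs _ _).trans ?_
      calc ∑ j, |τ j * b n j i| ≤ ∑ _j : Fin r, A := by
            refine Finset.sum_le_sum fun j _ => ?_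
            rw [abs_mul]
            calc |τ j| * |b n j i| ≤ A * 1 :=
                  mul_le_mul (hτ j) (hb n j i) (abs_nonneg _) hA
              _ = A := mul_one _
        _ = r * A := by
            rw [Finset.sum_const, Finset.card_univ, Fintype.card_fin, nsmul_eq_mul]
    -- the three parts
    have p1 : |∑ α : Fin k → Fin (L + 1), (f α : ℝ) * (GS (fun j => (α j : ℕ)) S (Lg z) -
        GS (fun j => (α j : ℕ)) S (fun i => c n i + ∑ j, τ j * b n j i))| ≤ t1 := by
      have hA' : (0 : ℝ) ≤ A + C0 + r * A := by positivity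
      have hδ0 : 0 ≤ t1 / (D + 1) := by positivity
      have h1 := bp5_sum f (2 ^ L) hfR
        (fun α => GS (fun j => (α j : ℕ)) S (Lg z) -
          GS (fun j => (α j : ℕ)) S (fun i => c n i + ∑ j, τ j * b n j i))
        (4 ^ (k * L) * (Λ * (t1 / (D + 1))) * Real.exp (Λ * (A + C0 + r * A)))
        (fun α => (hEP α S).lip hΛ hA' hδ0 (Lg z) _
          (fun i => (hw i).trans (by have := mul_nonneg hr0 hA; linarith))
          (fun i => (hw0 i).trans (by linarith)) hclose)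
      refine h1.trans ?_
      rw [hcardA]
      push_cast
      have h2 : ((L : ℝ) + 1) ^ k * (2 ^ L * (4 ^ (k * L) * (Λ * (t1 / (D + 1))) *
          Real.exp (Λ * (A + C0 + r * A)))) = D * (t1 / (D + 1)) := by
        rw [hD]; ring
      rw [h2, mul_div_assoc', div_le_iff₀ (by positivity)]
      linarith
    have p2 : |∑ α : Fin k → Fin (L + 1), (f α : ℝ) *
        (GS (fun j => (α j : ℕ)) S (fun i => c n i + ∑ j, τ j * b n j i) -
          ∑ β : Fin r → Fin m, cf α S n β * ∏ j, τ j ^ (β j : ℕ))| ≤ t1 := by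
      have h1 := bp5_sum f (2 ^ L) hfR
        (fun α => GS (fun j => (α j : ℕ)) S (fun i => c n i + ∑ j, τ j * b n j i) -
          ∑ β : Fin r → Fin m, cf α S n β * ∏ j, τ j ^ (β j : ℕ))
        (4 ^ (k * L) * Real.exp (Λ * C0) *
          (r * ((Λ * A) ^ m / m.factorial) * Real.exp (r * (Λ * A))))
        (fun α => hcf2 α S n τ hτ)
      refine h1.trans ?_
      rw [hcardA]
      push_cast
      have h2 : (Λ * A) ^ m / m.factorial ≤ Real.exp (-m) := by
        apply bp5_fact (by positivity)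
        rw [hΛ', hmr, Real.exp_neg]
        have he : 0 < Real.exp 2 := Real.exp_pos _
        rw [inv_mul_eq_div, le_div_iff₀ he]
        calc 2 * k * L * A * Real.exp 2 = (2 * Real.exp 2 * k * A) * L := by ring
          _ ≤ lam * L := mul_le_mul_of_nonneg_right hlam1 (by positivity)
      have h3 : (r : ℝ) ≤ Real.exp r := by
        have := Real.add_one_le_exp (r : ℝ)
        linarith
      calc ((L : ℝ) + 1) ^ k * (2 ^ L * (4 ^ (k * L) * Real.exp (Λ * C0) *
            (r * ((Λ * A) ^ m / m.factorial) * Real.exp (r * (Λ * A)))))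
          ≤ Real.exp (k * L * Real.log 2) * (Real.exp (L * Real.log 2) *
            (Real.exp (k * L * Real.log 4) * Real.exp (Λ * C0) *
            (Real.exp r * Real.exp (-m) * Real.exp (r * (Λ * A))))) := by
            rw [h4, h2L]
            refine mul_le_mul (bp5_card k L) ?_ (by positivity) (by positivity)
            refine mul_le_mul_of_nonneg_left ?_ (by positivity)
            refine mul_le_mul_of_nonneg_left ?_ (by positivity)
            refine mul_le_mul_of_nonneg_right ?_ (by positivity)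
            exact mul_le_mul h3 h2 (by positivity) (by positivity)
        _ = Real.exp (L * ((1 + k) * Real.log 2 + k * Real.log 4 + 2 * k * C0 + 2 * r * k * A) +
              r - lam * L) := by
            simp only [← Real.exp_add]
            congr 1
            rw [hΛ', hmr]
            ring
        _ ≤ t1 := by
            rw [ht1]
            apply Real.exp_le_exp.2
            have h5 : (r : ℝ) ≤ L * r := le_mul_of_one_le_left hr0 hL1
            have h6 : L * (C3 + c1 + ((1 + k) * Real.log 2 + k * Real.log 4 + 2 * k * C0 + r +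
                2 * r * k * A)) ≤ L * lam := mul_le_mul_of_nonneg_left hlam2 (by positivity)
            have h7 : c1 ≤ L * c1 := le_mul_of_one_le_left hc10 hL1
            linarith
    have p3 : |∑ α : Fin k → Fin (L + 1), (f α : ℝ) *
        ∑ β : Fin r → Fin m, cf α S n β * ∏ j, τ j ^ (β j : ℕ)| ≤ t1 := by
      have h1 : ∑ α : Fin k → Fin (L + 1), (f α : ℝ) *
          ∑ β : Fin r → Fin m, cf α S n β * ∏ j, τ j ^ (β j : ℕ) =
          ∑ β : Fin r → Fin m, (∑ α : Fin k → Fin (L + 1), (f α : ℝ) * cf α S n β) *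
            ∏ j, τ j ^ (β j : ℕ) := by
        simp only [Finset.mul_sum, Finset.sum_mul]
        rw [Finset.sum_comm]
        refine Finset.sum_congr rfl fun β _ => Finset.sum_congr rfl fun α _ => by ring
      rw [h1]
      refine (Finset.abs_sum_le_sum_abs _ _).trans ?_
      have h2 : ∀ β : Fin r → Fin m, |∏ j, τ j ^ (β j : ℕ)| ≤ Real.exp (r * (m * A)) := by
        intro β
        rw [Finset.abs_prod]
        calc ∏ j, |τ j ^ (β j : ℕ)| ≤ ∏ _j : Fin r, Real.exp (m * A) := by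
              refine Finset.prod_le_prod (fun j _ => abs_nonneg _) fun j _ => ?_
              rw [abs_pow]
              calc |τ j| ^ (β j : ℕ) ≤ Real.exp A ^ (β j : ℕ) := by
                    refine pow_le_pow_left₀ (abs_nonneg _) ((hτ j).trans ?_) _
                    have := Real.add_one_le_exp A
                    linarith
                _ ≤ Real.exp A ^ m :=
                    pow_le_pow_right₀ (Real.one_le_exp hA) (β j).2.le
                _ = Real.exp (m * A) := by rw [Real.exp_nat_mul]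
          _ = Real.exp (r * (m * A)) := by
              rw [Finset.prod_const, Finset.card_univ, Fintype.card_fin,
                Real.exp_nat_mul (m * A) r]
      calc ∑ β : Fin r → Fin m, |(∑ α : Fin k → Fin (L + 1), (f α : ℝ) * cf α S n β) *
            ∏ j, τ j ^ (β j : ℕ)|
          ≤ ∑ _β : Fin r → Fin m, Real.exp (-(L * s2)) * Real.exp (r * (m * A)) := by
            refine Finset.sum_le_sum fun β _ => ?_
            rw [abs_mul]
            exact mul_le_mul (hf2 (S, n, β)) (h2 β) (abs_nonneg _) (Real.exp_pos _).le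
        _ = (m : ℝ) ^ r * (Real.exp (-(L * s2)) * Real.exp (r * (m * A))) := by
            rw [Finset.sum_const, Finset.card_univ, nsmul_eq_mul]
            simp
        _ ≤ Real.exp (r * m) * (Real.exp (-(L * s2)) * Real.exp (r * (m * A))) := by
            refine mul_le_mul_of_nonneg_right ?_ (by positivity)
            rw [Real.exp_nat_mul]
            refine pow_le_pow_left₀ (Nat.cast_nonneg m) ?_ r
            have := Real.add_one_le_exp (m : ℝ)
            linarith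
        _ = Real.exp (-(L * (C3 + c1))) := by
            rw [← Real.exp_add, ← Real.exp_add]
            congr 1
            rw [hs2, hmr]
            ring
        _ ≤ t1 := by
            rw [ht1]
            apply Real.exp_le_exp.2
            have h7 : c1 ≤ L * c1 := le_mul_of_one_le_left hc10 hL1
            linarith
    have hsplit : ∑ α : Fin k → Fin (L + 1), (f α : ℝ) * GS (fun j => (α j : ℕ)) S (Lg z) =
        ∑ α : Fin k → Fin (L + 1), (f α : ℝ) * (GS (fun j => (α j : ℕ)) S (Lg z) -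
          GS (fun j => (α j : ℕ)) S (fun i => c n i + ∑ j, τ j * b n j i)) +
        ∑ α : Fin k → Fin (L + 1), (f α : ℝ) *
          (GS (fun j => (α j : ℕ)) S (fun i => c n i + ∑ j, τ j * b n j i) -
            ∑ β : Fin r → Fin m, cf α S n β * ∏ j, τ j ^ (β j : ℕ)) +
        ∑ α : Fin k → Fin (L + 1), (f α : ℝ) *
          ∑ β : Fin r → Fin m, cf α S n β * ∏ j, τ j ^ (β j : ℕ) := by
      rw [← Finset.sum_add_distrib, ← Finset.sum_add_distrib]
      refine Finset.sum_congr rfl fun α _ => by ring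
    rw [hsplit]
    refine (abs_add_le _ _).trans ?_
    have := abs_add_le (∑ α : Fin k → Fin (L + 1), (f α : ℝ) *
        (GS (fun j => (α j : ℕ)) S (Lg z) -
          GS (fun j => (α j : ℕ)) S (fun i => c n i + ∑ j, τ j * b n j i)))
      (∑ α : Fin k → Fin (L + 1), (f α : ℝ) *
          (GS (fun j => (α j : ℕ)) S (fun i => c n i + ∑ j, τ j * b n j i) -
            ∑ β : Fin r → Fin m, cf α S n β * ∏ j, τ j ^ (β j : ℕ)))
    linarith
  refine (norm_ev_le f z hz hz1 hA hw key).trans (le_of_eq ?_)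
  have e3 : (3 : ℝ) = Real.exp (Real.log 3) := (Real.exp_log (by norm_num)).symm
  rw [ht1, bp5_pow 2 (by norm_num) k]
  calc Real.exp (k * Real.log 2) * Real.exp (k * A) * (3 * Real.exp (-(C3 * L) - c1))
      = Real.exp (k * Real.log 2) * Real.exp (k * A) *
          (Real.exp (Real.log 3) * Real.exp (-(C3 * L) - c1)) := by rw [← e3]
    _ = Real.exp (-(C3 * L)) := by
        simp only [← Real.exp_add]
        congr 1
        rw [hc1]
        ring

end Pool.Agent.ZL2
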