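import Pool.Agent.ZL2.Base

namespace Pool.Agent.ZL2

open Finset

/-- Evaluation of the polynomial with coefficients `f α`, `α_j ≤ L`. -/
noncomputable def ev {R : Type} [CommRing R] {k L : ℕ} (f : (Fin k → Fin (L + 1)) → ℤ) (z : Fin k → R) : R :=
  ∑ α : Fin k → Fin (L + 1), (f α : R) * ∏ j, z j ^ (α j : ℕ)

/-- The vector `(log |z_j|, log |1 - z_j|)_j`. -/
noncomputable def Lg {k : ℕ} (z : Fin k → ℂ) (i : Fin k × Fin 2) : ℝ :=
  if i.2 = 0 then Real.log ‖z i.1‖ else Real.log ‖1 - z i.1‖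

/-- `Re z` in terms of `p = log |z|` and `q = log |1 - z|`. -/
noncomputable def Rf (p q : ℝ) : ℝ := (1 + Real.exp (2 * p) - Real.exp (2 * q)) / 2

noncomputable def Uf : ℕ → ℝ → ℝ → ℝ
  | 0, _, _ => 1
  | 1, p, q => Rf p q
  | (n + 2), p, q => 2 * Rf p q * Uf (n + 1) p q - Real.exp (2 * p) * Uf n p q

noncomputable def Vf : ℕ → ℝ → ℝ → ℝ
  | 0, _, _ => 0
  | 1, _, _ => 1
  | (n + 2), p, q => 2 * Rf p q * Vf (n + 1) p q - Real.exp (2 * p) * Vf n p q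

/-- Exponential sums with total mass of the coefficients at most `C` and frequencies of `ℓ¹` norm
at most `Λ`. -/
def EP {ι : Type} [Fintype ι] (C Λ : ℝ) (g : (ι → ℝ) → ℝ) : Prop :=
  ∃ (α : Type) (_ : Fintype α) (c : α → ℝ) (l : α → ι → ℝ),
    (∀ w, g w = ∑ a, c a * Real.exp (∑ i, l a i * w i)) ∧ ∑ a, |c a| ≤ C ∧ ∀ a, ∑ i, |l a i| ≤ Λ

/-- The real functions `G_{α,S}`: `z^α = ∑_S (∏_{j ∈ S} i Im z_j) G_{α,S}(Log z)`. -/
noncomputable def GS {k : ℕ} (a : Fin k → ℕ) (S : Finset (Fin k)) (w : Fin k × Fin 2 → ℝ) : ℝ :=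
  ∏ j, if j ∈ S then Vf (a j) (w (j, 0)) (w (j, 1)) else Uf (a j) (w (j, 0)) (w (j, 1))

end Pool.Agent.ZL2
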