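import Mathlib

namespace Pool.Agent.ZL2

open Finset

/-- Functions with finite support. -/
def FS {P : Type} (f : P → ℝ) : Prop := (Function.support f).Finite

/-- The sum of a function with finite support. -/
noncomputable def Sm {P : Type} (f : P → ℝ) : ℝ := ∑ᶠ p, f p

section general

variable {P : Type} {f g h : P → ℝ}

theorem FS.zero : FS (fun _ : P => (0 : ℝ)) := by
  unfold FS; simp

theorem FS.subset (hg : FS g) (h : ∀ p, f p ≠ 0 → g p ≠ 0) : FS f :=
  Set.Finite.subset hg fun p hp => h p hp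

theorem FS.subset2 (hf : FS f) (hg : FS g) (hh : ∀ p, f p = 0 → g p = 0 → h p = 0) : FS h := by
  refine Set.Finite.subset (Set.Finite.union hf hg) fun p hp => ?_
  by_contra hc
  simp only [Set.mem_union, Function.mem_support, not_or, not_not] at hc
  exact hp (hh p hc.1 hc.2)

theorem FS.add (hf : FS f) (hg : FS g) : FS (fun p => f p + g p) :=
  hf.subset2 hg fun p h1 h2 => by rw [h1, h2, add_zero]

theorem FS.sub (hf : FS f) (hg : FS g) : FS (fun p => f p - g p) :=
  hf.subset2 hg fun p h1 h2 => by rw [h1, h2, sub_zero]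

theorem FS.neg (hf : FS f) : FS (fun p => - f p) :=
  hf.subset fun p h1 h2 => h1 (by rw [h2, neg_zero])

theorem FS.smul (c : ℝ) (hf : FS f) : FS (fun p => c * f p) :=
  hf.subset fun p h1 h2 => h1 (by rw [h2, mul_zero])

theorem FS.max (hf : FS f) (hg : FS g) : FS (fun p => max (f p) (g p)) :=
  hf.subset2 hg fun p h1 h2 => by rw [h1, h2, max_self]

theorem FS.min (hf : FS f) (hg : FS g) : FS (fun p => min (f p) (g p)) :=
  hf.subset2 hg fun p h1 h2 => by rw [h1, h2, min_self]

theorem FS.abs (hf : FS f) : FS (fun p => |f p|) :=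
  hf.subset fun p h1 h2 => h1 (by rw [h2, abs_zero])

theorem FS.ite (hf : FS f) (q : P → Prop) [DecidablePred q] : FS (fun p => if q p then f p else 0) := by
  refine hf.subset fun p h1 h2 => h1 ?_
  split_ifs
  · exact h2
  · rfl

theorem FS.of_le (hg : FS g) (h0 : ∀ p, 0 ≤ f p) (h : ∀ p, f p ≤ g p) : FS f :=
  hg.subset fun p h1 h2 => h1 (le_antisymm (h2 ▸ h p) (h0 p))

theorem FS.sum {ι : Type} (s : Finset ι) {F : ι → P → ℝ} (hF : ∀ i ∈ s, FS (F i)) :
    FS (fun p => ∑ i ∈ s, F i p) := by
  classical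
  induction s using Finset.induction_on with
  | empty => simpa using FS.zero
  | insert a s ha ih =>
    simp only [Finset.sum_insert ha]
    exact (hF a (Finset.mem_insert_self a s)).add (ih fun i hi => hF i (Finset.mem_insert_of_mem hi))

theorem Sm_zero : Sm (fun _ : P => (0 : ℝ)) = 0 := by
  unfold Sm; simp

theorem Sm_add (hf : FS f) (hg : FS g) : Sm (fun p => f p + g p) = Sm f + Sm g :=
  finsum_add_distrib hf hg

theorem Sm_sub (hf : FS f) (hg : FS g) : Sm (fun p => f p - g p) = Sm f - Sm g :=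
  finsum_sub_distrib hf hg

theorem Sm_smul (c : ℝ) : Sm (fun p => c * f p) = c * Sm f := by
  unfold Sm
  rw [mul_finsum]

theorem Sm_neg : Sm (fun p => - f p) = - Sm f := by
  have := Sm_smul (f := f) (-1)
  simpa using this

theorem Sm_mono (hf : FS f) (hg : FS g) (h : ∀ p, f p ≤ g p) : Sm f ≤ Sm g := by
  unfold Sm
  exact finsum_le_finsum' hf hg h

theorem Sm_nonneg (h : ∀ p, 0 ≤ f p) : 0 ≤ Sm f := finsum_nonneg h

theorem Sm_congr (h : ∀ p, f p = g p) : Sm f = Sm g := by
  rw [funext h]

theorem Sm_sum {ι : Type} (s : Finset ι) {F : ι → P → ℝ} (hF : ∀ i ∈ s, FS (F i)) :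
    Sm (fun p => ∑ i ∈ s, F i p) = ∑ i ∈ s, Sm (F i) := by
  classical
  induction s using Finset.induction_on with
  | empty => simpa using Sm_zero
  | insert a s ha ih =>
    simp only [Finset.sum_insert ha]
    rw [Sm_add (hF a (Finset.mem_insert_self a s))
      (FS.sum s fun i hi => hF i (Finset.mem_insert_of_mem hi)),
      ih fun i hi => hF i (Finset.mem_insert_of_mem hi)]

end general

/-- The places of the number field `K`: the complex embeddings and the finite places. -/
abbrev Pl (K : Type) [Field K] [NumberField K] : Type :=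
  (K →+* ℂ) ⊕ NumberField.FinitePlace K

variable {K : Type} [Field K] [NumberField K]

/-- The logarithm of the absolute value of `x` at the place `p`. -/
noncomputable def lv (p : Pl K) (x : K) : ℝ :=
  Sum.elim (fun σ : K →+* ℂ => Real.log ‖σ x‖)
    (fun v : NumberField.FinitePlace K => Real.log (v x)) p

/-- `log 2` at the archimedean places, `0` at the finite places. -/
noncomputable def ell (p : Pl K) : ℝ :=
  Sum.elim (fun _ : K →+* ℂ => Real.log 2) (fun _ : NumberField.FinitePlace K => 0) p

theorem lv_mul (p : Pl K) {x y : K} (hx : x ≠ 0) (hy : y ≠ 0) : lv p (x * y) = lv p x + lv p y := by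
  rcases p with σ | v
  · simp only [lv, Sum.elim_inl, map_mul, norm_mul]
    exact Real.log_mul (by simpa using hx) (by simpa using hy)
  · simp only [lv, Sum.elim_inr, map_mul]
    exact Real.log_mul (by simpa using hx) (by simpa using hy)

theorem lv_one (p : Pl K) : lv p (1 : K) = 0 := by
  rcases p with σ | v <;> simp [lv]

theorem lv_neg (p : Pl K) (x : K) : lv p (-x) = lv p x := by
  rcases p with σ | v
  · simp [lv]
  · simp only [lv, Sum.elim_inr]
    have h : v (-x) = v x := by
      have h1 : v (-1) * v (-1) = 1 := by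
        rw [← map_mul]; simp
      have h2 : v (-1) = 1 := by
        have h0 : 0 ≤ v (-1) := apply_nonneg v _
        nlinarith
      rw [← neg_one_mul, map_mul, h2, one_mul]
    rw [h]

theorem lv_inv (p : Pl K) (x : K) : lv p x⁻¹ = - lv p x := by
  rcases p with σ | v <;> simp [lv]

theorem lv_pow (p : Pl K) (x : K) (n : ℕ) : lv p (x ^ n) = n * lv p x := by
  rcases p with σ | v <;> simp [lv]

theorem lv_zpow (p : Pl K) (x : K) (n : ℤ) : lv p (x ^ n) = n * lv p x := by
  rcases p with σ | v <;> simp [lv]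

theorem ell_nonneg (p : Pl K) : 0 ≤ ell p := by
  rcases p with σ | v
  · simp only [ell, Sum.elim_inl]; exact Real.log_nonneg (by norm_num)
  · simp [ell]

theorem lv_add_le (p : Pl K) {x y : K} (hx : x ≠ 0) (hy : y ≠ 0) (hxy : x + y ≠ 0) :
    lv p (x + y) ≤ max (lv p x) (lv p y) + ell p := by
  rcases p with σ | v
  · simp only [lv, ell, Sum.elim_inl]
    have h0 : 0 < ‖σ (x + y)‖ := norm_pos_iff.2 ((map_ne_zero σ).2 hxy)
    have hx' : 0 < ‖σ x‖ := by simpa using hx
    have hy' : 0 < ‖σ y‖ := by simpa using hy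
    have h1 : ‖σ (x + y)‖ ≤ 2 * max ‖σ x‖ ‖σ y‖ := by
      rw [map_add]
      calc ‖σ x + σ y‖ ≤ ‖σ x‖ + ‖σ y‖ := norm_add_le _ _
        _ ≤ max ‖σ x‖ ‖σ y‖ + max ‖σ x‖ ‖σ y‖ := add_le_add (le_max_left _ _) (le_max_right _ _)
        _ = 2 * max ‖σ x‖ ‖σ y‖ := by ring
    have h2 := Real.log_le_log h0 h1
    rw [Real.log_mul (by norm_num) (ne_of_gt (lt_max_of_lt_left hx'))] at h2
    have h3 : Real.log (max ‖σ x‖ ‖σ y‖) = max (Real.log ‖σ x‖) (Real.log ‖σ y‖) := by
      rcases le_total ‖σ x‖ ‖σ y‖ with h | h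
      · rw [max_eq_right h, max_eq_right (Real.log_le_log hx' h)]
      · rw [max_eq_left h, max_eq_left (Real.log_le_log hy' h)]
    rw [h3] at h2
    linarith
  · simp only [lv, ell, Sum.elim_inr, add_zero]
    have h0 : 0 < v (x + y) := by
      rw [NumberField.FinitePlace.pos_iff]
      exact hxy
    have hx' : 0 < v x := by rw [NumberField.FinitePlace.pos_iff]; exact hx
    have hy' : 0 < v y := by rw [NumberField.FinitePlace.pos_iff]; exact hy
    have h1 : v (x + y) ≤ max (v x) (v y) := NumberField.FinitePlace.add_le v x y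
    have h2 := Real.log_le_log h0 h1
    have h3 : Real.log (max (v x) (v y)) = max (Real.log (v x)) (Real.log (v y)) := by
      rcases le_total (v x) (v y) with h | h
      · rw [max_eq_right h, max_eq_right (Real.log_le_log hx' h)]
      · rw [max_eq_left h, max_eq_left (Real.log_le_log hy' h)]
    rw [h3] at h2
    linarith

theorem FS_lv {x : K} (hx : x ≠ 0) : FS (fun p : Pl K => lv p x) := by
  unfold FS
  have h1 : (Function.support fun p : Pl K => lv p x) ⊆
      Set.range (Sum.inl : (K →+* ℂ) → Pl K) ∪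
        (Sum.inr : NumberField.FinitePlace K → Pl K) ''
          (Function.mulSupport fun v : NumberField.FinitePlace K => v x) := by
    rintro (σ | v) hp
    · exact Or.inl ⟨σ, rfl⟩
    · refine Or.inr ⟨v, ?_, rfl⟩
      simp only [Function.mem_support, lv, Sum.elim_inr] at hp
      intro hv
      have hv' : v x = 1 := hv
      exact hp (by rw [hv', Real.log_one])
  refine Set.Finite.subset ?_ h1
  exact (Set.finite_range _).union ((NumberField.FinitePlace.hasFiniteMulSupport hx).image _)

theorem FS_ell : FS (ell : Pl K → ℝ) := by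
  unfold FS
  refine Set.Finite.subset (Set.finite_range (Sum.inl : (K →+* ℂ) → Pl K)) ?_
  rintro (σ | v) hp
  · exact ⟨σ, rfl⟩
  · simp [ell] at hp

theorem Sm_split {f : Pl K → ℝ} (hf : FS f) :
    Sm f = ∑ σ : K →+* ℂ, f (Sum.inl σ) + ∑ᶠ v : NumberField.FinitePlace K, f (Sum.inr v) := by
  unfold Sm
  rw [← finsum_mem_univ, ← Set.range_inl_union_range_inr, finsum_mem_union'',
    finsum_mem_range Sum.inl_injective, finsum_mem_range Sum.inr_injective,
    finsum_eq_sum_of_fintype]
  · exact Disjoint.mono Set.inter_subset_left Set.inter_subset_left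
      Set.isCompl_range_inl_range_inr.disjoint
  · exact Set.Finite.subset hf Set.inter_subset_right
  · exact Set.Finite.subset hf Set.inter_subset_right

theorem Sm_ell : Sm (ell : Pl K → ℝ) = (Module.finrank ℚ K : ℝ) * Real.log 2 := by
  rw [Sm_split FS_ell]
  simp only [ell, Sum.elim_inl, Sum.elim_inr, finsum_zero, add_zero, Finset.sum_const,
    Finset.card_univ, nsmul_eq_mul]
  rw [NumberField.Embeddings.card K ℂ]

/-- The product formula. -/
theorem Sm_lv {x : K} (hx : x ≠ 0) : Sm (fun p : Pl K => lv p x) = 0 := by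
  rw [Sm_split (FS_lv hx)]
  simp only [lv, Sum.elim_inl, Sum.elim_inr]
  have h1 : ∑ σ : K →+* ℂ, Real.log ‖σ x‖ = Real.log |(Algebra.norm ℚ x : ℝ)| := by
    rw [← Real.log_prod (fun σ _ => by simpa using hx)]
    congr 1
    have h := congr_arg (‖·‖) (Algebra.norm_eq_prod_embeddings ℚ ℂ x)
    simp only [norm_prod] at h
    rw [Fintype.prod_equiv (RingHom.equivRatAlgHom K ℂ) (fun f => ‖f x‖)
      (fun φ => ‖φ x‖) fun _ => by simp [RingHom.equivRatAlgHom_apply], ← h]
    rw [eq_ratCast, ← Real.norm_eq_abs, ← Complex.norm_real, Complex.ofReal_ratCast]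
  have h2 : ∑ᶠ v : NumberField.FinitePlace K, Real.log (v x) =
      Real.log (∏ᶠ v : NumberField.FinitePlace K, v x) := by
    rw [Real.log_finprod]
    intro v
    exact (NumberField.FinitePlace.pos_iff).2 hx
  rw [h1, h2, NumberField.FinitePlace.prod_eq_inv_abs_norm hx]
  push_cast
  rw [Real.log_inv]
  ring

end Pool.Agent.ZL2
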