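import Mathlib

namespace Pool.Agent.ZL2

open MvPolynomial

/-- Row ZL2-G2. Specialisation to a number field (Zariski's lemma). Proof: `S` = the `F`-subalgebra of `ℂ` generated by the
`x_i`, the `x_i⁻¹` and `(aeval x Q)⁻¹` (`Algebra.adjoin F` of a finite set, so `Algebra.FiniteType F S`), a nontrivial ring; `M` a maximal ideal,
`K = S ⧸ M` (`Ideal.Quotient.field`), a finitely generated `F`-algebra which is a field, hence finite over `F`
(`finite_of_finite_type_of_isJacobsonRing`), hence a number field (`CharZero` from the algebra map of `F`, finite over `ℚ` by `Module.Finite.trans F K`).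
`z_i` = the image of `x_i` (a unit, inverse the image of `x_i⁻¹`); `P(x) = 0 → P(z) = 0` and `Q(z) ≠ 0` because `S → K` is an `F`-algebra map
and the image of `Q(x)` is invertible; the monomial relations likewise. Universe: `F K : Type`. -/
theorem descent {F : Type} [Field F] [NumberField F] [Algebra F ℂ] {κ : Type} [Finite κ] (x : κ → ℂˣ)
    (Q : MvPolynomial κ F) (hQ : aeval (fun i => (x i : ℂ)) Q ≠ 0) :
    ∃ (K : Type) (_ : Field K) (_ : NumberField K) (_ : Algebra F K) (z : κ → Kˣ),
      (∀ P : MvPolynomial κ F, aeval (fun i => (x i : ℂ)) P = 0 → aeval (fun i => (z i : K)) P = 0) ∧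
      aeval (fun i => (z i : K)) Q ≠ 0 ∧
      ∀ (n : ℕ) (i : Fin n → κ) (m : Fin n → ℤ), ∏ j, x (i j) ^ m j = 1 → ∏ j, z (i j) ^ m j = 1 := by
  classical
  set q : ℂ := aeval (fun i => (x i : ℂ)) Q with hq
  let T : Set ℂ := Set.range (fun i => (x i : ℂ)) ∪ Set.range (fun i => (((x i)⁻¹ : ℂˣ) : ℂ)) ∪ {q⁻¹}
  have hT : T.Finite := ((Set.finite_range _).union (Set.finite_range _)).union (Set.finite_singleton _)
  let S : Subalgebra F ℂ := Algebra.adjoin F T
  have hS : Algebra.FiniteType F S := by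
    apply (Subalgebra.fg_iff_finiteType S).1
    have h1 := Subalgebra.fg_adjoin_finset (R := F) hT.toFinset
    rw [Set.Finite.coe_toFinset] at h1
    exact h1
  have hx : ∀ i, (x i : ℂ) ∈ S := fun i => Algebra.subset_adjoin (Or.inl (Or.inl ⟨i, rfl⟩))
  have hxi : ∀ i, (((x i)⁻¹ : ℂˣ) : ℂ) ∈ S := fun i => Algebra.subset_adjoin (Or.inl (Or.inr ⟨i, rfl⟩))
  have hqi : q⁻¹ ∈ S := Algebra.subset_adjoin (Or.inr rfl)
  let xs : κ → Sˣ := fun i =>
    { val := ⟨x i, hx i⟩
      inv := ⟨((x i)⁻¹ : ℂˣ), hxi i⟩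
      val_inv := Subtype.ext (Units.mul_inv (x i))
      inv_val := Subtype.ext (Units.inv_mul (x i)) }
  have hval : ∀ P : MvPolynomial κ F, ((aeval (fun i => (xs i : S)) P : S) : ℂ) =
      aeval (fun i => (x i : ℂ)) P := by
    intro P
    have h1 := MvPolynomial.comp_aeval_apply (fun i => (xs i : S)) S.val P
    exact h1
  obtain ⟨M, hM⟩ := Ideal.exists_maximal S
  let hKf : Field (S ⧸ M) := Ideal.Quotient.field M
  have hKt : Algebra.FiniteType F (S ⧸ M) := Algebra.FiniteType.of_surjective (Ideal.Quotient.mkₐ F M)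
    (Ideal.Quotient.mkₐ_surjective F M)
  have hKfin : Module.Finite F (S ⧸ M) := finite_of_finite_type_of_isJacobsonRing F (S ⧸ M)
  have hKn : NumberField (S ⧸ M) := NumberField.of_module_finite F (S ⧸ M)
  have hz : ∀ P : MvPolynomial κ F, aeval (fun i => ((Units.map (Ideal.Quotient.mk M).toMonoidHom (xs i) :
      (S ⧸ M)ˣ) : S ⧸ M)) P = Ideal.Quotient.mk M (aeval (fun i => (xs i : S)) P) := by
    intro P
    exact (MvPolynomial.comp_aeval_apply (fun i => (xs i : S)) (Ideal.Quotient.mkₐ F M) P).symm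
  refine ⟨S ⧸ M, hKf, hKn, inferInstance, fun i => Units.map (Ideal.Quotient.mk M).toMonoidHom (xs i),
    ?_, ?_, ?_⟩
  · intro P hP
    rw [hz]
    have h1 : aeval (fun i => (xs i : S)) P = 0 := by
      apply Subtype.ext
      rw [hval, hP]
      rfl
    rw [h1, map_zero]
  · rw [hz]
    intro h0
    have h1 : aeval (fun i => (xs i : S)) Q * ⟨q⁻¹, hqi⟩ = 1 := by
      apply Subtype.ext
      show ((aeval (fun i => (xs i : S)) Q : S) : ℂ) * q⁻¹ = 1
      rw [hval, ← hq, mul_inv_cancel₀ hQ]
    have h2 := congrArg (Ideal.Quotient.mk M) h1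
    rw [map_mul, h0, zero_mul, map_one] at h2
    exact zero_ne_one h2
  · intro n i m h
    have h1 : ∏ j, xs (i j) ^ m j = 1 := by
      have hinj : Function.Injective (Units.map (S.val : S →* ℂ)) := by
        intro a b hab
        apply Units.ext
        apply Subtype.ext
        exact congrArg Units.val hab
      apply hinj
      rw [map_prod, map_one, ← h]
      refine Finset.prod_congr rfl (fun j _ => ?_)
      rw [map_zpow]
      congr 1
    have h2 := congrArg (Units.map (Ideal.Quotient.mk M).toMonoidHom) h1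
    rw [map_prod, map_one] at h2
    rw [← h2]
    refine Finset.prod_congr rfl (fun j _ => ?_)
    rw [map_zpow]

end Pool.Agent.ZL2
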