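import Pool.Agent.ZL2.Main3
import Pool.Agent.ZL2.Desc
import Pool.Agent.MP_dd1803_nt.Interface

open MvPolynomial Pool.Agent.MP_dd1803_nt

namespace Pool.Agent.ZL2

/-- The product of the `k` lines `a_i x_i + b_i y_i = 1` in the torus of dimension `2k`. -/
def Lines {k : ℕ} (a b : Fin k → ℂ) : Set (Fin k ⊕ Fin k → ℂˣ) :=
  {x | ∀ i, a i * (x (Sum.inl i) : ℂ) + b i * (x (Sum.inr i) : ℂ) = 1}

section Rel

variable {κ : Type} [Fintype κ]

theorem rel_of_special {T : Set (κ → ℂˣ)} (hT : Special T) (hdm : dm T ≤ 2) {x : κ → ℂˣ} (hx : x ∈ T)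
    (i : Fin 3 → κ) : ∃ n : Fin 3 → ℤ, n ≠ 0 ∧ ∏ l, x (i l) ^ n l = 1 := by
  classical
  by_cases hi : Function.Injective i
  · have htd : td ℂ T ≤ 2 := by
      rw [dm_irr hT.irr] at hdm
      exact_mod_cast hdm
    have hcd := hT.cd
    unfold Pool.Agent.MP_dd1803_nt.cd Pool.Agent.MP_dd1803_nt.rk at hcd
    set R : Set κ := Set.range i with hR
    let f : Lam T →ₗ[ℤ] (↥(Rᶜ : Set κ) → ℤ) :=
      (LinearMap.funLeft ℤ ℤ (Subtype.val : ↥(Rᶜ : Set κ) → κ)).comp (Lam T).subtype
    have hRc : Fintype.card ↥(Rᶜ : Set κ) + 3 = Fintype.card κ := by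
      have h1 : Fintype.card R = 3 := by
        rw [← Nat.card_eq_fintype_card, hR, Nat.card_range_of_injective hi, Nat.card_eq_fintype_card,
          Fintype.card_fin]
      have h2 := Fintype.card_compl_set R
      have h3 := Fintype.card_subtype_le (fun j => j ∈ R)
      have h4 : Fintype.card {j // j ∈ R} = Fintype.card R := rfl
      omega
    have h1 := finrank_le_ker_add f
    have h2 : Module.finrank ℤ (LinearMap.range f) ≤ Fintype.card ↥(Rᶜ : Set κ) := by
      refine (Submodule.finrank_le _).trans ?_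
      rw [Module.finrank_fintype_fun_eq_card]
    have h3 : 0 < Module.finrank ℤ (LinearMap.ker f) := by omega
    have h4 : Nontrivial (LinearMap.ker f) := Module.nontrivial_of_finrank_pos h3
    obtain ⟨w, hw⟩ := exists_ne (0 : LinearMap.ker f)
    have hw0 : ((w : Lam T) : κ → ℤ) ≠ 0 := by
      intro h
      apply hw
      exact Subtype.ext (Subtype.ext h)
    obtain ⟨m, hm⟩ : ∃ m : κ → ℤ, m = ((w : Lam T) : κ → ℤ) := ⟨_, rfl⟩
    rw [← hm] at hw0
    have hmL : m ∈ Lam T := hm ▸ (w : Lam T).2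
    have hms : ∀ j, j ∉ R → m j = 0 := by
      intro j hj
      have := congrFun (LinearMap.mem_ker.1 w.2) ⟨j, hj⟩
      rw [hm]
      exact this
    obtain ⟨N, hN, hNx⟩ := mem_Lam.1 hmL
    have h5 := hNx x hx
    have hch : ch m x = ∏ l, x (i l) ^ m (i l) := by
      unfold ch
      have e1 : ∏ j, x j ^ m j = ∏ j ∈ Finset.univ.image i, x j ^ m j := by
        symm
        refine Finset.prod_subset (Finset.subset_univ _) fun j _ hj => ?_
        rw [hms j (fun h => hj (by
          obtain ⟨l, hl⟩ := h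
          exact Finset.mem_image.2 ⟨l, Finset.mem_univ _, hl⟩)), zpow_zero]
      rw [e1, Finset.prod_image fun _ _ _ _ h => hi h]
    refine ⟨fun l => (N : ℤ) * m (i l), ?_, ?_⟩
    · intro h
      apply hw0
      funext j
      by_cases hj : j ∈ R
      · obtain ⟨l, rfl⟩ := hj
        have := congrFun h l
        simp only [Pi.zero_apply, mul_eq_zero] at this
        rcases this with h | h
        · exact absurd (by exact_mod_cast h : N = 0) hN.ne'
        · exact h
      · exact hms j hj
    · rw [hch, ← Finset.prod_pow] at h5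
      rw [← h5]
      refine Finset.prod_congr rfl fun l _ => ?_
      show x (i l) ^ ((N : ℤ) * m (i l)) = _
      rw [mul_comm (N : ℤ), zpow_mul, zpow_natCast]
  · obtain ⟨l, l', h, hne⟩ : ∃ l l', i l = i l' ∧ l ≠ l' := by
      unfold Function.Injective at hi
      push Not at hi
      exact hi
    refine ⟨Pi.single l 1 - Pi.single l' 1, ?_, ?_⟩
    · intro h0
      have := congrFun h0 l
      simp [hne] at this
    · have e : ∀ m, x (i m) ^ ((Pi.single l 1 - Pi.single l' 1 : Fin 3 → ℤ) m) =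
          (x (i m) ^ (Pi.single l 1 : Fin 3 → ℤ) m) * (x (i m) ^ (Pi.single l' 1 : Fin 3 → ℤ) m)⁻¹ := by
        intro m
        rw [Pi.sub_apply, zpow_sub]
      simp_rw [e]
      rw [Finset.prod_mul_distrib, Finset.prod_inv_distrib]
      have e2 : ∀ l, ∏ m, x (i m) ^ (Pi.single l 1 : Fin 3 → ℤ) m = x (i l) := by
        intro l
        rw [Finset.prod_eq_single l]
        · simp
        · intro m _ hm
          simp [hm]
        · simp
      rw [e2, e2, h, mul_inv_cancel]

end Rel

section Dim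

variable {k : ℕ} {a b : Fin k → ℂ}

theorem zclosed_Lines (a b : Fin k → ℂ) : ZClosed (Lines a b) := by
  refine ⟨Set.range fun i => C (a i) * X (Sum.inl i) + C (b i) * X (Sum.inr i) - 1, ?_⟩
  ext x
  simp only [Lines, Set.mem_ofPred_eq, Set.forall_mem_range, map_sub, map_add, map_mul, eval_C,
    eval_X, map_one, sub_eq_zero]

theorem exists_basis_Lines (hb : ∀ i, b i ≠ 0) {Z : Set (Fin k ⊕ Fin k → ℂˣ)} (hZ : Irr Z)
    (h : Z ⊆ Lines a b) : ∃ s ⊆ Set.range (Sum.inl : Fin k → Fin k ⊕ Fin k), Ind ℂ Z s ∧ s.ncard = td ℂ Z := by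
  have hP := vI_isPrime (k := ℂ) hZ.pirr
  have hne : Nontrivial (MvPolynomial (Fin k ⊕ Fin k) ℂ ⧸ vI ℂ Z) := inferInstance
  refine exists_basis (k := ℂ) hZ.pirr (Set.range Sum.inl) fun i => ?_
  rcases i with i | i
  · exact isAlgebraic_algebraMap (⟨gen ℂ Z (Sum.inl i), Algebra.subset_adjoin ⟨_, ⟨i, rfl⟩, rfl⟩⟩ :
      Algebra.adjoin ℂ (gen ℂ Z '' Set.range Sum.inl))
  · have h2 : gen ℂ Z (Sum.inr i) = (b i)⁻¹ • (1 - a i • gen ℂ Z (Sum.inl i)) := by
      have h3 : (X (Sum.inr i) - (b i)⁻¹ • (1 - a i • X (Sum.inl i)) : MvPolynomial (Fin k ⊕ Fin k) ℂ) ∈ vI ℂ Z := by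
        rw [mem_vI]
        intro y hy
        have h5 := h hy i
        rw [map_sub, map_smul, map_sub, map_smul, aeval_X, aeval_X, map_one, sub_eq_zero]
        simp only [co_apply, smul_eq_mul]
        rw [← h5]
        field_simp [hb i]
        ring
      have h4 := Ideal.Quotient.eq_zero_iff_mem.mpr h3
      have h5 : Ideal.Quotient.mkₐ ℂ (vI ℂ Z) (X (Sum.inr i) - (b i)⁻¹ • (1 - a i • X (Sum.inl i))) = 0 := h4
      rw [map_sub, map_smul, map_sub, map_smul, map_one, sub_eq_zero] at h5
      exact h5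
    have h3 : gen ℂ Z (Sum.inr i) ∈ Algebra.adjoin ℂ (gen ℂ Z '' Set.range Sum.inl) := by
      rw [h2]
      have h6 : gen ℂ Z (Sum.inl i) ∈ Algebra.adjoin ℂ (gen ℂ Z '' Set.range Sum.inl) :=
        Algebra.subset_adjoin ⟨_, ⟨i, rfl⟩, rfl⟩
      exact Subalgebra.smul_mem _ (Subalgebra.sub_mem _ (Subalgebra.one_mem _)
        (Subalgebra.smul_mem _ h6 _)) _
    exact isAlgebraic_algebraMap (⟨_, h3⟩ : Algebra.adjoin ℂ (gen ℂ Z '' Set.range Sum.inl))

theorem Lines_nonempty (ha : ∀ i, a i ≠ 0) (hb : ∀ i, b i ≠ 0) : (Lines a b).Nonempty := by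
  have h2 : (2 : ℂ) ≠ 0 := two_ne_zero
  refine ⟨Sum.elim (fun i => Units.mk0 ((2 * a i)⁻¹) (inv_ne_zero (mul_ne_zero h2 (ha i))))
    (fun i => Units.mk0 ((2 * b i)⁻¹) (inv_ne_zero (mul_ne_zero h2 (hb i)))), ?_⟩
  intro i
  have h3 := ha i
  have h4 := hb i
  simp only [Sum.elim_inl, Sum.elim_inr, Units.val_mk0]
  field_simp
  norm_num

theorem dm_Lines (ha : ∀ i, a i ≠ 0) (hb : ∀ i, b i ≠ 0) : dm (Lines a b) = (k : WithBot ℕ∞) := by
  obtain ⟨d, hd, _, h1, Z, hZ, hZV, h2⟩ := exists_dm (Lines_nonempty ha hb)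
  rw [hd]
  have h3 : d ≤ k := by
    rw [← h2]
    obtain ⟨s, hs, _, hc⟩ := exists_basis_Lines hb hZ hZV
    rw [← hc]
    refine (Set.ncard_le_ncard hs).trans ?_
    rw [← Set.image_univ, Set.ncard_image_of_injective _ Sum.inl_injective, Set.ncard_univ,
      Nat.card_eq_fintype_card, Fintype.card_fin]
  have h4 : k ≤ d := by
    obtain ⟨x, hx⟩ := Lines_nonempty ha hb
    have h5 : Lines a b = Set.univ ∩ {x | ∀ i ∈ (Finset.univ : Finset (Fin k)),
        aeval (co x) (C (a i) * X (Sum.inl i) + C (b i) * X (Sum.inr i) - 1 :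
          MvPolynomial (Fin k ⊕ Fin k) ℂ) = 0} := by
      ext y
      simp only [Lines, Set.mem_inter_iff, Set.mem_univ, true_and, Finset.mem_univ, true_implies,
        Set.mem_ofPred_eq, map_sub, map_add, map_mul, aeval_X, map_one, sub_eq_zero, aeval_C]
      rfl
    obtain ⟨Y, hY, _⟩ := exists_comp_mem (zclosed_Lines a b) hx
    have hY' := hY
    rw [h5] at hY'
    have h6 := krull_list Finset.univ _ irr_univ hY'
    rw [td_univ] at h6
    have h7 := h1 Y hY.irr hY.subset
    simp only [Fintype.card_sum, Fintype.card_fin, Finset.card_univ] at h6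
    omega
  have h5 : d = k := le_antisymm h3 h4
  rw [h5]

end Dim

theorem aeval_X_int (P : MvPolynomial (Fin 3) ℤ) :
    aeval (X : Fin 3 → MvPolynomial (Fin 3) ℂ) P = map (Int.castRingHom ℂ) P := by
  induction P using MvPolynomial.induction_on with
  | C c => simp
  | add p q hp hq => rw [map_add, map_add, hp, hq]
  | mul_X p i hp => rw [map_mul, map_mul, hp, aeval_X, map_X]

/-- The main theorem: the points of a product of lines over the algebraic numbers which lie in
special subvarieties of dimension at most two lie in a closed subset of dimension at most two. -/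
theorem main {k : ℕ} (a b : Fin k → ℂ) (ha : ∀ i, a i ≠ 0) (hb : ∀ i, b i ≠ 0)
    (haa : ∀ i, IsAlgebraic ℚ (a i)) (hbb : ∀ i, IsAlgebraic ℚ (b i)) :
    ∃ Z : Set (Fin k ⊕ Fin k → ℂˣ), ZClosed Z ∧ Z ⊆ Lines a b ∧ dm Z ≤ 2 ∧
      ∀ T, Special T → dm T ≤ 2 → Lines a b ∩ T ⊆ Z := by
  classical
  -- the number field of the coefficients
  set S : Set ℂ := Set.range a ∪ Set.range b with hS
  have hSfin : S.Finite := (Set.finite_range a).union (Set.finite_range b)
  have hSalg : ∀ z ∈ S, IsIntegral ℚ z := by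
    rintro z (⟨i, rfl⟩ | ⟨i, rfl⟩)
    · exact (haa i).isIntegral
    · exact (hbb i).isIntegral
  have : Finite S := hSfin
  let F : IntermediateField ℚ ℂ := IntermediateField.adjoin ℚ S
  have hFfin : FiniteDimensional ℚ F := IntermediateField.finiteDimensional_adjoin hSalg
  have hFn : NumberField F := ⟨⟩
  let a' : Fin k → F := fun i => ⟨a i, IntermediateField.subset_adjoin ℚ S (Or.inl ⟨i, rfl⟩)⟩
  let b' : Fin k → F := fun i => ⟨b i, IntermediateField.subset_adjoin ℚ S (Or.inr ⟨i, rfl⟩)⟩
  have ha' : ∀ i, a' i ≠ 0 := fun i h => ha i (congrArg Subtype.val h)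
  have hb' : ∀ i, b' i ≠ 0 := fun i h => hb i (congrArg Subtype.val h)
  -- the polynomials
  have hmain := fun e : Fin 3 → Fin k => main3 (F := F) (fun j => a' (e j)) (fun j => b' (e j))
    (fun j => ha' _) (fun j => hb' _)
  choose PP hPP hmain using hmain
  let Qe : (Fin 3 → Fin k) → MvPolynomial (Fin k ⊕ Fin k) F := fun e =>
    ∏ P ∈ PP e, aeval (fun j => C (a' (e j)) * X (Sum.inl (e j))) P
  have hQe : ∀ (e : Fin 3 → Fin k) (K : Type) [Field K] [Algebra F K] (z : Fin k ⊕ Fin k → K),
      aeval z (Qe e) = ∏ P ∈ PP e, aeval (fun j => algebraMap F K (a' (e j)) * z (Sum.inl (e j))) P := by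
    intro e K _ _ z
    rw [map_prod]
    refine Finset.prod_congr rfl fun P _ => ?_
    have h1 : (aeval z (aeval (fun j => C (a' (e j)) * X (Sum.inl (e j)) :
        Fin 3 → MvPolynomial (Fin k ⊕ Fin k) F) P) : K) =
        aeval (fun j => aeval z (C (a' (e j)) * X (Sum.inl (e j)) : MvPolynomial (Fin k ⊕ Fin k) F)) P :=
      (MvPolynomial.comp_aeval_apply _ ((aeval z : MvPolynomial (Fin k ⊕ Fin k) F →ₐ[F] K).restrictScalars ℤ) P)
    rw [h1]
    congr 2
    funext j
    rw [map_mul, aeval_X, aeval_C]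
  refine ⟨Lines a b ∩ zl F (Set.range fun e : Fin 3 ↪ Fin k => Qe e), (zclosed_Lines a b).inter
    (zclosed_zl _), Set.inter_subset_left, ?_, ?_⟩
  · -- dimension
    by_cases hne : (Lines a b ∩ zl F (Set.range fun e : Fin 3 ↪ Fin k => Qe e)).Nonempty
    · obtain ⟨d, hd, _, _, Y, hY, hYV, hY2⟩ := exists_dm hne
      rw [hd]
      have h1 : d ≤ 2 := by
        by_contra hcon
        push Not at hcon
        obtain ⟨s, hs, hInd, hc⟩ := exists_basis_Lines hb hY (hYV.trans Set.inter_subset_left)
        have hcard : 3 ≤ s.ncard := by omega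
        obtain ⟨t, hts, htc⟩ := Set.exists_subset_card_eq hcard
        have htfin : Finite t := Set.toFinite t
        have htcard : Nat.card t = 3 := htc
        let eqv : Fin 3 ≃ t := (Finite.equivFinOfCardEq htcard).symm
        have hin : ∀ j : Fin 3, ∃ i : Fin k, Sum.inl i = ((eqv j : t) : Fin k ⊕ Fin k) := by
          intro j
          obtain ⟨i, hi⟩ := hs (hts (eqv j).2)
          exact ⟨i, hi⟩
        choose e he using hin
        have hei : Function.Injective e := by
          intro j l hjl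
          have h3 := he j
          rw [hjl, he l] at h3
          exact eqv.injective (Subtype.ext h3.symm)
        have hIndF : IndF ℂ Y (fun j => Sum.inl (e j)) := by
          rw [indF_iff]
          rw [ind_iff] at hInd
          have h4 := hInd.comp (fun j : Fin 3 => (⟨(eqv j : t), hts (eqv j).2⟩ : s)) (by
            intro j l hjl
            exact eqv.injective (Subtype.ext (congrArg (fun z : s => (z : Fin k ⊕ Fin k)) hjl)))
          have h5 : (fun i : Fin 3 => gen ℂ Y (Sum.inl (e i))) =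
              (fun i : s => gen ℂ Y i) ∘ (fun j : Fin 3 => (⟨(eqv j : t), hts (eqv j).2⟩ : s)) := by
            funext j
            simp only [Function.comp_apply, he]
          rw [h5]
          exact h4
        -- the product polynomial
        let R : MvPolynomial (Fin 3) ℂ := ∏ P ∈ PP e, aeval (fun j => C (a (e j)) * X j) P
        have hR0 : R = 0 := by
          apply hIndF R
          intro x hx
          have h6 := (hYV hx).2 (Qe e) ⟨⟨e, hei⟩, rfl⟩
          rw [hQe] at h6
          rw [← h6, map_prod]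
          refine Finset.prod_congr rfl fun P _ => ?_
          have h1 : (aeval (fun j => co x (Sum.inl (e j))) (aeval (fun j => C (a (e j)) * X j :
              Fin 3 → MvPolynomial (Fin 3) ℂ) P) : ℂ) =
              aeval (fun j => aeval (fun j => co x (Sum.inl (e j))) (C (a (e j)) * X j : MvPolynomial (Fin 3) ℂ)) P :=
            (MvPolynomial.comp_aeval_apply _ ((aeval (fun j => co x (Sum.inl (e j))) :
              MvPolynomial (Fin 3) ℂ →ₐ[ℂ] ℂ).restrictScalars ℤ) P)
          rw [h1]
          congr 2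
          funext j
          rw [map_mul, aeval_X, aeval_C]
          rfl
        rw [Finset.prod_eq_zero_iff] at hR0
        obtain ⟨P, hP, hP0⟩ := hR0
        apply hPP e P hP
        have hinj : Function.Injective (Int.castRingHom ℂ) := Int.cast_injective
        apply MvPolynomial.map_injective (Int.castRingHom ℂ) hinj
        rw [map_zero]
        -- undo the scaling
        have h7 := congrArg (aeval (fun j => C ((a (e j))⁻¹) * X j : Fin 3 → MvPolynomial (Fin 3) ℂ)) hP0
        rw [map_zero] at h7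
        have h8 : (aeval (fun j => C ((a (e j))⁻¹) * X j : Fin 3 → MvPolynomial (Fin 3) ℂ))
            (aeval (fun j => C (a (e j)) * X j : Fin 3 → MvPolynomial (Fin 3) ℂ) P) =
            aeval (fun j => aeval (fun j => C ((a (e j))⁻¹) * X j : Fin 3 → MvPolynomial (Fin 3) ℂ)
              (C (a (e j)) * X j : MvPolynomial (Fin 3) ℂ)) P :=
          (MvPolynomial.comp_aeval_apply _ ((aeval (fun j => C ((a (e j))⁻¹) * X j) :
              MvPolynomial (Fin 3) ℂ →ₐ[ℂ] MvPolynomial (Fin 3) ℂ).restrictScalars ℤ) P)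
        rw [h8] at h7
        have h9 : (fun j => aeval (fun j => C ((a (e j))⁻¹) * X j : Fin 3 → MvPolynomial (Fin 3) ℂ)
              (C (a (e j)) * X j : MvPolynomial (Fin 3) ℂ)) = X := by
          funext j
          rw [map_mul, aeval_X, aeval_C, MvPolynomial.algebraMap_eq, ← mul_assoc, ← C_mul,
            mul_inv_cancel₀ (ha _), C_1, one_mul]
        rw [h9] at h7
        rw [← h7, aeval_X_int]
      exact_mod_cast h1
    · rw [Set.not_nonempty_iff_eq_empty] at hne
      rw [hne]
      have : IsEmpty {Y : Set (Fin k ⊕ Fin k → ℂˣ) // Irr Y ∧ Y ⊆ (∅ : Set (Fin k ⊕ Fin k → ℂˣ))} := by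
        constructor
        rintro ⟨Y, hY, hY0⟩
        obtain ⟨y, hy⟩ := hY.nonempty
        exact hY0 hy
      unfold dm
      rw [Order.krullDim_eq_bot]
      exact bot_le
  · -- the points
    rintro T hT hdm x ⟨hxV, hxT⟩
    refine ⟨hxV, ?_⟩
    rintro _ ⟨e, rfl⟩
    by_contra hcon
    obtain ⟨K, iK1, iK2, iK3, z, hz1, hz2, hz3⟩ := descent (F := F) x (Qe e) hcon
    have hline : ∀ i, algebraMap F K (a' i) * (z (Sum.inl i) : K) + algebraMap F K (b' i) * (z (Sum.inr i) : K) = 1 := by
      intro i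
      have h1 := hz1 (C (a' i) * X (Sum.inl i) + C (b' i) * X (Sum.inr i) - 1) (by
        rw [map_sub, map_add, map_mul, map_mul, aeval_X, aeval_X, aeval_C, aeval_C, map_one, sub_eq_zero]
        exact hxV i)
      rwa [map_sub, map_add, map_mul, map_mul, aeval_X, aeval_X, aeval_C, aeval_C, map_one,
        sub_eq_zero] at h1
    obtain ⟨P, hP, hP0⟩ := hmain e K (fun j => (z (Sum.inl (e j)) : K)) (fun j => (z (Sum.inr (e j)) : K))
      (fun j => (z _).ne_zero) (fun j => (z _).ne_zero) (fun j => hline (e j)) (by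
        intro i
        let i' : Fin 3 → Fin k ⊕ Fin k := fun l => if (i l).2 = 0 then Sum.inl (e (i l).1) else Sum.inr (e (i l).1)
        obtain ⟨n, hn, hprod⟩ := rel_of_special hT hdm hxT i'
        refine ⟨n, hn, ?_⟩
        have h1 := hz3 3 i' n hprod
        have h2 := congrArg (Units.val) h1
        rw [Units.coe_prod, Units.val_one] at h2
        rw [← h2]
        refine Finset.prod_congr rfl fun l _ => ?_
        rw [Units.val_zpow_eq_zpow_val]
        congr 1
        simp only [cc, i']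
        split_ifs <;> rfl)
    apply hz2
    rw [hQe]
    exact Finset.prod_eq_zero hP hP0

end Pool.Agent.ZL2
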