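import Pool.Agent.ZL2.Geom
import Pool.Agent.MP_dd1803_nt.Tr.Point

open MvPolynomial Pool.Agent.MP_dd1803_nt

namespace Pool.Agent.ZL2

/-- A line meets a one-dimensional coset in finitely many points. -/
theorem fin_sol {α β : ℂ} (hα : α ≠ 0) (hβ : β ≠ 0) {n n' : ℤ} (hn : n ≠ 0 ∨ n' ≠ 0) (c : ℂ)
    (hc : c ≠ 0) : {x : ℂ | x ≠ 0 ∧ ∃ y : ℂ, y ≠ 0 ∧ α * x + β * y = 1 ∧ x ^ n * y ^ n' = c}.Finite := by
  obtain ⟨A, hA⟩ : ∃ A : ℕ, A = n.toNat := ⟨_, rfl⟩
  obtain ⟨C, hC⟩ : ∃ C : ℕ, C = (-n).toNat := ⟨_, rfl⟩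
  obtain ⟨B, hB⟩ : ∃ B : ℕ, B = n'.toNat := ⟨_, rfl⟩
  obtain ⟨D, hD⟩ : ∃ D : ℕ, D = (-n').toNat := ⟨_, rfl⟩
  let P : Polynomial ℂ := Polynomial.C (β ^ D) * Polynomial.X ^ A * (1 - Polynomial.C α * Polynomial.X) ^ B -
    Polynomial.C (c * β ^ B) * Polynomial.X ^ C * (1 - Polynomial.C α * Polynomial.X) ^ D
  have hev : ∀ t, P.eval t = β ^ D * t ^ A * (1 - α * t) ^ B - c * β ^ B * t ^ C * (1 - α * t) ^ D := by
    intro t
    simp [P]
  have hP : P ≠ 0 := by
    intro h0
    have h1 := hev 0
    have h2 := hev (α⁻¹)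
    rw [h0, Polynomial.eval_zero] at h1 h2
    rw [mul_zero, sub_zero, one_pow, one_pow, mul_one, mul_one] at h1
    rw [mul_inv_cancel₀ hα, sub_self] at h2
    rcases lt_trichotomy n 0 with h | h | h
    · have e1 : A = 0 := by omega
      have e2 : C ≠ 0 := by omega
      rw [e1, pow_zero, zero_pow e2, mul_one, mul_zero, sub_zero] at h1
      exact pow_ne_zero _ hβ h1.symm
    · have e1 : A = 0 := by omega
      have e2 : C = 0 := by omega
      have h3 : n' ≠ 0 := by
        rcases hn with h' | h'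
        · exact absurd h h'
        · exact h'
      simp only [e1, e2, pow_zero, mul_one] at h2
      rcases lt_or_gt_of_ne h3 with h' | h'
      · have e3 : B = 0 := by omega
        have e4 : D ≠ 0 := by omega
        rw [e3, pow_zero, zero_pow e4, mul_one, mul_zero, sub_zero] at h2
        exact pow_ne_zero _ hβ h2.symm
      · have e3 : D = 0 := by omega
        have e4 : B ≠ 0 := by omega
        simp only [e3, zero_pow e4, pow_zero, mul_one, mul_zero, zero_sub] at h2
        exact mul_ne_zero hc (pow_ne_zero _ hβ) (neg_eq_zero.1 h2.symm)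
    · have e1 : C = 0 := by omega
      have e2 : A ≠ 0 := by omega
      rw [e1, pow_zero, zero_pow e2, mul_one, mul_zero, zero_sub] at h1
      exact mul_ne_zero hc (pow_ne_zero _ hβ) (neg_eq_zero.1 h1.symm)
  refine (Polynomial.finite_setOf_isRoot hP).subset ?_
  rintro x ⟨hx, y, hy, hxy, hprod⟩
  show P.eval x = 0
  rw [hev]
  have h1 : 1 - α * x = β * y := by linear_combination -hxy
  have h2 : x ^ A * y ^ B = c * (x ^ C * y ^ D) := by
    have e1 : n = (A : ℤ) - C := by omega
    have e2 : n' = (B : ℤ) - D := by omega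
    rw [e1, e2, zpow_sub₀ hx, zpow_sub₀ hy, zpow_natCast, zpow_natCast, zpow_natCast, zpow_natCast] at hprod
    have h3 : x ^ C ≠ 0 := pow_ne_zero _ hx
    have h4 : y ^ D ≠ 0 := pow_ne_zero _ hy
    field_simp at hprod
    linear_combination hprod
  rw [h1, mul_pow, mul_pow]
  linear_combination β ^ D * β ^ B * h2

section Irr

variable {k : ℕ} {a b : Fin k → ℂ}

theorem irr_Lines (ha : ∀ i, a i ≠ 0) (hb : ∀ i, b i ≠ 0) : Irr (Lines a b) := by
  classical
  let φ : MvPolynomial (Fin k ⊕ Fin k) ℂ →ₐ[ℂ] MvPolynomial (Fin k) ℂ :=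
    aeval (Sum.elim (fun i => X i) (fun i => C ((b i)⁻¹) * (1 - C (a i) * X i)))
  have hφl : ∀ i, φ (X (Sum.inl i)) = X i := fun i => by simp [φ]
  have hφr : ∀ i, φ (X (Sum.inr i)) = C ((b i)⁻¹) * (1 - C (a i) * X i) := fun i => by simp [φ]
  have hprime : (RingHom.ker φ).IsPrime := RingHom.ker_isPrime φ
  have hX : ∀ i, (X i : MvPolynomial (Fin k ⊕ Fin k) ℂ) ∉ RingHom.ker φ := by
    intro i hi
    rw [RingHom.mem_ker] at hi
    rcases i with i | i
    · rw [hφl] at hi
      exact X_ne_zero _ hi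
    · rw [hφr] at hi
      have h1 := congrArg (eval (0 : Fin k → ℂ)) hi
      simp [hb i] at h1
  have h := irr_zl (F := ℂ) (RingHom.ker φ) hX
  have e : Lines a b = zl (F := ℂ) ℂ (RingHom.ker φ : Set (MvPolynomial (Fin k ⊕ Fin k) ℂ)) := by
    ext x
    rw [mem_zl]
    constructor
    · intro hx p hp
      have h1 : ∀ p, aeval (co x) p = aeval (fun i : Fin k => (x (Sum.inl i) : ℂ)) (φ p) := by
        intro p
        rw [MvPolynomial.comp_aeval_apply]
        congr 1
        congr 1
        funext i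
        rcases i with i | i
        · simp [co]
        · have := hx i
          have h3 := hb i
          simp only [co, Sum.elim_inr, map_mul, map_sub, map_one, aeval_C, aeval_X]
          show (x (Sum.inr i) : ℂ) = (b i)⁻¹ * (1 - a i * (x (Sum.inl i) : ℂ))
          field_simp
          linear_combination this
      rw [h1, (RingHom.mem_ker.1 hp : φ p = 0), map_zero]
    · intro hx i
      have h1 := hx (C (a i) * X (Sum.inl i) + C (b i) * X (Sum.inr i) - 1) (by
        rw [SetLike.mem_coe, RingHom.mem_ker, map_sub, map_add, map_mul, map_mul, hφl, hφr, map_one]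
        have e1 : φ (C (a i)) = C (a i) := by simp [φ]
        have e2 : φ (C (b i)) = C (b i) := by simp [φ]
        rw [e1, e2, ← mul_assoc, ← C_mul, mul_inv_cancel₀ (hb i), C_1]
        ring)
      rw [map_sub, map_add, map_mul, map_mul, aeval_X, aeval_X, aeval_C, aeval_C, map_one, sub_eq_zero] at h1
      exact h1
  rw [e]
  exact h

theorem td_Lines (ha : ∀ i, a i ≠ 0) (hb : ∀ i, b i ≠ 0) : td ℂ (Lines a b) = k := by
  have h1 := dm_Lines ha hb
  rw [dm_irr (irr_Lines ha hb)] at h1
  exact_mod_cast h1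

theorem rk_Lines (ha : ∀ i, a i ≠ 0) (hb : ∀ i, b i ≠ 0) : rk (Lines a b) = 0 := by
  classical
  have h0 : Lam (Lines a b) = ⊥ := by
    rw [Submodule.eq_bot_iff]
    intro m hm
    by_contra hne
    obtain ⟨j, hj⟩ : ∃ j, m (Sum.inl j) ≠ 0 ∨ m (Sum.inr j) ≠ 0 := by
      by_contra hcon
      push Not at hcon
      apply hne
      funext i
      rcases i with i | i
      · exact (hcon i).1
      · exact (hcon i).2
    obtain ⟨N, hN, hm⟩ := hm
    obtain ⟨p, hp⟩ := Lines_nonempty ha hb
    -- the moving point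
    have hN' : (N : ℤ) ≠ 0 := by exact_mod_cast hN.ne'
    let c : ℂˣ := ((∏ i ∈ Finset.univ.erase (Sum.inl j : Fin k ⊕ Fin k) |>.erase (Sum.inr j),
      p i ^ m i) ^ N)⁻¹
    have hfin := fin_sol (ha j) (hb j) (n := (N : ℤ) * m (Sum.inl j)) (n' := (N : ℤ) * m (Sum.inr j))
      (by
        rcases hj with h | h
        · exact Or.inl (mul_ne_zero hN' h)
        · exact Or.inr (mul_ne_zero hN' h)) (c : ℂ) c.ne_zero
    have hinf : ({0, (a j)⁻¹} : Set ℂ)ᶜ.Infinite := Set.Finite.infinite_compl (Set.toFinite _)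
    apply hinf
    refine hfin.subset ?_
    intro t ht
    simp only [Set.mem_compl_iff, Set.mem_insert_iff, Set.mem_singleton_iff, not_or] at ht
    obtain ⟨ht0, ht1⟩ := ht
    have hy0 : (b j)⁻¹ * (1 - a j * t) ≠ 0 := by
      refine mul_ne_zero (inv_ne_zero (hb j)) ?_
      intro h
      apply ht1
      have h3 := ha j
      field_simp
      linear_combination -h
    refine ⟨ht0, (b j)⁻¹ * (1 - a j * t), hy0, ?_, ?_⟩
    · have h3 := hb j
      field_simp
      ring
    · let q : Fin k ⊕ Fin k → ℂˣ := Function.update (Function.update p (Sum.inl j) (Units.mk0 t ht0))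
        (Sum.inr j) (Units.mk0 _ hy0)
      have hql : q (Sum.inl j) = Units.mk0 t ht0 := by
        simp only [q]
        rw [Function.update_of_ne (by simp), Function.update_self]
      have hqr : q (Sum.inr j) = Units.mk0 _ hy0 := Function.update_self _ _ _
      have hqo : ∀ i, i ≠ Sum.inl j → i ≠ Sum.inr j → q i = p i := by
        intro i h1 h2
        simp only [q]
        rw [Function.update_of_ne h2, Function.update_of_ne h1]
      have hq : q ∈ Lines a b := by
        intro i
        by_cases hi : i = j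
        · subst hi
          rw [hql, hqr, Units.val_mk0, Units.val_mk0]
          have h3 := hb i
          field_simp
          ring
        · rw [hqo _ (by simpa using hi) (by simp), hqo _ (by simp) (by simpa using hi)]
          exact hp i
      have h1 := hm q hq
      have h2 : ch m q = q (Sum.inl j) ^ m (Sum.inl j) * (q (Sum.inr j) ^ m (Sum.inr j) *
          ∏ i ∈ (Finset.univ.erase (Sum.inl j : Fin k ⊕ Fin k)).erase (Sum.inr j), p i ^ m i) := by
        unfold ch
        rw [← Finset.mul_prod_erase Finset.univ _ (Finset.mem_univ (Sum.inl j : Fin k ⊕ Fin k)),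
          ← Finset.mul_prod_erase _ _ (Finset.mem_erase.2 ⟨by simp, Finset.mem_univ (Sum.inr j)⟩)]
        congr 2
        refine Finset.prod_congr rfl fun i hi => ?_
        rw [Finset.mem_erase, Finset.mem_erase] at hi
        rw [hqo i hi.2.1 hi.1]
      rw [h2, ← mul_assoc, mul_pow, mul_pow] at h1
      have h3 : ((q (Sum.inl j) ^ m (Sum.inl j)) ^ N * (q (Sum.inr j) ^ m (Sum.inr j)) ^ N) = c :=
        eq_inv_of_mul_eq_one_left h1
      have h4 := congrArg (Units.val) h3
      rw [hql, hqr] at h4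
      rw [← h4]
      push_cast
      rw [Units.val_mk0, Units.val_mk0, mul_comm (N : ℤ), mul_comm (N : ℤ), zpow_mul, zpow_mul, zpow_natCast,
        zpow_natCast]
  unfold rk
  rw [h0]
  exact finrank_bot ℤ _

end Irr

end Pool.Agent.ZL2
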