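import Pool.Agent.ZL2.Geom2
import Pool.Agent.ZPB.Top

open MvPolynomial Pool.Agent.MP_dd1803_nt Pool.Agent.MP_dd1803_nt.Tr Pool.Agent.ZPA

namespace Pool.Agent.ZL2

section Point

theorem td_singleton' {κ : Type} [Fintype κ] (x : κ → ℂˣ) : td ℂ ({x} : Set (κ → ℂˣ)) = 0 := by
  classical
  obtain ⟨s, hs, hc⟩ := exists_basis' (k := ℂ) (pirr_singleton x)
  rw [← hc, Set.ncard_eq_zero (Set.toFinite s)]
  by_contra hne
  obtain ⟨i, hi⟩ := Set.nonempty_iff_ne_empty.mpr hne
  have h1 := hs (X ⟨i, hi⟩ - C (x i : ℂ)) (by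
    intro y hy
    rw [Set.mem_singleton_iff] at hy
    subst hy
    rw [map_sub, aeval_X, aeval_C, sub_eq_zero]
    rfl)
  have h2 := congrArg (aeval (fun _ : s => (x i : ℂ) + 1)) h1
  rw [map_sub, aeval_X, aeval_C, map_zero] at h2
  simp at h2

/-- An irreducible set on which a coordinate takes finitely many values: the coordinate is constant. -/
theorem const_of_finite {κ : Type} {Y : Set (κ → ℂˣ)} (hY : PIrr Y) (i : κ)
    (h : {t : ℂ | ∃ y ∈ Y, (y i : ℂ) = t}.Finite) (y0 : κ → ℂˣ) (hy0 : y0 ∈ Y) : ∀ y ∈ Y, y i = y0 i := by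
  classical
  have hcl : ∀ t : ℂ, ZClosed {x : κ → ℂˣ | (x i : ℂ) = t} := by
    intro t
    refine ⟨{X i - C t}, ?_⟩
    ext x
    simp [sub_eq_zero]
  obtain ⟨Z, hZ, hYZ⟩ := hY.subset_of_finset (h.toFinset.image fun t => {x : κ → ℂˣ | (x i : ℂ) = t}) (by
    intro Z hZ
    rw [Finset.mem_image] at hZ
    obtain ⟨t, _, rfl⟩ := hZ
    exact hcl t) (by
    intro y hy
    simp only [Set.mem_iUnion]
    refine ⟨{x | (x i : ℂ) = (y i : ℂ)}, ?_, rfl⟩
    rw [Finset.mem_image]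
    refine ⟨(y i : ℂ), ?_, rfl⟩
    rw [Set.Finite.mem_toFinset]
    exact ⟨y, hy, rfl⟩)
  rw [Finset.mem_image] at hZ
  obtain ⟨t, _, rfl⟩ := hZ
  intro y hy
  apply Units.ext
  exact (hYZ hy).trans (hYZ hy0).symm

variable {k : ℕ} {a b : Fin k → ℂ}

/-- A product of lines contains no coset of positive dimension. -/
theorem coset_point (ha : ∀ i, a i ≠ 0) (hb : ∀ i, b i ≠ 0) {X : Set (Fin k ⊕ Fin k → ℂˣ)} (hX : Irr X)
    (hXV : X ⊆ Lines a b) (h : Fintype.card (Fin k ⊕ Fin k) ≤ td ℂ X + ar X) :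
    ∃ P, X = {P} ∧ ∀ i, IsAlgebraic ℚ (P i : ℂ) := by
  classical
  obtain ⟨x0, hx0⟩ := hX.nonempty
  let g : Fin k ⊕ Fin k → ℂˣ := fun i => (x0 i)⁻¹
  have hX' : Irr (tr g '' X) := irr_image_tr g hX
  have htd : td ℂ (tr g '' X) = td ℂ X := by
    have h1 := dm_image_tr g X
    rw [dm_irr hX', dm_irr hX] at h1
    exact_mod_cast h1
  have hch : ∀ (m : Fin k ⊕ Fin k → ℤ) x, ch m (tr g x) = (ch m x0)⁻¹ * ch m x := by
    intro m x
    have h1 : tr g x = g * x := rfl
    rw [h1, ch_mul]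
    congr 1
    simp only [ch, g, inv_zpow, Finset.prod_inv_distrib]
  have hLam : Alat X ≤ Lam (tr g '' X) := by
    rintro m ⟨c, _, hm⟩
    refine ⟨1, one_pos, ?_⟩
    rintro _ ⟨x, hx, rfl⟩
    rw [pow_one, hch, hm x hx, hm x0 hx0, inv_mul_cancel]
  have hrk : ar X ≤ rk (tr g '' X) := Submodule.finrank_mono hLam
  have hone : ∀ x ∈ X, x = x0 := by
    intro x hx
    have hl : ∀ i, x (Sum.inl i) = x0 (Sum.inl i) := by
      intro i
      let e : Fin 2 → Fin k ⊕ Fin k := ![Sum.inl i, Sum.inr i]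
      have he : Function.Injective e := by
        intro u v huv
        fin_cases u <;> fin_cases v <;> simp_all [e]
      have hY : PIrr (pull e '' (tr g '' X)) := hX'.pirr.pull e
      have h1 := cd_pull hX'.pirr he
      have h2 : 2 ≤ cd (pull e '' (tr g '' X)) := by
        have h3 : cd (tr g '' X) = rk (tr g '' X) + td ℂ (tr g '' X) := rfl
        rw [Fintype.card_fin] at h1
        omega
      have hα : a i * (x0 (Sum.inl i) : ℂ) ≠ 0 := mul_ne_zero (ha i) (x0 _).ne_zero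
      have hβ : b i * (x0 (Sum.inr i) : ℂ) ≠ 0 := mul_ne_zero (hb i) (x0 _).ne_zero
      have hyl : ∀ y ∈ pull e '' (tr g '' X), a i * (x0 (Sum.inl i) : ℂ) * (y 0 : ℂ) +
          b i * (x0 (Sum.inr i) : ℂ) * (y 1 : ℂ) = 1 := by
        rintro _ ⟨_, ⟨z, hz, rfl⟩, rfl⟩
        have h3 := hXV hz i
        have e0 : ((pull e (tr g z) 0 : ℂˣ) : ℂ) = (x0 (Sum.inl i) : ℂ)⁻¹ * (z (Sum.inl i) : ℂ) := by
          simp [pull, e, tr, g]
        have e1 : ((pull e (tr g z) 1 : ℂˣ) : ℂ) = (x0 (Sum.inr i) : ℂ)⁻¹ * (z (Sum.inr i) : ℂ) := by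
          simp [pull, e, tr, g]
        rw [e0, e1]
        have h4 := (x0 (Sum.inl i)).ne_zero
        have h5 := (x0 (Sum.inr i)).ne_zero
        field_simp
        exact h3
      have hrk1 : rk (pull e '' (tr g '' X)) ≠ 0 := by
        intro h0
        obtain ⟨s, hs, hc⟩ := exists_basis' (k := ℂ) hY
        have h3 : cd (pull e '' (tr g '' X)) = rk (pull e '' (tr g '' X)) + td ℂ (pull e '' (tr g '' X)) := rfl
        have h4 : 2 ≤ s.ncard := by omega
        have h5 : s = Set.univ := by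
          apply Set.eq_univ_of_forall
          by_contra hcon
          push Not at hcon
          obtain ⟨j, hj⟩ := hcon
          have h6 : s ⊆ {j}ᶜ := fun l hl hlj => hj (by
            rw [Set.mem_singleton_iff] at hlj
            exact hlj ▸ hl)
          have h7 := Set.ncard_le_ncard h6
          have h8 : ({j}ᶜ : Set (Fin 2)).ncard = 1 := by
            rw [Set.ncard_compl, Set.ncard_singleton]
            simp
          omega
        subst h5
        have h6 := hs (C (a i * (x0 (Sum.inl i) : ℂ)) * MvPolynomial.X ⟨0, Set.mem_univ _⟩ +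
          C (b i * (x0 (Sum.inr i) : ℂ)) * MvPolynomial.X ⟨1, Set.mem_univ _⟩ - 1) (by
          intro y hy
          have h7 := hyl y hy
          simp only [map_sub, map_add, aeval_X, aeval_C, map_one, sub_eq_zero, map_mul]
          exact h7)
        have h7 := congrArg (eval (0 : ↥(Set.univ : Set (Fin 2)) → ℂ)) h6
        simp at h7
      obtain ⟨m, hm, hm0⟩ : ∃ m ∈ Lam (pull e '' (tr g '' X)), m ≠ 0 := by
        by_contra hcon
        push Not at hcon
        apply hrk1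
        have h3 : Lam (pull e '' (tr g '' X)) = ⊥ := (Submodule.eq_bot_iff _).2 hcon
        unfold rk
        rw [h3]
        exact finrank_bot ℤ _
      obtain ⟨N, hN, hm⟩ := hm
      have hN' : (N : ℤ) ≠ 0 := by exact_mod_cast hN.ne'
      have hfin := fin_sol hα hβ (n := (N : ℤ) * m 0) (n' := (N : ℤ) * m 1) (by
        by_contra hcon
        rw [not_or, not_not, not_not, mul_eq_zero, mul_eq_zero] at hcon
        apply hm0
        funext j
        fin_cases j
        · exact hcon.1.resolve_left hN'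
        · exact hcon.2.resolve_left hN') 1 one_ne_zero
      have h3 : {t : ℂ | ∃ y ∈ pull e '' (tr g '' X), (y 0 : ℂ) = t}.Finite := by
        refine hfin.subset ?_
        rintro _ ⟨y, hy, rfl⟩
        refine ⟨(y 0).ne_zero, (y 1 : ℂ), (y 1).ne_zero, hyl y hy, ?_⟩
        have h4 := congrArg Units.val (hm y hy)
        unfold ch at h4
        rw [Fin.prod_univ_two, mul_pow] at h4
        push_cast at h4
        rw [mul_comm (N : ℤ), mul_comm (N : ℤ), zpow_mul, zpow_mul, zpow_natCast, zpow_natCast]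
        exact h4
      have h4 := const_of_finite hY 0 h3 _ ⟨_, ⟨x0, hx0, rfl⟩, rfl⟩ _ ⟨_, ⟨x, hx, rfl⟩, rfl⟩
      have h5 : (x0 (Sum.inl i))⁻¹ * x (Sum.inl i) = (x0 (Sum.inl i))⁻¹ * x0 (Sum.inl i) := h4
      exact mul_left_cancel h5
    funext i
    rcases i with i | i
    · exact hl i
    · apply Units.ext
      have h1 := hXV hx i
      have h2 := hXV hx0 i
      rw [hl i] at h1
      have h3 : b i * (x (Sum.inr i) : ℂ) = b i * (x0 (Sum.inr i) : ℂ) := by
        linear_combination h1 - h2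
      exact mul_left_cancel₀ (hb i) h3
  have hXs : X = {x0} := Set.Subset.antisymm (fun x hx => hone x hx) (by
    rw [Set.singleton_subset_iff]
    exact hx0)
  refine ⟨x0, hXs, fun j => ?_⟩
  have htd0 : td ℂ X = 0 := by rw [hXs, td_singleton']
  have hfull : Fintype.card (Fin k ⊕ Fin k) ≤ ar X := by omega
  obtain ⟨n, hn, hmem⟩ : ∃ n : ℤ, n ≠ 0 ∧ n • (Pi.single j 1 : Fin k ⊕ Fin k → ℤ) ∈ Alat X := by
    by_contra hcon
    push Not at hcon
    have h1 := finrank_lt_of_mem (R := ℤ) (Alat X) ⊤ le_top (Pi.single j 1) trivial hcon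
    rw [finrank_top, Module.finrank_fintype_fun_eq_card] at h1
    unfold ar at hfull
    omega
  obtain ⟨c, hc, hcx⟩ := hmem
  have h1 := hcx x0 hx0
  rw [ch_zsmul, ch_single, zpow_one] at h1
  rw [mem_acl_empty] at hc
  rw [← h1] at hc
  have h2 : IsAlgebraic ℚ ((x0 j : ℂ) ^ n.natAbs) := by
    rw [Units.val_zpow_eq_zpow_val] at hc
    rcases Int.natAbs_eq n with h3 | h3
    · rw [h3, zpow_natCast] at hc
      exact hc
    · rw [h3, zpow_neg, zpow_natCast] at hc
      exact (IsAlgebraic.inv_iff).1 hc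
  exact IsAlgebraic.of_pow (Int.natAbs_pos.2 hn) h2

end Point

/-- The algebraic points lying in special subvarieties of dimension at most two. -/
theorem exists_Z0 (a b : Fin 3 → ℂ) (ha : ∀ i, a i ≠ 0) (hb : ∀ i, b i ≠ 0) :
    ∃ Z0 : Set (Fin 3 ⊕ Fin 3 → ℂˣ), ZClosed Z0 ∧ Z0 ⊆ Lines a b ∧
      (∀ Y, Irr Y → Y ⊆ Z0 → td ℂ Y ≤ 2) ∧
      ∀ P ∈ Lines a b, (∀ i, IsAlgebraic ℚ (P i : ℂ)) → 4 ≤ rk ({P} : Set (Fin 3 ⊕ Fin 3 → ℂˣ)) → P ∈ Z0 := by
  classical
  by_cases halg : (∀ i, IsAlgebraic ℚ (a i)) ∧ ∀ i, IsAlgebraic ℚ (b i)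
  · obtain ⟨Z, hZ, hZV, hdm, hT⟩ := main a b ha hb halg.1 halg.2
    refine ⟨Z, hZ, hZV, ?_, ?_⟩
    · intro Y hY hYZ
      have h1 : dm Y ≤ dm Z := by
        unfold dm
        exact Order.krullDim_le_of_strictMono
          (fun W => (⟨W.1, W.2.1, W.2.2.trans hYZ⟩ : {W : Set (Fin 3 ⊕ Fin 3 → ℂˣ) // Irr W ∧ W ⊆ Z}))
          (fun W W' h => h)
      rw [dm_irr hY] at h1
      have h2 := h1.trans hdm
      exact_mod_cast h2
    · intro P hP _ hrk
      obtain ⟨T, hT1, hPT, hle⟩ := exists_special (irr_singleton P)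
      refine hT T hT1 ?_ ⟨hP, hPT rfl⟩
      rw [dm_irr hT1.irr]
      have h1 : Fintype.card (Fin 3 ⊕ Fin 3) = 6 := by simp
      have h2 : td ℂ T ≤ 2 := by omega
      exact_mod_cast h2
  · obtain ⟨j, hj⟩ : ∃ j, ¬ (IsAlgebraic ℚ (a j) ∧ IsAlgebraic ℚ (b j)) := by
      by_contra hcon
      push Not at hcon
      exact halg ⟨fun i => (hcon i).1, fun i => (hcon i).2⟩
    by_cases hP0 : ∃ P0 ∈ Lines a b, ∀ i, IsAlgebraic ℚ ((P0 : Fin 3 ⊕ Fin 3 → ℂˣ) i : ℂ)
    · obtain ⟨P0, hP0, hP0a⟩ := hP0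
      refine ⟨Lines a b ∩ {x | x (Sum.inl j) = P0 (Sum.inl j)}, (zclosed_Lines a b).inter ?_,
        Set.inter_subset_left, ?_, ?_⟩
      · refine ⟨{X (Sum.inl j) - C (P0 (Sum.inl j) : ℂ)}, ?_⟩
        ext x
        simp only [Set.mem_ofPred_eq, Set.mem_singleton_iff, forall_eq, map_sub, eval_X, eval_C,
          sub_eq_zero]
        exact Units.ext_iff
      · intro Y hY hYZ
        obtain ⟨s, hs, hInd, hc⟩ := exists_basis_Lines hb hY (hYZ.trans Set.inter_subset_left)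
        rw [← hc]
        have hj' : (Sum.inl j : Fin 3 ⊕ Fin 3) ∉ s := by
          intro hjs
          have h1 := hInd (X ⟨Sum.inl j, hjs⟩ - C (P0 (Sum.inl j) : ℂ)) (by
            intro y hy
            rw [map_sub, aeval_X, aeval_C, sub_eq_zero]
            have h2 : y (Sum.inl j) = P0 (Sum.inl j) := (hYZ hy).2
            show ((y (Sum.inl j) : ℂˣ) : ℂ) = _
            rw [h2]
            rfl)
          have h2 := congrArg (aeval (fun _ : s => (P0 (Sum.inl j) : ℂ) + 1)) h1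
          rw [map_sub, aeval_X, aeval_C, map_zero] at h2
          simp at h2
        have h1 : s ⊆ (Sum.inl '' ({j}ᶜ : Set (Fin 3))) := by
          intro i hi
          obtain ⟨l, rfl⟩ := hs hi
          refine ⟨l, ?_, rfl⟩
          rintro rfl
          exact hj' hi
        refine (Set.ncard_le_ncard h1).trans ?_
        rw [Set.ncard_image_of_injective _ Sum.inl_injective, Set.ncard_compl, Set.ncard_singleton]
        simp
      · intro P hP hPa _
        refine ⟨hP, ?_⟩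
        by_contra hne
        apply hj
        have hne' : (P (Sum.inl j) : ℂ) - (P0 (Sum.inl j) : ℂ) ≠ 0 := by
          intro h
          exact hne (Units.ext (sub_eq_zero.1 h))
        have h1 := hP j
        have h2 := hP0 j
        set r : ℂ := ((P0 (Sum.inr j) : ℂ) - (P (Sum.inr j) : ℂ)) / ((P (Sum.inl j) : ℂ) - (P0 (Sum.inl j) : ℂ)) with hr
        have hra : IsAlgebraic ℚ r := by
          rw [hr, div_eq_mul_inv]
          exact ((hP0a _).sub (hPa _)).mul ((hPa _).sub (hP0a _)).inv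
        have h3 : a j = b j * r := by
          rw [hr]
          field_simp
          linear_combination h1 - h2
        have h4 : b j * (r * (P (Sum.inl j) : ℂ) + (P (Sum.inr j) : ℂ)) = 1 := by
          rw [h3] at h1
          linear_combination h1
        have h5 : IsAlgebraic ℚ (b j) := by
          have h6 : b j = (r * (P (Sum.inl j) : ℂ) + (P (Sum.inr j) : ℂ))⁻¹ := eq_inv_of_mul_eq_one_left h4
          rw [h6]
          exact ((hra.mul (hPa _)).add (hPa _)).inv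
        exact ⟨by rw [h3]; exact h5.mul hra, h5⟩
    · refine ⟨∅, zclosed_empty, Set.empty_subset _, ?_, ?_⟩
      · intro Y hY hY0
        obtain ⟨y, hy⟩ := hY.nonempty
        exact absurd (hY0 hy) (Set.notMem_empty y)
      · intro P hP hPa _
        exact absurd ⟨P, hP, hPa⟩ hP0

/-- The case of three lines. -/
theorem core3 (a b : Fin 3 → ℂ) (ha : ∀ i, a i ≠ 0) (hb : ∀ i, b i ≠ 0) :
    ∃ (S : Set (Set (Fin 3 ⊕ Fin 3 → ℂˣ))) (Z0 : Set (Fin 3 ⊕ Fin 3 → ℂˣ)), S.Finite ∧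
      (∀ Y ∈ S, Irr Y ∧ Y ⊆ Lines a b ∧ 4 ≤ cd Y ∧ td ℂ Y ≤ 2) ∧ ZClosed Z0 ∧ Z0 ⊆ Lines a b ∧
      (∀ Y, Irr Y → Y ⊆ Z0 → td ℂ Y ≤ 2) ∧
      ∀ X, Irr X → X ⊆ Lines a b → 4 ≤ cd X → (∃ Y ∈ S, X ⊆ Y) ∨ ∃ P ∈ Z0, X = {P} := by
  classical
  obtain ⟨Z0, hZ0, hZ0V, hZ0d, hZ0P⟩ := exists_Z0 a b ha hb
  have hcard : Fintype.card (Fin 3 ⊕ Fin 3) = 6 := by simp
  have hfin := maxP_all (F := ℂ) (κ := Fin 3 ⊕ Fin 3) (fun Z => ar Z ≤ rk Z + 1)
    (fun V hV e => maxP_base 1 (fun s' hs' => by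
      interval_cases s'
      · exact ndk_zero
      · exact Pool.Agent.ZPB.ndk_one) V hV e) (zclosed_Lines a b) 3
  refine ⟨_, Z0, hfin, ?_, hZ0, hZ0V, hZ0d, ?_⟩
  · intro Y hY
    have h1 := MaxP.lt hY
    have h2 : cd Y = rk Y + td ℂ Y := rfl
    refine ⟨MaxP.irr hY, MaxP.subset hY, by omega, ?_⟩
    by_contra hcon
    push Not at hcon
    have h3 : Y = Lines a b := eq_of_td_le (MaxP.irr hY) (irr_Lines ha hb) (MaxP.subset hY) (by
      rw [td_Lines ha hb]
      omega)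
    rw [h3, rk_Lines ha hb, td_Lines ha hb] at h2
    rw [h3] at h1
    omega
  · intro X hX hXV hcd
    by_cases har : ar X ≤ rk X + 1
    · left
      obtain ⟨Y, hY, hXY⟩ := exists_maxP (k0 := acl (∅ : Set ℂ)) (P := fun Z => ar Z ≤ rk Z + 1) (e := 3) hX hXV (by omega) (by
        show ar (cl (acl (∅ : Set ℂ)) X) ≤ rk (cl (acl (∅ : Set ℂ)) X) + 1
        unfold ar at *
        rw [Alat_cl, rk_cl]
        exact har)
      exact ⟨Y, hY, hXY⟩
    · right
      push Not at har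
      have h2 : cd X = rk X + td ℂ X := rfl
      obtain ⟨P, hP, hPa⟩ := coset_point ha hb hX hXV (by omega)
      refine ⟨P, hZ0P P (hXV (by rw [hP]; rfl)) hPa ?_, hP⟩
      rw [← hP]
      have h3 : td ℂ X = 0 := by rw [hP, td_singleton']
      omega

end Pool.Agent.ZL2
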