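import Pool.Agent.ZL2.Trip

namespace Pool.Agent.ZL2

open Finset

variable {K : Type} [Field K] [NumberField K]

/-- The minor. -/
def DD (P Y : Fin 3 → K) : K := P 0 * Y 1 - P 1 * Y 0

theorem av_DD_le (p : Pl K) {P Y : Fin 3 → K} (hP : P 0 + P 1 + P 2 = 0) (hY : Y 0 + Y 1 + Y 2 = 0)
    {u w α β : ℝ} (i : Fin 3) (h1 : ∀ j, av p (P j) ≤ Real.exp u) (h2 : av p (P i) ≤ Real.exp (u - α))
    (h3 : ∀ j, av p (Y j) ≤ Real.exp w) (h4 : av p (Y i) ≤ Real.exp (w - β)) :
    av p (DD P Y) ≤ Real.exp (ell p + u + w - min α β) := by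
  have key : ∀ j : Fin 3, (DD P Y = P i * Y j - P j * Y i ∨ DD P Y = -(P i * Y j - P j * Y i)) →
      av p (DD P Y) ≤ Real.exp (ell p + u + w - min α β) := by
    intro j hj
    have e : av p (DD P Y) = av p (P i * Y j - P j * Y i) := by
      rcases hj with h | h
      · rw [h]
      · rw [h, av_neg]
    rw [e]
    refine (av_sub_le p _ _).trans ?_
    have e2 : Real.exp (ell p + u + w - min α β) = Real.exp (ell p) * Real.exp (u + w - min α β) := by
      rw [← Real.exp_add]
      congr 1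
      ring
    rw [e2]
    refine mul_le_mul_of_nonneg_left (max_le ?_ ?_) (Real.exp_pos _).le
    · rw [av_mul]
      calc av p (P i) * av p (Y j) ≤ Real.exp (u - α) * Real.exp w :=
            mul_le_mul h2 (h3 j) (av_nonneg _ _) (Real.exp_pos _).le
        _ = Real.exp (u + w - α) := by rw [← Real.exp_add]; congr 1; ring
        _ ≤ _ := Real.exp_le_exp.2 (by linarith [min_le_left α β])
    · rw [av_mul]
      calc av p (P j) * av p (Y i) ≤ Real.exp u * Real.exp (w - β) :=
            mul_le_mul (h1 j) h4 (av_nonneg _ _) (Real.exp_pos _).le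
        _ = Real.exp (u + w - β) := by rw [← Real.exp_add]; congr 1; ring
        _ ≤ _ := Real.exp_le_exp.2 (by linarith [min_le_right α β])
  have hP2 : P 2 = -(P 0 + P 1) := by linear_combination hP
  have hY2 : Y 2 = -(Y 0 + Y 1) := by linear_combination hY
  fin_cases i
  · refine key 1 (Or.inl ?_)
    unfold DD
    simp
  · refine key 0 (Or.inr ?_)
    unfold DD
    simp
  · refine key 0 (Or.inl ?_)
    unfold DD
    simp only [Fin.reduceFinMk]
    rw [hP2, hY2]
    ring

/-- The core estimate. -/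
theorem coreB {X Y P : Fin 3 → K} (hX : ∀ i, X i ≠ 0) (hX0 : X 0 + X 1 + X 2 = 0)
    (hY : ∀ i, Y i ≠ 0) (hY0 : Y 0 + Y 1 + Y 2 = 0) (hP0 : P 0 + P 1 + P 2 = 0)
    {m : Pl K → ℝ} {M : ℝ} (hm : ∀ p, ell p ≤ m p) (hmf : FS m) (hM : Sm m = M)
    {s : ℝ} (hs : 0 ≤ s) {err : Pl K → ℝ} (he : FS err) (he0 : ∀ p, 0 ≤ err p)
    (hes : Sm err ≤ 38 * (1 + s) * M) (hst : ∀ p i, |tt Y p i - s * tt X p i| ≤ err p)
    {n c : ℝ} {e : Fin 3 → ℝ} (he1 : ∀ i, 0 ≤ e i) (hc : 0 ≤ c)
    (hP : ∀ p i, av p (P i) ≤ Real.exp (n * mx X p - e i * tt X p i + c * ell p))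
    (hD : DD P Y ≠ 0) :
    (∑ i, min (e i) s - n - s) * Ht X ≤ (c + 1 + 2 * s + 76 * (1 + s)) * M := by
  have hT := tri_of_sum_zero hX hX0
  have hTm : Tri m (tt X) (Ht X) := hT.mono hm
  have hm0 : ∀ p, 0 ≤ m p := fun p => (ell_nonneg p).trans (hm p)
  obtain ⟨μ, hμ⟩ := hTm.exists_mu
  have fX := FS_mx hX
  have fY := FS_mx hY
  -- the height of Y
  have hHY : Ht Y ≤ s * Ht X + 38 * (1 + s) * M := by
    have hTY := tri_of_sum_zero hY hY0
    rw [← hTY.sm 0, ← hT.sm 0, ← Sm_smul]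
    have h1 : Sm (fun p => tt Y p 0) ≤ Sm (fun p => s * tt X p 0 + err p) := by
      refine Sm_mono (hTY.fs 0) (((hT.fs 0).smul s).add he) fun p => ?_
      have := abs_le.1 (hst p 0)
      linarith [this.2]
    rw [Sm_add ((hT.fs 0).smul s) he] at h1
    linarith
  -- the local bound
  have hloc : ∀ p, lv p (DD P Y) ≤ (n * mx X p + mx Y p + (c + 1) * ell p + err p) -
      ∑ i, min (e i) s * (if μ p = i then tt X p i else 0) := by
    intro p
    have hsum : ∑ i, min (e i) s * (if μ p = i then tt X p i else 0) =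
        min (e (μ p)) s * tt X p (μ p) := by
      rw [Finset.sum_eq_single (μ p)]
      · rw [if_pos rfl]
      · intro b _ hb
        rw [if_neg (Ne.symm hb), mul_zero]
      · intro h
        exact absurd (Finset.mem_univ _) h
    rw [hsum]
    have h1 := av_DD_le p hP0 hY0 (u := n * mx X p + c * ell p) (w := mx Y p)
      (α := e (μ p) * tt X p (μ p)) (β := tt Y p (μ p)) (μ p)
      (fun j => (hP p j).trans (Real.exp_le_exp.2 (by
        have := mul_nonneg (he1 j) (hT.nonneg p j)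
        linarith)))
      ((hP p (μ p)).trans (Real.exp_le_exp.2 (by linarith)))
      (fun j => by
        rw [av_eq_exp p (hY j)]
        exact Real.exp_le_exp.2 (lv_le_mx Y p j))
      (by
        rw [av_eq_exp p (hY (μ p))]
        exact Real.exp_le_exp.2 (by unfold tt; linarith))
    rw [av_eq_exp p hD, Real.exp_le_exp] at h1
    have h2 := (abs_le.1 (hst p (μ p))).1
    have h3 : min (e (μ p)) s * tt X p (μ p) - err p ≤ min (e (μ p) * tt X p (μ p)) (tt Y p (μ p)) := by
      have ht := hT.nonneg p (μ p)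
      refine le_min ?_ ?_
      · have := mul_le_mul_of_nonneg_right (min_le_left (e (μ p)) s) ht
        linarith [he0 p]
      · have := mul_le_mul_of_nonneg_right (min_le_right (e (μ p)) s) ht
        linarith
    linarith
  -- sum up
  have f1 : ∀ i : Fin 3, FS (fun p => if μ p = i then tt X p i else 0) := fun i => (hT.fs i).ite _
  have f2 : FS (fun p => ∑ i, min (e i) s * (if μ p = i then tt X p i else 0)) :=
    FS.sum _ fun i _ => (f1 i).smul _
  have f3 : FS (fun p => n * mx X p + mx Y p + (c + 1) * ell p + err p) :=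
    (((fX.smul n).add fY).add (FS_ell.smul (c + 1))).add he
  have h5 := Sm_mono (FS_lv hD) (f3.sub f2) hloc
  rw [Sm_lv hD, Sm_sub f3 f2, Sm_add (((fX.smul n).add fY).add (FS_ell.smul (c + 1))) he,
    Sm_add ((fX.smul n).add fY) (FS_ell.smul (c + 1)), Sm_add (fX.smul n) fY, Sm_smul, Sm_smul,
    Sm_sum _ (fun i _ => (f1 i).smul _)] at h5
  simp only [Sm_smul] at h5
  have h6 : Sm (mx X) = Ht X := rfl
  have h7 : Sm (mx Y) = Ht Y := rfl
  rw [h6, h7] at h5
  have h8 : Sm (ell : Pl K → ℝ) ≤ M := by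
    rw [← hM]
    exact Sm_mono FS_ell hmf hm
  have hM0 : 0 ≤ M := by rw [← hM]; exact Sm_nonneg hm0
  -- the masses
  have h9 : ∀ i : Fin 3, min (e i) s * Ht X - s * Sm (fun p => if μ p = i then 0 else m p) ≤
      min (e i) s * Sm (fun p => if μ p = i then tt X p i else 0) := by
    intro i
    have h10 := hTm.sm_main hm0 hmf hμ i
    have h11 : 0 ≤ Sm (fun p => if μ p = i then 0 else m p) := Sm_nonneg fun p => by
      split_ifs
      · exact le_refl _
      · exact hm0 p
    have h12 : 0 ≤ min (e i) s := le_min (he1 i) hs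
    have h13 := mul_le_mul_of_nonneg_left h10 h12
    have h14 := mul_le_mul_of_nonneg_right (min_le_right (e i) s) h11
    nlinarith
  have h15 := Finset.sum_le_sum fun i (_ : i ∈ (Finset.univ : Finset (Fin 3))) => h9 i
  rw [Finset.sum_sub_distrib, ← Finset.sum_mul, ← Finset.mul_sum, sum_compl hmf μ, hM] at h15
  have h16 : (c + 1) * Sm (ell : Pl K → ℝ) ≤ (c + 1) * M := mul_le_mul_of_nonneg_left h8 (by linarith)
  nlinarith

/-- The Padé vectors as functions on `Fin 3`. -/
def VV (a b c : ℕ) (X : Fin 3 → K) : Fin 3 → K :=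
  ![P1 a b c (X 0) (X 1) (X 2), P2 a b c (X 0) (X 1) (X 2), P3 a b c (X 0) (X 1) (X 2)]

theorem av_P1_le (p : Pl K) (a b c : ℕ) {x y z : K} {M : ℝ} (hx : x ≠ 0) (hy : y ≠ 0) (hz : z ≠ 0)
    (hyM : lv p y ≤ M) (hzM : lv p z ≤ M) :
    av p (P1 a b c x y z) ≤ Real.exp (((a + b + c + 1 : ℕ) : ℝ) * M - ((b + c + 1 : ℕ) : ℝ) * (M - lv p x) +
      ((2 * (a + b + c + 1) : ℕ) : ℝ) * ell p) := by
  unfold P1
  rw [av_mul, av_mul, av_pow, av_neg, av_one, one_pow, one_mul, av_pow, av_eq_exp p hx,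
    ← Real.exp_nat_mul]
  have h1 := av_A_le p a b c y z
  have h2 : max (av p y) (av p z) ^ a ≤ Real.exp (a * M) := by
    rw [Real.exp_nat_mul]
    refine pow_le_pow_left₀ (le_max_of_le_left (av_nonneg p y)) (max_le ?_ ?_) _
    · rw [av_eq_exp p hy]; exact Real.exp_le_exp.2 hyM
    · rw [av_eq_exp p hz]; exact Real.exp_le_exp.2 hzM
  calc Real.exp (((b + c + 1 : ℕ) : ℝ) * lv p x) * av p (A a b c y z)
      ≤ Real.exp (((b + c + 1 : ℕ) : ℝ) * lv p x) *
        (Real.exp (((2 * a + b + c : ℕ) : ℝ) * ell p) * Real.exp (a * M)) :=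
        mul_le_mul_of_nonneg_left (h1.trans (mul_le_mul_of_nonneg_left h2 (Real.exp_pos _).le))
          (Real.exp_pos _).le
    _ = Real.exp (((b + c + 1 : ℕ) : ℝ) * lv p x + (((2 * a + b + c : ℕ) : ℝ) * ell p + a * M)) := by
        rw [Real.exp_add, Real.exp_add]
    _ ≤ _ := by
        refine Real.exp_le_exp.2 ?_
        push_cast
        have h3 := ell_nonneg p
        have h4 : 0 ≤ ((b : ℝ) + c + 2) * ell p := by positivity
        nlinarith

theorem VV_sum (a b c : ℕ) {X : Fin 3 → K} (h0 : X 0 + X 1 + X 2 = 0) :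
    VV a b c X 0 + VV a b c X 1 + VV a b c X 2 = 0 := by
  have := pade a b c (X 0) (X 1) (X 2) h0
  simpa [VV] using this

theorem av_VV_le (p : Pl K) (a b c : ℕ) {X : Fin 3 → K} (hX : ∀ i, X i ≠ 0) (i : Fin 3) :
    av p (VV a b c X i) ≤ Real.exp (((a + b + c + 1 : ℕ) : ℝ) * mx X p -
      (![((b + c + 1 : ℕ) : ℝ), ((a + c + 1 : ℕ) : ℝ), ((a + b + 1 : ℕ) : ℝ)] : Fin 3 → ℝ) i * tt X p i +
      ((2 * (a + b + c + 1) : ℕ) : ℝ) * ell p) := by
  fin_cases i
  · simp only [VV, tt, Fin.zero_eta, Matrix.cons_val_zero]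
    exact av_P1_le p a b c (hX 0) (hX 1) (hX 2) (lv_le_mx X p 1) (lv_le_mx X p 2)
  · simp only [VV, tt, Fin.mk_one, Matrix.cons_val_one]
    rw [P2_eq]
    refine (av_P1_le p b c a (hX 1) (hX 2) (hX 0) (lv_le_mx X p 2) (lv_le_mx X p 0)).trans
      (Real.exp_le_exp.2 (le_of_eq ?_))
    push_cast
    ring
  · simp only [VV, tt, Fin.reduceFinMk]
    have e : (![P1 a b c (X 0) (X 1) (X 2), P2 a b c (X 0) (X 1) (X 2), P3 a b c (X 0) (X 1) (X 2)] :
        Fin 3 → K) 2 = P3 a b c (X 0) (X 1) (X 2) := rfl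
    have e' : (![((b + c + 1 : ℕ) : ℝ), ((a + c + 1 : ℕ) : ℝ), ((a + b + 1 : ℕ) : ℝ)] : Fin 3 → ℝ) 2 =
        ((a + b + 1 : ℕ) : ℝ) := rfl
    rw [e, e', P3_eq]
    refine (av_P1_le p c a b (hX 2) (hX 0) (hX 1) (lv_le_mx X p 0) (lv_le_mx X p 1)).trans
      (Real.exp_le_exp.2 (le_of_eq ?_))
    push_cast
    ring

/-- One of the two Padé vectors gives a nonzero minor. -/
theorem exists_VV {X Y : Fin 3 → K} (hX : ∀ i, X i ≠ 0) (h0 : X 0 + X 1 + X 2 = 0)
    (hY : ∀ i, Y i ≠ 0) (N : ℕ) : DD (VV N N (N + 1) X) Y ≠ 0 ∨ DD (VV N (N + 1) N X) Y ≠ 0 := by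
  by_contra hcon
  rw [not_or, not_not, not_not] at hcon
  obtain ⟨h1, h2⟩ := hcon
  obtain ⟨k, hk, h3, _, _⟩ := nondeg (N + N + N) N N N rfl (X 0) (X 1) (X 2) h0 (hX 0) (hX 1) (hX 2)
  unfold DD VV at h1 h2
  simp only [Matrix.cons_val_zero, Matrix.cons_val_one] at h1 h2
  have h4 : Y 1 * dt (P1 N (N + 1) N (X 0) (X 1) (X 2)) (P2 N (N + 1) N (X 0) (X 1) (X 2))
      (P1 N N (N + 1) (X 0) (X 1) (X 2)) (P2 N N (N + 1) (X 0) (X 1) (X 2)) = 0 := by
    unfold dt
    linear_combination (P2 N N (N + 1) (X 0) (X 1) (X 2)) * h2 - (P2 N (N + 1) N (X 0) (X 1) (X 2)) * h1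
  rw [h3] at h4
  have h5 : ((N + 1 : ℕ) : K) ≠ 0 := by exact_mod_cast Nat.succ_ne_zero N
  exact (mul_ne_zero (hY 1) (mul_ne_zero (mul_ne_zero h5 (hX 0)) hk)) h4

/-- Step B. -/
theorem stepB {X Y : Fin 3 → K} (hX : ∀ i, X i ≠ 0) (hX0 : X 0 + X 1 + X 2 = 0)
    (hY : ∀ i, Y i ≠ 0) (hY0 : Y 0 + Y 1 + Y 2 = 0)
    {m : Pl K → ℝ} {M : ℝ} (hm : ∀ p, ell p ≤ m p) (hmf : FS m) (hM : Sm m = M)
    {s : ℝ} (hs : 0 ≤ s) {err : Pl K → ℝ} (he : FS err) (he0 : ∀ p, 0 ≤ err p)
    (hes : Sm err ≤ 38 * (1 + s) * M) (hst : ∀ p i, |tt Y p i - s * tt X p i| ≤ err p)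
    (hH : 2000 * M < Ht X) (hHH : Ht X ≤ Ht Y) : DD X Y = 0 := by
  have hm0 : ∀ p, 0 ≤ m p := fun p => (ell_nonneg p).trans (hm p)
  have hM0 : 0 ≤ M := by rw [← hM]; exact Sm_nonneg hm0
  have hT := tri_of_sum_zero hX hX0
  have hHY : Ht Y ≤ s * Ht X + 38 * (1 + s) * M := by
    have hTY := tri_of_sum_zero hY hY0
    rw [← hTY.sm 0, ← hT.sm 0, ← Sm_smul]
    have h1 : Sm (fun p => tt Y p 0) ≤ Sm (fun p => s * tt X p 0 + err p) := by
      refine Sm_mono (hTY.fs 0) (((hT.fs 0).smul s).add he) fun p => ?_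
      have := abs_le.1 (hst p 0)
      linarith [this.2]
    rw [Sm_add ((hT.fs 0).smul s) he] at h1
    linarith
  have hs1 : 96 / 100 ≤ s := by
    by_contra hc
    push Not at hc
    nlinarith
  by_contra hD
  rcases le_total s (3 / 2) with hs2 | hs2
  · -- the small case: the minor of `X` and `Y`
    have h1 := coreB hX hX0 hY hY0 hX0 hm hmf hM hs he he0 hes hst (n := 1) (c := 0) (e := fun _ => 1)
      (fun _ => by norm_num) le_rfl (fun p i => by
        rw [av_eq_exp p (hX i)]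
        refine Real.exp_le_exp.2 ?_
        unfold tt
        linarith) hD
    simp only [Finset.sum_const, Finset.card_univ, Fintype.card_fin, nsmul_eq_mul] at h1
    push_cast at h1
    rcases le_total (1 : ℝ) s with h | h
    · rw [min_eq_left h] at h1
      nlinarith
    · rw [min_eq_right h] at h1
      nlinarith
  · -- the large case: general `N`
    have main : ∀ N : ℕ, (2 * min ((2 * N + 2 : ℕ) : ℝ) s + min ((2 * N + 1 : ℕ) : ℝ) s -
        ((3 * N + 2 : ℕ) : ℝ) - s) * Ht X ≤ (((6 * N + 4 : ℕ) : ℝ) + 1 + 2 * s + 76 * (1 + s)) * M := by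
      intro N
      rcases exists_VV hX hX0 hY N with hD' | hD'
      · have h1 := coreB hX hX0 hY hY0 (VV_sum N N (N + 1) hX0) hm hmf hM hs he he0 hes hst
          (n := ((N + N + (N + 1) + 1 : ℕ) : ℝ)) (c := ((2 * (N + N + (N + 1) + 1) : ℕ) : ℝ))
          (e := ![((N + (N + 1) + 1 : ℕ) : ℝ), ((N + (N + 1) + 1 : ℕ) : ℝ), ((N + N + 1 : ℕ) : ℝ)])
          (fun i => by fin_cases i <;> simp <;> positivity) (by positivity)
          (fun p i => av_VV_le p N N (N + 1) hX i) hD'
        rw [Fin.sum_univ_three] at h1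
        simp only [Matrix.cons_val_zero, Matrix.cons_val_one, Matrix.cons_val_two, Matrix.head_cons,
          Matrix.tail_cons, Matrix.cons_val] at h1
        have e1 : N + (N + 1) + 1 = 2 * N + 2 := by ring
        have e2 : N + N + 1 = 2 * N + 1 := by ring
        have e3 : N + N + (N + 1) + 1 = 3 * N + 2 := by ring
        have e4 : 2 * (3 * N + 2) = 6 * N + 4 := by ring
        rw [e1, e2, e3, e4] at h1
        linarith
      · have h1 := coreB hX hX0 hY hY0 (VV_sum N (N + 1) N hX0) hm hmf hM hs he he0 hes hst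
          (n := ((N + (N + 1) + N + 1 : ℕ) : ℝ)) (c := ((2 * (N + (N + 1) + N + 1) : ℕ) : ℝ))
          (e := ![((N + 1 + N + 1 : ℕ) : ℝ), ((N + N + 1 : ℕ) : ℝ), ((N + (N + 1) + 1 : ℕ) : ℝ)])
          (fun i => by fin_cases i <;> simp <;> positivity) (by positivity)
          (fun p i => av_VV_le p N (N + 1) N hX i) hD'
        rw [Fin.sum_univ_three] at h1
        simp only [Matrix.cons_val_zero, Matrix.cons_val_one, Matrix.cons_val_two, Matrix.head_cons,
          Matrix.tail_cons, Matrix.cons_val] at h1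
        have e1 : N + (N + 1) + 1 = 2 * N + 2 := by ring
        have e1' : N + 1 + N + 1 = 2 * N + 2 := by ring
        have e2 : N + N + 1 = 2 * N + 1 := by ring
        have e3 : N + (N + 1) + N + 1 = 3 * N + 2 := by ring
        have e4 : 2 * (3 * N + 2) = 6 * N + 4 := by ring
        rw [e1, e1', e2, e3, e4] at h1
        linarith
    rcases le_total s (11 / 4) with hs3 | hs3
    · have h1 := main 0
      norm_num at h1
      rw [min_eq_left (by linarith : (1 : ℝ) ≤ s)] at h1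
      rcases le_total (2 : ℝ) s with h | h
      · rw [min_eq_left h] at h1
        nlinarith
      · rw [min_eq_right h] at h1
        nlinarith
    · rcases le_total s 5 with hs4 | hs4
      · have h1 := main 1
        norm_num at h1
        rcases le_total (3 : ℝ) s with h | h
        · rw [min_eq_left h] at h1
          rcases le_total (4 : ℝ) s with h' | h'
          · rw [min_eq_left h'] at h1
            nlinarith
          · rw [min_eq_right h'] at h1
            nlinarith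
        · rw [min_eq_right h, min_eq_right (by linarith : s ≤ 4)] at h1
          nlinarith
      · -- `N = ⌊(s-1)/2⌋`
        set N := ⌊(s - 1) / 2⌋₊ with hN
        have hN1 : (N : ℝ) ≤ (s - 1) / 2 := Nat.floor_le (by linarith)
        have hN2 : (s - 1) / 2 < N + 1 := Nat.lt_floor_add_one _
        have hN3 : 2 ≤ N := by
          rw [hN, Nat.le_floor_iff (by linarith)]
          push_cast
          linarith
        have hN3' : (2 : ℝ) ≤ N := by exact_mod_cast hN3
        have h1 := main N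
        push_cast at h1
        rw [min_eq_left (by linarith : 2 * (N : ℝ) + 1 ≤ s)] at h1
        have h2 : (N : ℝ) * Ht X ≤ (6 * (N : ℝ) + 4 + 1 + 2 * s + 76 * (1 + s)) * M := by
          rcases le_total (2 * (N : ℝ) + 2) s with h | h
          · rw [min_eq_left h] at h1
            nlinarith
          · rw [min_eq_right h] at h1
            nlinarith
        have h3 : (6 * (N : ℝ) + 4 + 1 + 2 * s + 76 * (1 + s)) * M ≤ 320 * N * M := by
          refine mul_le_mul_of_nonneg_right ?_ hM0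
          nlinarith
        have h4 : (N : ℝ) * (2000 * M) < N * Ht X := mul_lt_mul_of_pos_left hH (by linarith)
        nlinarith

end Pool.Agent.ZL2
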