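import Pool.Agent.ZL2.StepA
import Pool.Agent.ZL2.StepB

namespace Pool.Agent.ZL2

open Finset

variable {K : Type} [Field K] [NumberField K]

/-- The projective point of a point of the line `a x + b y = 1`. -/
def Xl (a b x y : K) : Fin 3 → K := ![a * x, b * y, -1]

theorem Xl_ne {a b x y : K} (ha : a ≠ 0) (hb : b ≠ 0) (hx : x ≠ 0) (hy : y ≠ 0) (i : Fin 3) :
    Xl a b x y i ≠ 0 := by
  fin_cases i
  · exact mul_ne_zero ha hx
  · exact mul_ne_zero hb hy
  · simp [Xl]

theorem Xl_sum {a b x y : K} (h : a * x + b * y = 1) :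
    Xl a b x y 0 + Xl a b x y 1 + Xl a b x y 2 = 0 := by
  simp only [Xl, Matrix.cons_val_zero, Matrix.cons_val_one]
  have : (![a * x, b * y, -1] : Fin 3 → K) 2 = -1 := rfl
  rw [this]
  linear_combination h

theorem tt_Xl0 (p : Pl K) {a b x y : K} (ha : a ≠ 0) (hx : x ≠ 0) :
    tt (Xl a b x y) p 2 - tt (Xl a b x y) p 0 = lv p a + lv p x := by
  unfold tt
  have h0 : lv p (Xl a b x y 0) = lv p a + lv p x := lv_mul p ha hx
  have h2 : lv p (Xl a b x y 2) = 0 := by
    have : Xl a b x y 2 = -1 := rfl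
    rw [this, lv_neg, lv_one]
  rw [h0, h2]
  ring

theorem tt_Xl1 (p : Pl K) {a b x y : K} (hb : b ≠ 0) (hy : y ≠ 0) :
    tt (Xl a b x y) p 2 - tt (Xl a b x y) p 1 = lv p b + lv p y := by
  unfold tt
  have h0 : lv p (Xl a b x y 1) = lv p b + lv p y := lv_mul p hb hy
  have h2 : lv p (Xl a b x y 2) = 0 := by
    have : Xl a b x y 2 = -1 := rfl
    rw [this, lv_neg, lv_one]
  rw [h0, h2]
  ring

theorem FS_m {c : Pl K → ℝ} (hc : FS c) : FS (fun p => ell p + 2 * c p) := FS_ell.add (hc.smul 2)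

/-- Theorem H. -/
theorem theoremH {a b a' b' x y x' y' : K} (ha : a ≠ 0) (hb : b ≠ 0) (ha' : a' ≠ 0) (hb' : b' ≠ 0)
    (hx : x ≠ 0) (hy : y ≠ 0) (hx' : x' ≠ 0) (hy' : y' ≠ 0)
    (h : a * x + b * y = 1) (h' : a' * x' + b' * y' = 1) {p1 q1 p2 q2 : ℝ}
    (r1 : ∀ v : Pl K, lv v x' = p1 * lv v x + q1 * lv v y)
    (r2 : ∀ v : Pl K, lv v y' = p2 * lv v x + q2 * lv v y)
    {c : Pl K → ℝ} (hc : FS c)
    (hcl : ∀ v, |lv v a| + |lv v b| ≤ c v) (hcl' : ∀ v, |lv v a'| ≤ c v ∧ |lv v b'| ≤ c v) {M : ℝ}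
    (hM : Sm (fun v => ell v + 2 * c v) = M) (hH : 2000 * M < Ht (Xl a b x y))
    (hHH : Ht (Xl a b x y) ≤ Ht (Xl a' b' x' y')) :
    ∃ σ : Equiv.Perm (Fin 3), DD (Xl a b x y) (fun i => Xl a' b' x' y' (σ i)) = 0 := by
  have hc0 : ∀ v, 0 ≤ c v := fun v => (by positivity : 0 ≤ |lv v a| + |lv v b|).trans (hcl v)
  have hX := Xl_ne ha hb hx hy
  have hX0 := Xl_sum h
  have hY := Xl_ne ha' hb' hx' hy'
  have hY0 := Xl_sum h'
  have hm : ∀ v : Pl K, ell v ≤ ell v + 2 * c v := fun v => by linarith [hc0 v]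
  have hTX := (tri_of_sum_zero hX hX0).mono hm
  have hTY := (tri_of_sum_zero hY hY0).mono hm
  set t := tt (Xl a b x y) with ht
  set t' := tt (Xl a' b' x' y') with ht'
  -- the relation matrix
  obtain ⟨α, hα⟩ : ∃ α : Fin 3 → Fin 3 → ℝ, α = ![![p1, q1, -(p1 + q1)], ![p2, q2, -(p2 + q2)], ![0, 0, 0]] :=
    ⟨_, rfl⟩
  have a00 : α 0 0 = p1 := by rw [hα]; rfl
  have a01 : α 0 1 = q1 := by rw [hα]; rfl
  have a02 : α 0 2 = -(p1 + q1) := by rw [hα]; rfl
  have a10 : α 1 0 = p2 := by rw [hα]; rfl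
  have a11 : α 1 1 = q2 := by rw [hα]; rfl
  have a12 : α 1 2 = -(p2 + q2) := by rw [hα]; rfl
  have a20 : α 2 0 = 0 := by rw [hα]; rfl
  have a21 : α 2 1 = 0 := by rw [hα]; rfl
  have a22 : α 2 2 = 0 := by rw [hα]; rfl
  obtain ⟨cm, hcm⟩ : ∃ cm : Fin 3 → ℝ, ∀ i, cm i = min (α 0 i) (min (α 1 i) (α 2 i)) := ⟨_, fun _ => rfl⟩
  obtain ⟨ρ, hρdef⟩ : ∃ ρ : Fin 3 → Fin 3 → ℝ, ∀ k i, ρ k i = α k i - cm i := ⟨_, fun _ _ => rfl⟩
  obtain ⟨s, hs⟩ : ∃ s : ℝ, s = -(cm 0 + cm 1 + cm 2) := ⟨_, rfl⟩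
  have hρ : ∀ k i, 0 ≤ ρ k i := by
    intro k i
    rw [hρdef, hcm]
    fin_cases k
    · exact sub_nonneg.2 (min_le_left _ _)
    · exact sub_nonneg.2 ((min_le_right _ _).trans (min_le_left _ _))
    · exact sub_nonneg.2 ((min_le_right _ _).trans (min_le_right _ _))
  have hz : ∀ i, ∃ k, ρ k i = 0 := by
    intro i
    rcases min_choice (α 0 i) (min (α 1 i) (α 2 i)) with h1 | h1
    · exact ⟨0, by rw [hρdef, hcm, h1, sub_self]⟩
    · rcases min_choice (α 1 i) (α 2 i) with h2 | h2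
      · exact ⟨1, by rw [hρdef, hcm, h1, h2, sub_self]⟩
      · exact ⟨2, by rw [hρdef, hcm, h1, h2, sub_self]⟩
  have hrow : ∀ k, ∑ i, ρ k i = s := by
    intro k
    rw [Fin.sum_univ_three, hρdef, hρdef, hρdef, hs]
    fin_cases k
    · simp only [Fin.zero_eta]; rw [a00, a01, a02]; ring
    · simp only [Fin.mk_one]; rw [a10, a11, a12]; ring
    · simp only [Fin.reduceFinMk]; rw [a20, a21, a22]; ring
  have hρs : ∀ k i, ρ k i ≤ s := by
    intro k i
    rw [← hrow k]
    exact Finset.single_le_sum (f := fun j => ρ k j) (fun j _ => hρ k j) (Finset.mem_univ i)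
  have hs0 : 0 ≤ s := (hρ 0 0).trans (hρs 0 0)
  have habs : ∀ k i, |α k i| ≤ s := by
    intro k i
    have h1 : α k i = ρ k i - ρ 2 i := by
      rw [hρdef, hρdef]
      fin_cases i
      · simp only [Fin.zero_eta]; rw [a20]; ring
      · simp only [Fin.mk_one]; rw [a21]; ring
      · simp only [Fin.reduceFinMk]; rw [a22]; ring
    rw [h1, abs_le]
    constructor
    · linarith [hρ k i, hρs 2 i]
    · linarith [hρ 2 i, hρs k i]
  -- the errors
  have E : ∀ v k, |(t' v 2 - t' v k) - ∑ i, (ρ 2 i - ρ k i) * t v i| ≤ (1 + s) * c v := by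
    intro v k
    have e1 : ∑ i, (ρ 2 i - ρ k i) * t v i = -(α k 0 * t v 0 + α k 1 * t v 1 + α k 2 * t v 2) := by
      rw [Fin.sum_univ_three]
      simp only [hρdef, a20, a21, a22]
      ring
    rw [e1]
    have T0 := tt_Xl0 v (a := a) (b := b) (x := x) (y := y) ha hx
    have T1 := tt_Xl1 v (a := a) (b := b) (x := x) (y := y) hb hy
    have T0' := tt_Xl0 v (a := a') (b := b') (x := x') (y := y') ha' hx'
    have T1' := tt_Xl1 v (a := a') (b := b') (x := x') (y := y') hb' hy'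
    rw [← ht] at T0 T1
    rw [← ht'] at T0' T1'
    have hc1 := hcl v
    obtain ⟨hc2, hc3⟩ := hcl' v
    have hbound : ∀ u w z : ℝ, |u| ≤ s → |w| ≤ s → |z| ≤ c v →
        |z - u * lv v a - w * lv v b| ≤ (1 + s) * c v := by
      intro u w z hu hw hz'
      calc |z - u * lv v a - w * lv v b| ≤ |z| + |u| * |lv v a| + |w| * |lv v b| := by
            have i1 := abs_sub (z - u * lv v a) (w * lv v b)
            have i2 := abs_sub z (u * lv v a)
            rw [abs_mul] at i1 i2
            linarith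
        _ ≤ c v + s * |lv v a| + s * |lv v b| := by
            have i1 := mul_le_mul_of_nonneg_right hu (abs_nonneg (lv v a))
            have i2 := mul_le_mul_of_nonneg_right hw (abs_nonneg (lv v b))
            linarith
        _ ≤ (1 + s) * c v := by nlinarith
    fin_cases k
    · simp only [Fin.zero_eta]
      rw [a00, a01, a02]
      have := hbound p1 q1 (lv v a') (by rw [← a00]; exact habs 0 0) (by rw [← a01]; exact habs 0 1) hc2
      have e2 : t' v 2 - t' v 0 - -(p1 * t v 0 + q1 * t v 1 + -(p1 + q1) * t v 2) =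
          lv v a' - p1 * lv v a - q1 * lv v b := by
        rw [T0', r1 v]
        linear_combination (-p1) * T0 - q1 * T1
      rw [e2]
      exact this
    · simp only [Fin.mk_one]
      rw [a10, a11, a12]
      have := hbound p2 q2 (lv v b') (by rw [← a10]; exact habs 1 0) (by rw [← a11]; exact habs 1 1) hc3
      have e2 : t' v 2 - t' v 1 - -(p2 * t v 0 + q2 * t v 1 + -(p2 + q2) * t v 2) =
          lv v b' - p2 * lv v a - q2 * lv v b := by
        rw [T1', r2 v]
        linear_combination (-p2) * T0 - q2 * T1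
      rw [e2]
      exact this
    · simp only [Fin.reduceFinMk]
      rw [a20, a21, a22]
      simp only [sub_self, zero_mul, add_zero, neg_zero, abs_zero]
      exact mul_nonneg (by linarith) (hc0 v)
  have hrel : ∀ v k l, |(t' v k - t' v l) - ∑ i, (ρ k i - ρ l i) * t v i| ≤
      (1 + s) * (ell v + 2 * c v) := by
    intro v k l
    have e1 : (t' v k - t' v l) - ∑ i, (ρ k i - ρ l i) * t v i =
        ((t' v 2 - t' v l) - ∑ i, (ρ 2 i - ρ l i) * t v i) -
        ((t' v 2 - t' v k) - ∑ i, (ρ 2 i - ρ k i) * t v i) := by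
      simp only [Fin.sum_univ_three]
      ring
    rw [e1]
    have i1 := abs_sub ((t' v 2 - t' v l) - ∑ i, (ρ 2 i - ρ l i) * t v i)
      ((t' v 2 - t' v k) - ∑ i, (ρ 2 i - ρ k i) * t v i)
    have i2 := E v k
    have i3 := E v l
    have i4 := ell_nonneg v
    nlinarith
  have hm0 : ∀ v : Pl K, 0 ≤ ell v + 2 * c v := fun v => by linarith [hc0 v, ell_nonneg v]
  obtain ⟨σ, err, he, he0, hes, hst⟩ := stepA hm0 (FS_m hc) hM hTX hTY ρ hρ hz hrow hrel hH hHH
  refine ⟨σ, ?_⟩
  have hYσ0 : (fun i => Xl a' b' x' y' (σ i)) 0 + (fun i => Xl a' b' x' y' (σ i)) 1 +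
      (fun i => Xl a' b' x' y' (σ i)) 2 = 0 := by
    have h1 := Equiv.sum_comp σ (Xl a' b' x' y')
    rw [Fin.sum_univ_three, Fin.sum_univ_three] at h1
    simp only
    rw [h1]
    exact hY0
  refine stepB hX hX0 (fun i => hY (σ i)) hYσ0 hm (FS_m hc) hM hs0 he he0 hes ?_ hH ?_
  · intro p i
    rw [tt_perm]
    exact hst p i
  · rw [Ht_perm]
    exact hHH

/-- Points of rank one have bounded height. -/
theorem rank_one {a b x y : K} (ha : a ≠ 0) (hb : b ≠ 0) (hx : x ≠ 0) (hy : y ≠ 0)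
    (h : a * x + b * y = 1) {p q : ℝ} (hpq : p ≠ 0 ∨ q ≠ 0)
    (r : ∀ v : Pl K, p * lv v x + q * lv v y = 0)
    {c : Pl K → ℝ} (hc : FS c) (hcl : ∀ v, |lv v a| + |lv v b| ≤ c v) :
    Ht (Xl a b x y) ≤ 2 * Sm (fun v => ell v + 2 * c v) := by
  have hX := Xl_ne ha hb hx hy
  have hX0 := Xl_sum h
  have hT := tri_of_sum_zero hX hX0
  have hc0 : ∀ v, 0 ≤ c v := fun v => (by positivity : 0 ≤ |lv v a| + |lv v b|).trans (hcl v)
  obtain ⟨α, hα⟩ : ∃ α : Fin 3 → ℝ, α = ![-p, -q, p + q] := ⟨_, rfl⟩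
  have a0 : α 0 = -p := by rw [hα]; rfl
  have a1 : α 1 = -q := by rw [hα]; rfl
  have a2 : α 2 = p + q := by rw [hα]; rfl
  obtain ⟨i0, _, hi0⟩ := Finset.exists_max_image (Finset.univ : Finset (Fin 3)) (fun i => |α i|) ⟨0, Finset.mem_univ _⟩
  have hA : 0 < |α i0| := by
    rcases hpq with h1 | h1
    · have := hi0 0 (Finset.mem_univ _)
      rw [a0, abs_neg] at this
      exact (abs_pos.2 h1).trans_le this
    · have := hi0 1 (Finset.mem_univ _)
      rw [a1, abs_neg] at this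
      exact (abs_pos.2 h1).trans_le this
  have hp : |p| ≤ |α i0| := by
    have := hi0 0 (Finset.mem_univ _)
    rwa [a0, abs_neg] at this
  have hq : |q| ≤ |α i0| := by
    have := hi0 1 (Finset.mem_univ _)
    rwa [a1, abs_neg] at this
  have hloc : ∀ v : Pl K, tt (Xl a b x y) v i0 ≤ 2 * (ell v + 2 * c v) := by
    intro v
    have T0 := tt_Xl0 v (a := a) (b := b) (x := x) (y := y) ha hx
    have T1 := tt_Xl1 v (a := a) (b := b) (x := x) (y := y) hb hy
    set t := tt (Xl a b x y) with ht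
    have e1 : ∑ i, α i * t v i = p * lv v a + q * lv v b := by
      rw [Fin.sum_univ_three, a0, a1, a2]
      linear_combination p * T0 + q * T1 + r v
    obtain ⟨μ, hμ⟩ := hT.main v
    have hl := ell_nonneg v
    by_cases hi : i0 = μ
    · have e2 : α i0 * t v i0 = p * lv v a + q * lv v b - ∑ i ∈ Finset.univ.erase i0, α i * t v i := by
        rw [← e1, ← Finset.add_sum_erase _ _ (Finset.mem_univ i0)]
        ring
      have e3 : |∑ i ∈ Finset.univ.erase i0, α i * t v i| ≤ 2 * (|α i0| * ell v) := by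
        have hcard : (Finset.univ.erase i0).card = 2 := by
          rw [Finset.card_erase_of_mem (Finset.mem_univ _)]; rfl
        calc |∑ i ∈ Finset.univ.erase i0, α i * t v i| ≤ ∑ i ∈ Finset.univ.erase i0, |α i * t v i| :=
              Finset.abs_sum_le_sum_abs _ _
          _ ≤ ∑ i ∈ Finset.univ.erase i0, |α i0| * ell v := by
              refine Finset.sum_le_sum fun i hi' => ?_
              rw [abs_mul, abs_of_nonneg (hT.nonneg v i)]
              refine mul_le_mul (hi0 i (Finset.mem_univ _)) ?_ (hT.nonneg v i) (abs_nonneg _)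
              refine hμ i ?_
              rw [← hi]
              exact Finset.ne_of_mem_erase hi'
          _ = 2 * (|α i0| * ell v) := by
              rw [Finset.sum_const, hcard]
              simp
      have e4 : |α i0| * t v i0 ≤ |α i0| * (2 * (ell v + 2 * c v)) := by
        have h1 : |α i0| * t v i0 = |α i0 * t v i0| := by
          rw [abs_mul, abs_of_nonneg (hT.nonneg v i0)]
        rw [h1, e2]
        have i1 := abs_sub (p * lv v a + q * lv v b) (∑ i ∈ Finset.univ.erase i0, α i * t v i)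
        have i2 := abs_add_le (p * lv v a) (q * lv v b)
        rw [abs_mul, abs_mul] at i2
        have i3 := mul_le_mul_of_nonneg_right hp (abs_nonneg (lv v a))
        have i4 := mul_le_mul_of_nonneg_right hq (abs_nonneg (lv v b))
        have i5 := mul_le_mul_of_nonneg_left (hcl v) hA.le
        have i6 := mul_nonneg hA.le (hc0 v)
        nlinarith
      exact le_of_mul_le_mul_left e4 hA
    · have := hμ i0 hi
      linarith [hc0 v]
  have h1 := Sm_mono (hT.fs i0) ((FS_m hc).smul 2) hloc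
  rw [hT.sm i0, Sm_smul] at h1
  exact h1

/-- The coefficients of elements of the division group are small if the height is large. -/
theorem coeff_small {a b x y z : K} (ha : a ≠ 0) (hb : b ≠ 0) (hx : x ≠ 0) (hy : y ≠ 0) (hz : z ≠ 0)
    (h : a * x + b * y = 1) {p q : ℝ}
    (r : ∀ v : Pl K, lv v z = p * lv v x + q * lv v y)
    {c : Pl K → ℝ} (hc : FS c) (hcl : ∀ v, |lv v a| + |lv v b| ≤ c v) {M : ℝ}
    (hM : Sm (fun v => ell v + 2 * c v) = M) (i : Fin 3) :
    |(![-p, -q, p + q] : Fin 3 → ℝ) i| * (Ht (Xl a b x y) - 3 * M) ≤ Sm (fun v => |lv v z|) := by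
  have hX := Xl_ne ha hb hx hy
  have hX0 := Xl_sum h
  have hc0 : ∀ v, 0 ≤ c v := fun v => (by positivity : 0 ≤ |lv v a| + |lv v b|).trans (hcl v)
  have hm : ∀ v : Pl K, ell v ≤ ell v + 2 * c v := fun v => by linarith [hc0 v]
  have hm0 : ∀ v : Pl K, 0 ≤ ell v + 2 * c v := fun v => by linarith [hc0 v, ell_nonneg v]
  have hT := tri_of_sum_zero hX hX0
  have hTm := hT.mono hm
  obtain ⟨α, hα⟩ : ∃ α : Fin 3 → ℝ, α = ![-p, -q, p + q] := ⟨_, rfl⟩
  have a0 : α 0 = -p := by rw [hα]; rfl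
  have a1 : α 1 = -q := by rw [hα]; rfl
  have a2 : α 2 = p + q := by rw [hα]; rfl
  rw [← hα]
  obtain ⟨i0, _, hi0⟩ := Finset.exists_max_image (Finset.univ : Finset (Fin 3)) (fun i => |α i|) ⟨0, Finset.mem_univ _⟩
  have hp : |p| ≤ |α i0| := by
    have := hi0 0 (Finset.mem_univ _)
    rwa [a0, abs_neg] at this
  have hq : |q| ≤ |α i0| := by
    have := hi0 1 (Finset.mem_univ _)
    rwa [a1, abs_neg] at this
  have hM0 : 0 ≤ M := by rw [← hM]; exact Sm_nonneg hm0
  have hS0 : 0 ≤ Sm (fun v : Pl K => |lv v z|) := Sm_nonneg fun v => abs_nonneg _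
  by_cases hH : Ht (Xl a b x y) - 3 * M ≤ 0
  · exact (mul_nonpos_of_nonneg_of_nonpos (abs_nonneg _) hH).trans hS0
  push Not at hH
  refine (mul_le_mul_of_nonneg_right (hi0 i (Finset.mem_univ _)) hH.le).trans ?_
  obtain ⟨μ, hμ⟩ := hT.exists_mu
  have hμm : ∀ v j, j ≠ μ v → tt (Xl a b x y) v j ≤ ell v + 2 * c v := fun v j hj =>
    (hμ v j hj).trans (hm v)
  have hloc : ∀ v : Pl K, |α i0| * (if μ v = i0 then tt (Xl a b x y) v i0 else 0) ≤
      |lv v z| + (2 * |α i0|) * (ell v + 2 * c v) := by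
    intro v
    have T0 := tt_Xl0 v (a := a) (b := b) (x := x) (y := y) ha hx
    have T1 := tt_Xl1 v (a := a) (b := b) (x := x) (y := y) hb hy
    have hl := ell_nonneg v
    split_ifs with hi
    · set t := tt (Xl a b x y) with ht
      have e1 : ∑ i, α i * t v i = lv v z + (p * lv v a + q * lv v b) := by
        rw [Fin.sum_univ_three, a0, a1, a2, r v]
        linear_combination p * T0 + q * T1
      have e2 : α i0 * t v i0 = lv v z + (p * lv v a + q * lv v b) -
          ∑ i ∈ Finset.univ.erase i0, α i * t v i := by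
        rw [← e1, ← Finset.add_sum_erase _ _ (Finset.mem_univ i0)]
        ring
      have e3 : |∑ i ∈ Finset.univ.erase i0, α i * t v i| ≤ 2 * (|α i0| * ell v) := by
        have hcard : (Finset.univ.erase i0).card = 2 := by
          rw [Finset.card_erase_of_mem (Finset.mem_univ _)]; rfl
        calc |∑ i ∈ Finset.univ.erase i0, α i * t v i| ≤ ∑ i ∈ Finset.univ.erase i0, |α i * t v i| :=
              Finset.abs_sum_le_sum_abs _ _
          _ ≤ ∑ i ∈ Finset.univ.erase i0, |α i0| * ell v := by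
              refine Finset.sum_le_sum fun i hi' => ?_
              rw [abs_mul, abs_of_nonneg (hT.nonneg v i)]
              refine mul_le_mul (hi0 i (Finset.mem_univ _)) ?_ (hT.nonneg v i) (abs_nonneg _)
              refine hμ v i ?_
              rw [hi]
              exact Finset.ne_of_mem_erase hi'
          _ = 2 * (|α i0| * ell v) := by
              rw [Finset.sum_const, hcard]
              simp
      have h1 : |α i0| * t v i0 = |α i0 * t v i0| := by
        rw [abs_mul, abs_of_nonneg (hT.nonneg v i0)]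
      rw [h1, e2]
      have i1 := abs_sub (lv v z + (p * lv v a + q * lv v b)) (∑ i ∈ Finset.univ.erase i0, α i * t v i)
      have i1' := abs_add_le (lv v z) (p * lv v a + q * lv v b)
      have i2 := abs_add_le (p * lv v a) (q * lv v b)
      rw [abs_mul, abs_mul] at i2
      have i3 := mul_le_mul_of_nonneg_right hp (abs_nonneg (lv v a))
      have i4 := mul_le_mul_of_nonneg_right hq (abs_nonneg (lv v b))
      have i5 := mul_le_mul_of_nonneg_left (hcl v) (abs_nonneg (α i0))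
      have i6 := mul_nonneg (abs_nonneg (α i0)) (hc0 v)
      nlinarith
    · rw [mul_zero]
      have := mul_nonneg (abs_nonneg (α i0)) (hm0 v)
      have := abs_nonneg (lv v z)
      linarith
  have h1 := Sm_mono (((hT.fs i0).ite _).smul _) ((FS_lv hz).abs.add ((FS_m hc).smul _)) hloc
  rw [Sm_smul, Sm_add (FS_lv hz).abs ((FS_m hc).smul _), Sm_smul, hM] at h1
  have h2 := hTm.sm_main hm0 (FS_m hc) hμm i0
  have h3 := compl_le hm0 (FS_m hc) μ i0
  rw [hM] at h3
  have h4 : |α i0| * (Ht (Xl a b x y) - M) ≤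
      |α i0| * Sm (fun v => if μ v = i0 then tt (Xl a b x y) v i0 else 0) :=
    mul_le_mul_of_nonneg_left (by linarith) (abs_nonneg _)
  nlinarith

end Pool.Agent.ZL2
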