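import Mathlib

namespace Pool.Agent.ZL2

open Finset

variable {K : Type} [Field K]

/-- The coefficient of `σ ^ a` in `(1 + y σ) ^ (-(b+1)) (1 - z σ) ^ (-(c+1))`. -/
def A (a b c : ℕ) (y z : K) : K :=
  ∑ ij ∈ antidiagonal a,
    (((b + ij.1).choose ij.1 : ℕ) : K) * (((c + ij.2).choose ij.2 : ℕ) : K) * (-y) ^ ij.1 * z ^ ij.2

theorem A_zero (b c : ℕ) (y z : K) : A 0 b c y z = 1 := by
  simp [A]

theorem A_rec1 (a b c : ℕ) (y z : K) :
    A (a + 1) b c y z = A (a + 1) (b + 1) c y z + y * A a (b + 1) c y z := by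
  unfold A
  rw [Finset.Nat.sum_antidiagonal_succ, Finset.Nat.sum_antidiagonal_succ, Finset.mul_sum,
    add_assoc, ← Finset.sum_add_distrib]
  congr 1
  · simp
  · refine Finset.sum_congr rfl fun ij _ => ?_
    obtain ⟨i, j⟩ := ij
    simp only
    have h : ((b + 1 + (i + 1)).choose (i + 1) : ℕ) =
        (b + (i + 1)).choose (i + 1) + (b + 1 + i).choose i := by
      have h1 : b + 1 + (i + 1) = (b + (i + 1)) + 1 := by ring
      have h2 : b + 1 + i = b + (i + 1) := by ring
      rw [h1, h2, Nat.choose_succ_succ, add_comm]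
    rw [h]
    push_cast
    ring

theorem A_rec2 (a b c : ℕ) (y z : K) :
    A (a + 1) b c y z = A (a + 1) b (c + 1) y z - z * A a b (c + 1) y z := by
  unfold A
  rw [Finset.Nat.sum_antidiagonal_succ', Finset.Nat.sum_antidiagonal_succ', Finset.mul_sum,
    add_sub_assoc, ← Finset.sum_sub_distrib]
  congr 1
  · simp
  · refine Finset.sum_congr rfl fun ij _ => ?_
    obtain ⟨i, j⟩ := ij
    simp only
    have h : ((c + 1 + (j + 1)).choose (j + 1) : ℕ) =
        (c + (j + 1)).choose (j + 1) + (c + 1 + j).choose j := by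
      have h1 : c + 1 + (j + 1) = (c + (j + 1)) + 1 := by ring
      have h2 : c + 1 + j = c + (j + 1) := by ring
      rw [h1, h2, Nat.choose_succ_succ, add_comm]
    rw [h]
    push_cast
    ring

/-- The derivative identity. -/
theorem A_deriv (a b c : ℕ) (y z : K) :
    ((a + 1 : ℕ) : K) * A (a + 1) b c y z =
      -((b + 1 : ℕ) : K) * y * A a (b + 1) c y z + ((c + 1 : ℕ) : K) * z * A a b (c + 1) y z := by
  have e1 : ((a + 1 : ℕ) : K) * A (a + 1) b c y z =
      ∑ ij ∈ antidiagonal (a + 1), ((ij.1 : ℕ) : K) *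
        ((((b + ij.1).choose ij.1 : ℕ) : K) * (((c + ij.2).choose ij.2 : ℕ) : K) * (-y) ^ ij.1 *
          z ^ ij.2) +
      ∑ ij ∈ antidiagonal (a + 1), ((ij.2 : ℕ) : K) *
        ((((b + ij.1).choose ij.1 : ℕ) : K) * (((c + ij.2).choose ij.2 : ℕ) : K) * (-y) ^ ij.1 *
          z ^ ij.2) := by
    unfold A
    rw [Finset.mul_sum, ← Finset.sum_add_distrib]
    refine Finset.sum_congr rfl fun ij hij => ?_
    rw [Finset.HasAntidiagonal.mem_antidiagonal] at hij
    rw [← add_mul, ← hij]
    push_cast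
    ring
  rw [e1, Finset.Nat.sum_antidiagonal_succ, Finset.Nat.sum_antidiagonal_succ']
  unfold A
  rw [Finset.mul_sum, Finset.mul_sum]
  simp only [Nat.cast_zero, zero_mul, zero_add]
  congr 1
  · refine Finset.sum_congr rfl fun ij _ => ?_
    obtain ⟨i, j⟩ := ij
    simp only
    have h : (i + 1) * ((b + (i + 1)).choose (i + 1)) = (b + 1) * (b + 1 + i).choose i := by
      have h2 : b + (i + 1) = b + i + 1 := by ring
      have h3 : b + 1 + i = b + i + 1 := by ring
      rw [h2, h3]
      have h6 : (b + i + 1).choose (i + 1) * (i + 1) = (b + i + 1).choose i * (b + i + 1 - i) :=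
        Nat.choose_succ_right_eq (b + i + 1) i
      have h7 : b + i + 1 - i = b + 1 := by omega
      rw [h7] at h6
      linarith
    have h' := congrArg (Nat.cast : ℕ → K) h
    push_cast at h' ⊢
    linear_combination (((c + j).choose j : ℕ) : K) * (-y) ^ (i + 1) * z ^ j * h'
  · refine Finset.sum_congr rfl fun ij _ => ?_
    obtain ⟨i, j⟩ := ij
    simp only
    have h : (j + 1) * ((c + (j + 1)).choose (j + 1)) = (c + 1) * (c + 1 + j).choose j := by
      have h2 : c + (j + 1) = c + j + 1 := by ring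
      have h3 : c + 1 + j = c + j + 1 := by ring
      rw [h2, h3]
      have h6 : (c + j + 1).choose (j + 1) * (j + 1) = (c + j + 1).choose j * (c + j + 1 - j) :=
        Nat.choose_succ_right_eq (c + j + 1) j
      have h7 : c + j + 1 - j = c + 1 := by omega
      rw [h7] at h6
      linarith
    have h' := congrArg (Nat.cast : ℕ → K) h
    push_cast at h' ⊢
    linear_combination (((b + i).choose i : ℕ) : K) * (-y) ^ i * z ^ (j + 1) * h'

/-- The three terms of the Padé identity. -/
def P1 (a b c : ℕ) (x y z : K) : K := (-1) ^ c * x ^ (b + c + 1) * A a b c y z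

def P2 (a b c : ℕ) (x y z : K) : K := (-1) ^ a * y ^ (a + c + 1) * A b c a z x

def P3 (a b c : ℕ) (x y z : K) : K := (-1) ^ b * z ^ (a + b + 1) * A c a b x y

theorem P2_eq (a b c : ℕ) (x y z : K) : P2 a b c x y z = P1 b c a y z x := by
  unfold P1 P2
  rw [add_comm a c]

theorem P3_eq (a b c : ℕ) (x y z : K) : P3 a b c x y z = P1 c a b z x y := by
  unfold P1 P3
  rfl

theorem P1_rec (a b c : ℕ) (x y z : K) :
    P1 (a + 1) (b + 1) c x y z = x * P1 (a + 1) b c x y z - y * P1 a (b + 1) c x y z := by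
  unfold P1
  have h := A_rec1 a b c y z
  have e1 : b + 1 + c + 1 = b + c + 1 + 1 := by ring
  rw [e1, pow_succ]
  linear_combination (-1) ^ c * x ^ (b + c + 1) * x * (-h)

theorem P2_rec (a b c : ℕ) (x y z : K) :
    P2 (a + 1) (b + 1) c x y z = x * P2 (a + 1) b c x y z - y * P2 a (b + 1) c x y z := by
  unfold P2
  have h := A_rec2 b c a z x
  have e1 : a + 1 + c + 1 = a + c + 1 + 1 := by ring
  rw [e1, pow_succ y, pow_succ (-1 : K)]
  linear_combination (-1) ^ a * y ^ (a + c + 1) * y * h

theorem P3_rec (a b c : ℕ) (x y z : K) (h0 : x + y + z = 0) :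
    P3 (a + 1) (b + 1) c x y z = x * P3 (a + 1) b c x y z - y * P3 a (b + 1) c x y z := by
  unfold P3
  have e1 : a + 1 + (b + 1) + 1 = a + b + 2 + 1 := by ring
  have e2 : a + 1 + b + 1 = a + b + 2 := by ring
  have e3 : a + (b + 1) + 1 = a + b + 2 := by ring
  rw [e1, e2, e3, pow_succ z, pow_succ (-1 : K)]
  have hz : z = -x - y := by linear_combination h0
  have key : z * A c (a + 1) (b + 1) x y = -x * A c (a + 1) b x y - y * A c a (b + 1) x y := by
    cases c with
    | zero => rw [A_zero, A_zero, A_zero, hz]; ring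
    | succ c =>
      have h1 := A_rec2 c (a + 1) b x y
      have h2 := A_rec1 c a (b + 1) x y
      rw [h1, h2]
      linear_combination (A (c + 1) (a + 1) (b + 1) x y) * h0
  linear_combination -((-1) ^ b * z ^ (a + b + 2)) * key

/-- The Padé identity. -/
theorem pade (a b c : ℕ) (x y z : K) (h0 : x + y + z = 0) :
    P1 a b c x y z + P2 a b c x y z + P3 a b c x y z = 0 := by
  -- the rotation
  have rot : ∀ (a b c : ℕ) (x y z : K), P1 a b c x y z + P2 a b c x y z + P3 a b c x y z =
      P1 b c a y z x + P2 b c a y z x + P3 b c a y z x := by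
    intro a b c x y z
    rw [P2_eq a b c, P3_eq a b c, P2_eq b c a, P3_eq b c a]
    ring
  have base : ∀ (a : ℕ) (x y z : K), x + y + z = 0 →
      P1 a 0 0 x y z + P2 a 0 0 x y z + P3 a 0 0 x y z = 0 := by
    intro a x y z h0
    unfold P1 P2 P3
    rw [A_zero, A_zero]
    have h1 : A a 0 0 y z * (z - (-y)) = z ^ (a + 1) - (-y) ^ (a + 1) := by
      unfold A
      have h2 := (Commute.all z (-y)).geom_sum₂_mul (a + 1)
      rw [← h2]
      congr 1
      rw [Finset.Nat.sum_antidiagonal_eq_sum_range_succ_mk, ← Finset.sum_range_reflect]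
      refine Finset.sum_congr rfl fun i hi => ?_
      rw [Finset.mem_range] at hi
      have h3 : a + 1 - 1 - i = a - i := by omega
      have h4 : a - (a - i) = i := by omega
      rw [h3]
      simp only [zero_add, Nat.choose_self, Nat.cast_one, one_mul]
      rw [h4, mul_comm]
    have hx : x = -y - z := by linear_combination h0
    rw [neg_pow y (a + 1)] at h1
    simp only [add_zero, zero_add, pow_zero, one_mul, pow_one, mul_one]
    rw [hx]
    linear_combination -h1
  suffices h : ∀ n : ℕ, ∀ (a b c : ℕ), a + b + c = n → ∀ (x y z : K), x + y + z = 0 →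
      P1 a b c x y z + P2 a b c x y z + P3 a b c x y z = 0 from h _ a b c rfl x y z h0
  intro n
  induction n using Nat.strong_induction_on with
  | _ n ih =>
    have step : ∀ (a b c : ℕ), a + 1 + (b + 1) + c = n → ∀ (x y z : K), x + y + z = 0 →
        P1 (a + 1) (b + 1) c x y z + P2 (a + 1) (b + 1) c x y z + P3 (a + 1) (b + 1) c x y z = 0 := by
      intro a b c hn x y z h0
      rw [P1_rec, P2_rec, P3_rec a b c x y z h0]
      have h1 := ih (a + 1 + b + c) (by omega) (a + 1) b c rfl x y z h0
      have h2 := ih (a + (b + 1) + c) (by omega) a (b + 1) c rfl x y z h0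
      linear_combination x * h1 - y * h2
    intro a b c hn x y z h0
    have h0' : y + z + x = 0 := by linear_combination h0
    have h0'' : z + x + y = 0 := by linear_combination h0
    rcases a with _ | a
    · rcases b with _ | b
      · -- (0,0,c)
        rw [rot, rot]
        exact base c z x y h0''
      · rcases c with _ | c
        · rw [rot]
          exact base (b + 1) y z x h0'
        · rw [rot]
          exact step b c 0 (by omega) y z x h0'
    · rcases b with _ | b
      · rcases c with _ | c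
        · exact base (a + 1) x y z h0
        · rw [rot, rot]
          exact step c a 0 (by omega) z x y h0''
      · exact step a b c hn x y z h0

/-- The `2 x 2` minor. -/
def dt (u1 u2 v1 v2 : K) : K := u1 * v2 - u2 * v1

theorem P1_deriv (a b c : ℕ) (x y z : K) :
    ((a + 1 : ℕ) : K) * x * P1 (a + 1) b c x y z + ((b + 1 : ℕ) : K) * y * P1 a (b + 1) c x y z +
      ((c + 1 : ℕ) : K) * z * P1 a b (c + 1) x y z = 0 := by
  unfold P1
  have h := A_deriv a b c y z
  have e1 : b + 1 + c + 1 = b + c + 1 + 1 := by ring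
  have e2 : b + (c + 1) + 1 = b + c + 1 + 1 := by ring
  rw [e1, e2, pow_succ x, pow_succ (-1 : K)]
  linear_combination (-1) ^ c * x ^ (b + c + 1) * x * h

theorem P2_deriv (a b c : ℕ) (x y z : K) :
    ((a + 1 : ℕ) : K) * x * P2 (a + 1) b c x y z + ((b + 1 : ℕ) : K) * y * P2 a (b + 1) c x y z +
      ((c + 1 : ℕ) : K) * z * P2 a b (c + 1) x y z = 0 := by
  rw [P2_eq, P2_eq, P2_eq]
  linear_combination P1_deriv b c a y z x

/-- Non-proportionality of the three consecutive Padé vectors. -/
theorem nondeg [CharZero K] (n : ℕ) : ∀ (a b c : ℕ), a + b + c = n → ∀ (x y z : K),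
    x + y + z = 0 → x ≠ 0 → y ≠ 0 → z ≠ 0 → ∃ k : K, k ≠ 0 ∧
    dt (P1 a (b + 1) c x y z) (P2 a (b + 1) c x y z) (P1 a b (c + 1) x y z)
      (P2 a b (c + 1) x y z) = ((a + 1 : ℕ) : K) * x * k ∧
    dt (P1 a b (c + 1) x y z) (P2 a b (c + 1) x y z) (P1 (a + 1) b c x y z)
      (P2 (a + 1) b c x y z) = ((b + 1 : ℕ) : K) * y * k ∧
    dt (P1 (a + 1) b c x y z) (P2 (a + 1) b c x y z) (P1 a (b + 1) c x y z)
      (P2 a (b + 1) c x y z) = ((c + 1 : ℕ) : K) * z * k := by
  induction n with
  | zero =>
    intro a b c habc x y z h0 hx hy hz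
    obtain rfl : a = 0 := by omega
    obtain rfl : b = 0 := by omega
    obtain rfl : c = 0 := by omega
    have hz' : z = -x - y := by linear_combination h0
    refine ⟨-2 * x * y * z, ?_, ?_, ?_, ?_⟩
    · simp [hx, hy, hz]
    all_goals
      simp [dt, P1, P2, A, Finset.Nat.antidiagonal_succ]
      rw [hz']
      ring
  | succ n ih =>
    -- the step in the first coordinate
    have step : ∀ (a b c : ℕ), a + b + c = n → ∀ (x y z : K),
        x + y + z = 0 → x ≠ 0 → y ≠ 0 → z ≠ 0 → ∃ k : K, k ≠ 0 ∧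
        dt (P1 (a + 1) (b + 1) c x y z) (P2 (a + 1) (b + 1) c x y z) (P1 (a + 1) b (c + 1) x y z)
          (P2 (a + 1) b (c + 1) x y z) = ((a + 1 + 1 : ℕ) : K) * x * k ∧
        dt (P1 (a + 1) b (c + 1) x y z) (P2 (a + 1) b (c + 1) x y z) (P1 (a + 1 + 1) b c x y z)
          (P2 (a + 1 + 1) b c x y z) = ((b + 1 : ℕ) : K) * y * k ∧
        dt (P1 (a + 1 + 1) b c x y z) (P2 (a + 1 + 1) b c x y z) (P1 (a + 1) (b + 1) c x y z)
          (P2 (a + 1) (b + 1) c x y z) = ((c + 1 : ℕ) : K) * z * k := by
      intro a b c habc x y z h0 hx hy hz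
      obtain ⟨k, hk, h1, h2, h3⟩ := ih a b c habc x y z h0 hx hy hz
      have hN : ((a + 1 + 1 : ℕ) : K) ≠ 0 := by exact_mod_cast (Nat.succ_ne_zero (a + 1))
      have hM : ((a + b + c + 3 : ℕ) : K) ≠ 0 := by exact_mod_cast (Nat.succ_ne_zero (a + b + c + 2))
      -- the recurrences
      have q1 : P1 (a + 1) (b + 1) c x y z = x * P1 (a + 1) b c x y z - y * P1 a (b + 1) c x y z :=
        P1_rec a b c x y z
      have q2 : P2 (a + 1) (b + 1) c x y z = x * P2 (a + 1) b c x y z - y * P2 a (b + 1) c x y z :=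
        P2_rec a b c x y z
      have r1 : P1 (a + 1) b (c + 1) x y z = z * P1 a b (c + 1) x y z - x * P1 (a + 1) b c x y z := by
        have h := P2_rec c a b z x y
        simp only [P2_eq] at h
        exact h
      have r2 : P2 (a + 1) b (c + 1) x y z = z * P2 a b (c + 1) x y z - x * P2 (a + 1) b c x y z := by
        have h := P3_rec c a b z x y (by linear_combination h0)
        simp only [P3_eq] at h
        simp only [P2_eq]
        exact h
      have d1 := P1_deriv (a + 1) b c x y z
      have d2 := P2_deriv (a + 1) b c x y z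
      refine ⟨-(y * z * ((a + b + c + 3 : ℕ) : K) * k / ((a + 1 + 1 : ℕ) : K)), ?_, ?_, ?_, ?_⟩
      · rw [neg_ne_zero]
        exact div_ne_zero (mul_ne_zero (mul_ne_zero (mul_ne_zero hy hz) hM) hk) hN
      · have key : dt (P1 (a + 1) (b + 1) c x y z) (P2 (a + 1) (b + 1) c x y z)
            (P1 (a + 1) b (c + 1) x y z) (P2 (a + 1) b (c + 1) x y z) =
            -(x * y * z * ((a + b + c + 3 : ℕ) : K) * k) := by
          rw [q1, q2, r1, r2]
          unfold dt at h1 h2 h3 ⊢
          push_cast at h1 h2 h3 ⊢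
          linear_combination (-(y * z)) * h1 - x * z * h2 - x * y * h3
        rw [key]
        field_simp
      · have key : dt (P1 (a + 1) (b + 1) c x y z) (P2 (a + 1) (b + 1) c x y z)
            (P1 (a + 1) b (c + 1) x y z) (P2 (a + 1) b (c + 1) x y z) =
            -(x * y * z * ((a + b + c + 3 : ℕ) : K) * k) := by
          rw [q1, q2, r1, r2]
          unfold dt at h1 h2 h3 ⊢
          push_cast at h1 h2 h3 ⊢
          linear_combination (-(y * z)) * h1 - x * z * h2 - x * y * h3
        have hx' : ((a + 1 + 1 : ℕ) : K) * x ≠ 0 := mul_ne_zero hN hx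
        apply mul_left_cancel₀ hx'
        have e : ((a + 1 + 1 : ℕ) : K) * x * dt (P1 (a + 1) b (c + 1) x y z)
            (P2 (a + 1) b (c + 1) x y z) (P1 (a + 1 + 1) b c x y z) (P2 (a + 1 + 1) b c x y z) =
            ((b + 1 : ℕ) : K) * y * dt (P1 (a + 1) (b + 1) c x y z) (P2 (a + 1) (b + 1) c x y z)
            (P1 (a + 1) b (c + 1) x y z) (P2 (a + 1) b (c + 1) x y z) := by
          unfold dt
          linear_combination (P1 (a + 1) b (c + 1) x y z) * d2 - (P2 (a + 1) b (c + 1) x y z) * d1
        rw [e, key]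
        field_simp
      · have key : dt (P1 (a + 1) (b + 1) c x y z) (P2 (a + 1) (b + 1) c x y z)
            (P1 (a + 1) b (c + 1) x y z) (P2 (a + 1) b (c + 1) x y z) =
            -(x * y * z * ((a + b + c + 3 : ℕ) : K) * k) := by
          rw [q1, q2, r1, r2]
          unfold dt at h1 h2 h3 ⊢
          push_cast at h1 h2 h3 ⊢
          linear_combination (-(y * z)) * h1 - x * z * h2 - x * y * h3
        have hx' : ((a + 1 + 1 : ℕ) : K) * x ≠ 0 := mul_ne_zero hN hx
        apply mul_left_cancel₀ hx'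
        have e : ((a + 1 + 1 : ℕ) : K) * x * dt (P1 (a + 1 + 1) b c x y z)
            (P2 (a + 1 + 1) b c x y z) (P1 (a + 1) (b + 1) c x y z) (P2 (a + 1) (b + 1) c x y z) =
            ((c + 1 : ℕ) : K) * z * dt (P1 (a + 1) (b + 1) c x y z) (P2 (a + 1) (b + 1) c x y z)
            (P1 (a + 1) b (c + 1) x y z) (P2 (a + 1) b (c + 1) x y z) := by
          unfold dt
          linear_combination (P2 (a + 1) (b + 1) c x y z) * d1 - (P1 (a + 1) (b + 1) c x y z) * d2
        rw [e, key]
        field_simp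
    -- rotation of the statement
    have rot : ∀ (a b c : ℕ) (x y z : K), x + y + z = 0 →
        (∃ k : K, k ≠ 0 ∧
        dt (P1 b (c + 1) a y z x) (P2 b (c + 1) a y z x) (P1 b c (a + 1) y z x)
          (P2 b c (a + 1) y z x) = ((b + 1 : ℕ) : K) * y * k ∧
        dt (P1 b c (a + 1) y z x) (P2 b c (a + 1) y z x) (P1 (b + 1) c a y z x)
          (P2 (b + 1) c a y z x) = ((c + 1 : ℕ) : K) * z * k ∧
        dt (P1 (b + 1) c a y z x) (P2 (b + 1) c a y z x) (P1 b (c + 1) a y z x)
          (P2 b (c + 1) a y z x) = ((a + 1 : ℕ) : K) * x * k) →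
        ∃ k : K, k ≠ 0 ∧
        dt (P1 a (b + 1) c x y z) (P2 a (b + 1) c x y z) (P1 a b (c + 1) x y z)
          (P2 a b (c + 1) x y z) = ((a + 1 : ℕ) : K) * x * k ∧
        dt (P1 a b (c + 1) x y z) (P2 a b (c + 1) x y z) (P1 (a + 1) b c x y z)
          (P2 (a + 1) b c x y z) = ((b + 1 : ℕ) : K) * y * k ∧
        dt (P1 (a + 1) b c x y z) (P2 (a + 1) b c x y z) (P1 a (b + 1) c x y z)
          (P2 a (b + 1) c x y z) = ((c + 1 : ℕ) : K) * z * k := by
      intro a b c x y z h0 ⟨k, hk, h1, h2, h3⟩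
      have s1 := pade (a + 1) b c x y z h0
      have s2 := pade a (b + 1) c x y z h0
      have s3 := pade a b (c + 1) x y z h0
      have t : ∀ a b c : ℕ, P1 b c a y z x = P2 a b c x y z := fun a b c => (P2_eq a b c x y z).symm
      have t' : ∀ a b c : ℕ, P2 b c a y z x = P3 a b c x y z := by
        intro a b c
        rw [P2_eq, P3_eq]
      rw [t, t', t, t'] at h1 h2 h3
      refine ⟨k, hk, ?_, ?_, ?_⟩
      · unfold dt at h3 ⊢
        linear_combination h3 + (P2 a b (c + 1) x y z) * s2 - (P2 a (b + 1) c x y z) * s3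
      · unfold dt at h1 ⊢
        linear_combination h1 - (P2 a b (c + 1) x y z) * s1 + (P2 (a + 1) b c x y z) * s3
      · unfold dt at h2 ⊢
        linear_combination h2 - (P2 (a + 1) b c x y z) * s2 + (P2 a (b + 1) c x y z) * s1
    intro a b c habc x y z h0 hx hy hz
    rcases a with _ | a
    · rcases b with _ | b
      · rcases c with _ | c
        · omega
        · apply rot 0 0 (c + 1) x y z h0
          apply rot 0 (c + 1) 0 y z x (by linear_combination h0)
          exact step c 0 0 (by omega) z x y (by linear_combination h0) hz hx hy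
      · apply rot 0 (b + 1) c x y z h0
        exact step b c 0 (by omega) y z x (by linear_combination h0) hy hz hx
    · exact step a b c (by omega) x y z h0 hx hy hz

end Pool.Agent.ZL2
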