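import Pool.Agent.ZL2.Tri

namespace Pool.Agent.ZL2

open Finset

/-- Row ZL2-A. Rigidity of tripods. Proof (see ZL2_PROOF.md §1), with `T_k = ∑_i ρ_{ki} t_i` at a place `p`:
(1) `ρ_{ki} ≤ s` (row sums), so `0 ≤ T_k`. Take `l` with `t'_l = 0`: `t'_k = (T_k - T_l) + e`, `|e| ≤ (1+s) m`, and `T_l ≤ T_k + (1+s) m` for all
`k` (as `t'_k ≥ 0`): for every `k`, `l'`: `t'_k ≤ T_k + (1+s)m` and `t'_k ≥ T_k - T_{l'} - 2(1+s) m`.
(2) Let `μ p` be the main index (`Tri.exists_mu`), `i = μ p`: `ρ_{ki} t_i ≤ T_k ≤ ρ_{ki} t_i + s m` (the other `t_j ≤ m` and `∑_j ρ_{kj} = s`).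
With `l'` such that `ρ_{l'i} = 0`: `T_{l'} ≤ s m`, so `t'_k ≥ ρ_{ki} t_i - (2+3s) m`. At most one `t'` is `> m p` (`h'.main`), so for
`k ≠ l`: `min(ρ_{ki}, ρ_{li}) t_i ≤ (3+3s) m` at the places with `μ p = i`. Sum over these places (`Tri.sm_main`, `compl_le`):
`min(ρ_{ki}, ρ_{li}) (H - M) ≤ (3+3s) M`, so `min(ρ_{ki},ρ_{li}) ≤ η := 4(1+s)M/H`: every column has at most one entry `> η`.
(3) If a row `k` has all entries `≤ η`: `s ≤ 3η`, so `s ≤ 24M/H`-ish (`s < 1`), and `t'_k ≤ T_k + (1+s) m ≤ s ∑_i t_i + (1+s) m` gives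
`H' ≤ 3 s H + (1+s) M ≤ 74 M`, contradiction with `H' ≥ H > 2000 M`. (If `M = 0` then `η = 0`, `s = 0`, `H' = 0 < H`.)
So every row has an entry `> η`; three rows, three columns, at most one such entry per column: the map row -> column is injective,
hence a permutation: `σ` with `ρ_{σ i, i} > η`, all other entries `≤ η`; `s - 2η ≤ ρ_{σ i,i} ≤ s`.
(4) `(s-2η) t_i ≤ T_{σ i} ≤ s t_i + η ∑ t`; with `i0` such that `t_{i0} = 0`: `T_{σ i0} ≤ η ∑ t`. With (1) (`l' = σ i0`):
`|t'_{σ i} - s t_i| ≤ 3 η ∑_j t_j + 2(1+s) m =: err`, and `Sm err = 9 η H + 2(1+s) M = 38(1+s) M`. -/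
theorem stepA {P : Type} {m : P → ℝ} {M : ℝ} (hm : ∀ p, 0 ≤ m p) (hmf : FS m) (hM : Sm m = M)
    {t t' : P → Fin 3 → ℝ} {H H' : ℝ} (h : Tri m t H) (h' : Tri m t' H')
    (ρ : Fin 3 → Fin 3 → ℝ) (hρ : ∀ k i, 0 ≤ ρ k i) (hz : ∀ i, ∃ k, ρ k i = 0) {s : ℝ}
    (hs : ∀ k, ∑ i, ρ k i = s)
    (hrel : ∀ p k l, |(t' p k - t' p l) - ∑ i, (ρ k i - ρ l i) * t p i| ≤ (1 + s) * m p)
    (hH : 2000 * M < H) (hHH : H ≤ H') :
    ∃ (σ : Equiv.Perm (Fin 3)) (err : P → ℝ), FS err ∧ (∀ p, 0 ≤ err p) ∧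
      Sm err ≤ 38 * (1 + s) * M ∧ ∀ p i, |t' p (σ i) - s * t p i| ≤ err p := by
  classical
  have hs0 : 0 ≤ s := by
    rw [← hs 0]
    exact Finset.sum_nonneg fun i _ => hρ 0 i
  have hM0 : 0 ≤ M := by
    rw [← hM]
    exact Sm_nonneg hm
  have hH0 : 0 < H := by linarith
  set T : P → Fin 3 → ℝ := fun p k => ∑ i, ρ k i * t p i with hTdef
  have hT0 : ∀ p k, 0 ≤ T p k := fun p k =>
    Finset.sum_nonneg fun i _ => mul_nonneg (hρ k i) (h.nonneg p i)
  have hrel' : ∀ p k l, |(t' p k - t' p l) - (T p k - T p l)| ≤ (1 + s) * m p := by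
    intro p k l
    have e : ∑ i, (ρ k i - ρ l i) * t p i = T p k - T p l := by
      simp only [hTdef]
      rw [← Finset.sum_sub_distrib]
      exact Finset.sum_congr rfl fun i _ => by ring
    rw [← e]
    exact hrel p k l
  -- step 1
  have hA1 : ∀ p k, t' p k ≤ T p k + (1 + s) * m p := by
    intro p k
    obtain ⟨l, hl⟩ := h'.zero p
    have h1 := (abs_le.1 (hrel' p k l)).2
    rw [hl] at h1
    have h2 := hT0 p l
    linarith
  have hA2 : ∀ p k l', T p k - T p l' - 2 * (1 + s) * m p ≤ t' p k := by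
    intro p k l'
    obtain ⟨l, hl⟩ := h'.zero p
    have h1 := (abs_le.1 (hrel' p k l)).1
    have h2 := (abs_le.1 (hrel' p l' l)).2
    rw [hl] at h1 h2
    have h3 := h'.nonneg p l'
    linarith
  -- step 2
  obtain ⟨μ, hμ⟩ := h.exists_mu
  have hrow : ∀ k i, ρ k i ≤ s := by
    intro k i
    rw [← hs k]
    exact Finset.single_le_sum (f := fun i => ρ k i) (fun j _ => hρ k j) (Finset.mem_univ i)
  have hTlow : ∀ p k i, ρ k i * t p i ≤ T p k := fun p k i =>
    Finset.single_le_sum (f := fun i => ρ k i * t p i)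
      (fun j _ => mul_nonneg (hρ k j) (h.nonneg p j)) (Finset.mem_univ i)
  have hTup : ∀ p k, T p k ≤ ρ k (μ p) * t p (μ p) + s * m p := by
    intro p k
    have e1 : T p k = ρ k (μ p) * t p (μ p) +
        ∑ j ∈ Finset.univ.erase (μ p), ρ k j * t p j := by
      simp only [hTdef]
      exact (Finset.add_sum_erase _ _ (Finset.mem_univ _)).symm
    have e2 : ∑ j ∈ Finset.univ.erase (μ p), ρ k j * t p j ≤ s * m p := by
      calc ∑ j ∈ Finset.univ.erase (μ p), ρ k j * t p j
          ≤ ∑ j ∈ Finset.univ.erase (μ p), ρ k j * m p :=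
            Finset.sum_le_sum fun j hj =>
              mul_le_mul_of_nonneg_left (hμ p j (Finset.ne_of_mem_erase hj)) (hρ k j)
        _ ≤ ∑ j, ρ k j * m p :=
            Finset.sum_le_sum_of_subset_of_nonneg (Finset.erase_subset _ _)
              fun j _ _ => mul_nonneg (hρ k j) (hm p)
        _ = s * m p := by rw [← Finset.sum_mul, hs k]
    linarith
  have hlow : ∀ p k, ρ k (μ p) * t p (μ p) - (2 + 3 * s) * m p ≤ t' p k := by
    intro p k
    obtain ⟨l', hl'⟩ := hz (μ p)
    have h1 := hTup p l'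
    rw [hl', zero_mul, zero_add] at h1
    have h2 := hA2 p k l'
    have h3 := hTlow p k (μ p)
    linarith
  have hmin : ∀ p k l, k ≠ l → min (ρ k (μ p)) (ρ l (μ p)) * t p (μ p) ≤ (3 + 3 * s) * m p := by
    intro p k l hkl
    have h0 := h.nonneg p (μ p)
    have h1 := mul_le_mul_of_nonneg_right (min_le_left (ρ k (μ p)) (ρ l (μ p))) h0
    have h2 := mul_le_mul_of_nonneg_right (min_le_right (ρ k (μ p)) (ρ l (μ p))) h0
    have h3 := hlow p k
    have h4 := hlow p l
    obtain ⟨i, hi⟩ := h'.main p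
    by_cases hki : k = i
    · have h5 := hi l (fun hl => hkl (hki.trans hl.symm))
      linarith
    · have h5 := hi k hki
      linarith
  set η : ℝ := 4 * (1 + s) * M / H with hη
  have hη0 : 0 ≤ η := by
    rw [hη]
    positivity
  have hηH : η * H = 4 * (1 + s) * M := by
    rw [hη]
    field_simp
  have hcol : ∀ i k l, k ≠ l → min (ρ k i) (ρ l i) ≤ η := by
    intro i k l hkl
    set c := min (ρ k i) (ρ l i) with hc
    have hc0 : 0 ≤ c := le_min (hρ k i) (hρ l i)
    have h1 := h.sm_main hm hmf hμ i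
    have h2 := compl_le hm hmf μ i
    rw [hM] at h2
    have f1 : FS (fun p => if μ p = i then t p i else 0) := (h.fs i).ite _
    have h3 : c * Sm (fun p => if μ p = i then t p i else 0) ≤ (3 + 3 * s) * M := by
      rw [← Sm_smul, ← hM, ← Sm_smul]
      refine Sm_mono (f1.smul c) (hmf.smul _) fun p => ?_
      by_cases hp : μ p = i
      · rw [if_pos hp]
        subst hp
        exact hmin p k l hkl
      · rw [if_neg hp, mul_zero]
        have := hm p
        positivity
    have h4 : c * (H - M) ≤ (3 + 3 * s) * M := by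
      refine le_trans (mul_le_mul_of_nonneg_left ?_ hc0) h3
      linarith
    by_contra hcon
    push Not at hcon
    have h5 : η * H < c * H := mul_lt_mul_of_pos_right hcon hH0
    have h6 : c * (2000 * M) ≤ c * H := mul_le_mul_of_nonneg_left hH.le hc0
    have h7 : 0 ≤ (1 + s) * M := by positivity
    nlinarith
  -- step 3
  have hbig : ∀ k, ∃ i, η < ρ k i := by
    intro k
    by_contra hcon
    push Not at hcon
    have h1 : s ≤ 3 * η := by
      rw [← hs k]
      calc ∑ i, ρ k i ≤ ∑ _i : Fin 3, η := Finset.sum_le_sum fun i _ => hcon i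
        _ = 3 * η := by simp
    have h2 : s * H ≤ 12 * (1 + s) * M := by
      have := mul_le_mul_of_nonneg_right h1 hH0.le
      nlinarith
    have fT : FS (fun p => T p k) := FS.sum _ fun i _ => (h.fs i).smul (ρ k i)
    have h3 : Sm (fun p => T p k) = s * H := by
      simp only [hTdef]
      rw [Sm_sum _ (fun i _ => (h.fs i).smul (ρ k i)), ← hs k, Finset.sum_mul]
      exact Finset.sum_congr rfl fun i _ => by rw [Sm_smul, h.sm i]
    have h4 : H' ≤ s * H + (1 + s) * M := by
      rw [← h'.sm k, ← h3, ← hM, ← Sm_smul, ← Sm_add fT (hmf.smul _)]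
      exact Sm_mono (h'.fs k) (fT.add (hmf.smul _)) fun p => hA1 p k
    have h5 : s ≤ 1 := by
      by_contra hs1
      push Not at hs1
      have h6 : s * (2000 * M) ≤ s * H := mul_le_mul_of_nonneg_left hH.le hs0
      have h7 : M ≤ s * M := by nlinarith
      have h8 : s * M ≤ 0 := by nlinarith
      have h9 : s * H ≤ 0 := by nlinarith
      nlinarith
    have h6 : s * M ≤ M := by nlinarith
    nlinarith
  choose c hc using hbig
  have hcinj : Function.Injective c := by
    intro k l hkl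
    by_contra hne
    have h1 := hcol (c k) k l hne
    have h2 := hc k
    have h3 := hc l
    rw [← hkl] at h3
    exact absurd (lt_min h2 h3) (not_lt.2 h1)
  have hcbij : Function.Bijective c := Finite.injective_iff_bijective.1 hcinj
  set τ : Equiv.Perm (Fin 3) := Equiv.ofBijective c hcbij with hτ
  set σ : Equiv.Perm (Fin 3) := τ.symm with hσ
  have hcσ : ∀ i, c (σ i) = i := fun i => τ.apply_symm_apply i
  have hσbig : ∀ i, η < ρ (σ i) i := by
    intro i
    have h1 := hc (σ i)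
    rwa [hcσ i] at h1
  have hsmall : ∀ i j, j ≠ i → ρ (σ i) j ≤ η := by
    intro i j hji
    have h1 := hcol j (σ i) (σ j) (fun h2 => hji (σ.injective h2).symm)
    rcases min_le_iff.1 h1 with h2 | h2
    · exact h2
    · exact absurd (hσbig j) (not_lt.2 h2)
  -- step 4
  have hS0 : ∀ p, 0 ≤ ∑ j, t p j := fun p => Finset.sum_nonneg fun j _ => h.nonneg p j
  have htS : ∀ p i, t p i ≤ ∑ j, t p j := fun p i =>
    Finset.single_le_sum (f := fun j => t p j) (fun j _ => h.nonneg p j) (Finset.mem_univ i)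
  have hup : ∀ p i, T p (σ i) ≤ s * t p i + η * ∑ j, t p j := by
    intro p i
    have e1 : T p (σ i) = ρ (σ i) i * t p i +
        ∑ j ∈ Finset.univ.erase i, ρ (σ i) j * t p j := by
      simp only [hTdef]
      exact (Finset.add_sum_erase _ _ (Finset.mem_univ _)).symm
    have e2 : ∑ j ∈ Finset.univ.erase i, ρ (σ i) j * t p j ≤ η * ∑ j, t p j := by
      calc ∑ j ∈ Finset.univ.erase i, ρ (σ i) j * t p j
          ≤ ∑ j ∈ Finset.univ.erase i, η * t p j :=
            Finset.sum_le_sum fun j hj =>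
              mul_le_mul_of_nonneg_right (hsmall i j (Finset.ne_of_mem_erase hj)) (h.nonneg p j)
        _ ≤ ∑ j, η * t p j :=
            Finset.sum_le_sum_of_subset_of_nonneg (Finset.erase_subset _ _)
              fun j _ _ => mul_nonneg hη0 (h.nonneg p j)
        _ = η * ∑ j, t p j := by rw [← Finset.mul_sum]
    have e3 := mul_le_mul_of_nonneg_right (hrow (σ i) i) (h.nonneg p i)
    linarith
  have hdown : ∀ p i, s * t p i - 2 * η * ∑ j, t p j ≤ T p (σ i) := by
    intro p i
    have e1 : s = ρ (σ i) i + ∑ j ∈ Finset.univ.erase i, ρ (σ i) j := by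
      rw [← hs (σ i)]
      exact (Finset.add_sum_erase _ _ (Finset.mem_univ _)).symm
    have e2 : ∑ j ∈ Finset.univ.erase i, ρ (σ i) j ≤ 2 * η := by
      calc ∑ j ∈ Finset.univ.erase i, ρ (σ i) j
          ≤ ∑ _j ∈ Finset.univ.erase i, η :=
            Finset.sum_le_sum fun j hj => hsmall i j (Finset.ne_of_mem_erase hj)
        _ = 2 * η := by
            rw [Finset.sum_const, Finset.card_erase_of_mem (Finset.mem_univ _), Finset.card_univ,
              Fintype.card_fin]
            simp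
    have e3 : s - 2 * η ≤ ρ (σ i) i := by linarith
    have e4 := mul_le_mul_of_nonneg_right e3 (h.nonneg p i)
    have e5 := hTlow p (σ i) i
    have e6 := mul_le_mul_of_nonneg_left (htS p i) hη0
    linarith
  refine ⟨σ, fun p => 3 * η * ∑ j, t p j + 2 * (1 + s) * m p, ?_, ?_, ?_, ?_⟩
  · exact ((FS.sum _ fun j _ => h.fs j).smul _).add (hmf.smul _)
  · intro p
    have h1 := hS0 p
    have h2 := hm p
    positivity
  · have f1 : FS (fun p => ∑ j, t p j) := FS.sum _ fun j _ => h.fs j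
    rw [Sm_add (f1.smul _) (hmf.smul _), Sm_smul, Sm_smul, Sm_sum _ (fun j _ => h.fs j), hM]
    have e : ∑ j : Fin 3, Sm (fun p => t p j) = 3 * H := by
      rw [Finset.sum_congr rfl fun j _ => h.sm j]
      simp
    rw [e]
    nlinarith
  · intro p i
    obtain ⟨i0, hi0⟩ := h.zero p
    have h1 := hup p i0
    rw [hi0, mul_zero, zero_add] at h1
    have h2 := hup p i
    have h3 := hdown p i
    have h4 := hA1 p (σ i)
    have h5 := hA2 p (σ i) (σ i0)
    have h6 : 0 ≤ η * ∑ j, t p j := mul_nonneg hη0 (hS0 p)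
    have h7 : 0 ≤ (1 + s) * m p := mul_nonneg (by linarith) (hm p)
    rw [abs_le]
    constructor <;> linarith

end Pool.Agent.ZL2
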