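import Pool.Agent.ZL2.Base

namespace Pool.Agent.ZL2

open Finset

/-- Tripods. -/
structure Tri {P : Type} (m : P → ℝ) (t : P → Fin 3 → ℝ) (H : ℝ) : Prop where
  nonneg : ∀ p i, 0 ≤ t p i
  fs : ∀ i, FS (fun p => t p i)
  sm : ∀ i, Sm (fun p => t p i) = H
  zero : ∀ p, ∃ i, t p i = 0
  main : ∀ p, ∃ i, ∀ j, j ≠ i → t p j ≤ m p

variable {P : Type} {m : P → ℝ} {t : P → Fin 3 → ℝ} {H : ℝ}

theorem Tri.exists_mu (h : Tri m t H) : ∃ μ : P → Fin 3, ∀ p j, j ≠ μ p → t p j ≤ m p :=
  ⟨fun p => (h.main p).choose, fun p => (h.main p).choose_spec⟩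

theorem Tri.H_nonneg (h : Tri m t H) : 0 ≤ H := by
  rw [← h.sm 0]
  exact Sm_nonneg fun p => h.nonneg p 0

/-- The mass of `t_i` on the places where `i` is the main index. -/
theorem Tri.sm_main (h : Tri m t H) (hm : ∀ p, 0 ≤ m p) (hmf : FS m) {μ : P → Fin 3}
    (hμ : ∀ p j, j ≠ μ p → t p j ≤ m p) (i : Fin 3) :
    H - Sm (fun p => if μ p = i then 0 else m p) ≤ Sm (fun p => if μ p = i then t p i else 0) := by
  have e : ∀ p, t p i = (if μ p = i then t p i else 0) + (if μ p = i then 0 else t p i) := by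
    intro p
    split_ifs <;> simp
  have f1 : FS (fun p => if μ p = i then t p i else 0) := (h.fs i).ite _
  have f2 : FS (fun p => if μ p = i then 0 else t p i) :=
    (h.fs i).subset fun p h1 h2 => h1 (by rw [h2]; split_ifs <;> rfl)
  have f3 : FS (fun p => if μ p = i then 0 else m p) :=
    hmf.subset fun p h1 h2 => h1 (by rw [h2]; split_ifs <;> rfl)
  have h1 : H = Sm (fun p => if μ p = i then t p i else 0) +
      Sm (fun p => if μ p = i then 0 else t p i) := by
    rw [← h.sm i, ← Sm_add f1 f2]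
    exact Sm_congr e
  have h2 : Sm (fun p => if μ p = i then 0 else t p i) ≤ Sm (fun p => if μ p = i then 0 else m p) := by
    refine Sm_mono f2 f3 fun p => ?_
    split_ifs with hp
    · exact le_refl _
    · exact hμ p i (Ne.symm hp)
  linarith

/-- The three complementary masses of `m` add up to `2 Sm m`. -/
theorem sum_compl (hmf : FS m) (μ : P → Fin 3) :
    ∑ i : Fin 3, Sm (fun p => if μ p = i then 0 else m p) = 2 * Sm m := by
  have f3 : ∀ i : Fin 3, FS (fun p => if μ p = i then 0 else m p) := fun i =>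
    hmf.subset fun p h1 h2 => h1 (by rw [h2]; split_ifs <;> rfl)
  rw [← Sm_sum Finset.univ (fun i _ => f3 i), ← Sm_smul]
  refine Sm_congr fun p => ?_
  rw [Fin.sum_univ_three]
  generalize μ p = q
  fin_cases q <;> simp <;> ring

theorem compl_le (hm : ∀ p, 0 ≤ m p) (hmf : FS m) (μ : P → Fin 3) (i : Fin 3) :
    Sm (fun p => if μ p = i then 0 else m p) ≤ Sm m := by
  refine Sm_mono (hmf.subset fun p h1 h2 => h1 (by rw [h2]; split_ifs <;> rfl)) hmf fun p => ?_
  split_ifs
  · exact hm p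
  · exact le_refl _

end Pool.Agent.ZL2
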