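import Pool.Agent.ZL2.Tri
import Pool.Agent.ZL2.Pade

namespace Pool.Agent.ZL2

open Finset

variable {K : Type} [Field K] [NumberField K]

/-- The absolute value at the place `p`. -/
noncomputable def av (p : Pl K) (x : K) : ℝ :=
  Sum.elim (fun σ : K →+* ℂ => ‖σ x‖) (fun v : NumberField.FinitePlace K => v x) p

theorem lv_eq (p : Pl K) (x : K) : lv p x = Real.log (av p x) := by
  rcases p with σ | v <;> rfl

theorem av_nonneg (p : Pl K) (x : K) : 0 ≤ av p x := by
  rcases p with σ | v
  · exact norm_nonneg _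
  · exact apply_nonneg v x

theorem av_pos (p : Pl K) {x : K} (hx : x ≠ 0) : 0 < av p x := by
  rcases p with σ | v
  · exact norm_pos_iff.2 ((map_ne_zero σ).2 hx)
  · exact NumberField.FinitePlace.pos_iff.2 hx

theorem av_eq_exp (p : Pl K) {x : K} (hx : x ≠ 0) : av p x = Real.exp (lv p x) := by
  rw [lv_eq, Real.exp_log (av_pos p hx)]

theorem av_zero (p : Pl K) : av p (0 : K) = 0 := by
  rcases p with σ | v
  · simp [av]
  · simp [av]

theorem av_one (p : Pl K) : av p (1 : K) = 1 := by
  rcases p with σ | v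
  · simp [av]
  · simp [av]

theorem av_mul (p : Pl K) (x y : K) : av p (x * y) = av p x * av p y := by
  rcases p with σ | v
  · simp [av]
  · simp [av]

theorem av_pow (p : Pl K) (x : K) (n : ℕ) : av p (x ^ n) = av p x ^ n := by
  rcases p with σ | v
  · simp [av]
  · simp [av]

theorem av_neg (p : Pl K) (x : K) : av p (-x) = av p x := by
  by_cases hx : x = 0
  · rw [hx, neg_zero]
  · rw [av_eq_exp p hx, av_eq_exp p (neg_ne_zero.2 hx), lv_neg]

theorem av_add_le (p : Pl K) (x y : K) :
    av p (x + y) ≤ Real.exp (ell p) * max (av p x) (av p y) := by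
  rcases p with σ | v
  · simp only [av, ell, Sum.elim_inl]
    rw [Real.exp_log (by norm_num), map_add]
    calc ‖σ x + σ y‖ ≤ ‖σ x‖ + ‖σ y‖ := norm_add_le _ _
      _ ≤ max ‖σ x‖ ‖σ y‖ + max ‖σ x‖ ‖σ y‖ := add_le_add (le_max_left _ _) (le_max_right _ _)
      _ = 2 * max ‖σ x‖ ‖σ y‖ := by ring
  · simp only [av, ell, Sum.elim_inr]
    rw [Real.exp_zero, one_mul]
    exact NumberField.FinitePlace.add_le v x y

theorem av_sub_le (p : Pl K) (x y : K) :
    av p (x - y) ≤ Real.exp (ell p) * max (av p x) (av p y) := by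
  have h := av_add_le p x (-y)
  rwa [← sub_eq_add_neg, av_neg] at h

/-- The Padé coefficient. -/
theorem av_A_le (p : Pl K) (a b c : ℕ) (y z : K) :
    av p (A a b c y z) ≤ Real.exp (((2 * a + b + c : ℕ) : ℝ) * ell p) * max (av p y) (av p z) ^ a := by
  have hterm : ∀ ij ∈ antidiagonal a, (max (av p y) (av p z)) ^ a ≥ av p y ^ ij.1 * av p z ^ ij.2 := by
    intro ij hij
    rw [Finset.HasAntidiagonal.mem_antidiagonal] at hij
    rw [← hij, pow_add]
    exact mul_le_mul (pow_le_pow_left₀ (av_nonneg p y) (le_max_left _ _) _)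
      (pow_le_pow_left₀ (av_nonneg p z) (le_max_right _ _) _)
      (pow_nonneg (av_nonneg p z) _) (pow_nonneg (le_max_of_le_left (av_nonneg p y)) _)
  have hM : 0 ≤ max (av p y) (av p z) := le_max_of_le_left (av_nonneg p y)
  rcases p with σ | v
  · simp only [av, ell, Sum.elim_inl] at hterm hM ⊢
    rw [mul_comm _ (Real.log 2), Real.exp_mul, Real.exp_log (by norm_num), Real.rpow_natCast]
    have h1 : ‖σ (A a b c y z)‖ ≤ ∑ ij ∈ antidiagonal a, (2 : ℝ) ^ (a + b + c) * max ‖σ y‖ ‖σ z‖ ^ a := by
      unfold A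
      rw [map_sum]
      refine (norm_sum_le _ _).trans (Finset.sum_le_sum fun ij hij => ?_)
      have hij' := hij
      rw [Finset.HasAntidiagonal.mem_antidiagonal] at hij'
      simp only [map_mul, map_pow, map_neg, map_natCast, norm_mul, norm_pow, norm_neg]
      have e1 : ‖(((b + ij.1).choose ij.1 : ℕ) : ℂ)‖ ≤ 2 ^ (b + ij.1) := by
        rw [Complex.norm_natCast]
        exact_mod_cast Nat.choose_le_two_pow _ _
      have e2 : ‖(((c + ij.2).choose ij.2 : ℕ) : ℂ)‖ ≤ 2 ^ (c + ij.2) := by
        rw [Complex.norm_natCast]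
        exact_mod_cast Nat.choose_le_two_pow _ _
      have e3 : (2 : ℝ) ^ (a + b + c) = 2 ^ (b + ij.1) * 2 ^ (c + ij.2) := by
        rw [← pow_add]
        congr 1
        omega
      rw [mul_assoc (_ * _), e3]
      exact mul_le_mul (mul_le_mul e1 e2 (norm_nonneg _) (by positivity)) (hterm ij hij)
        (by positivity) (by positivity)
    refine h1.trans ?_
    rw [Finset.sum_const, Finset.Nat.card_antidiagonal, nsmul_eq_mul]
    have h2 : ((a + 1 : ℕ) : ℝ) ≤ 2 ^ a := by
      exact_mod_cast Nat.succ_le_of_lt (Nat.lt_two_pow_self)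
    have h3 : (2 : ℝ) ^ (2 * a + b + c) = 2 ^ a * 2 ^ (a + b + c) := by
      rw [← pow_add]
      congr 1
      omega
    rw [h3, ← mul_assoc]
    exact mul_le_mul_of_nonneg_right (mul_le_mul_of_nonneg_right h2 (by positivity)) (pow_nonneg hM _)
  · simp only [av, ell, Sum.elim_inr] at hterm hM ⊢
    rw [mul_zero, Real.exp_zero, one_mul]
    have hna : IsNonarchimedean (v : K → ℝ) := fun x y => NumberField.FinitePlace.add_le v x y
    have hbound : ∀ s : Finset (ℕ × ℕ), s ⊆ antidiagonal a →
        v (∑ ij ∈ s, (((b + ij.1).choose ij.1 : ℕ) : K) * (((c + ij.2).choose ij.2 : ℕ) : K) *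
          (-y) ^ ij.1 * z ^ ij.2) ≤ max (v y) (v z) ^ a := by
      intro s
      classical
      induction s using Finset.induction_on with
      | empty =>
        intro _
        simp only [Finset.sum_empty, map_zero]
        exact pow_nonneg hM _
      | insert ij s hs ih =>
        intro hsub
        rw [Finset.sum_insert hs]
        refine (NumberField.FinitePlace.add_le v _ _).trans (max_le ?_ (ih fun q hq =>
          hsub (Finset.mem_insert_of_mem hq)))
        have e1 : v (((b + ij.1).choose ij.1 : ℕ) : K) ≤ 1 := hna.apply_natCast_le_one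
        have e2 : v (((c + ij.2).choose ij.2 : ℕ) : K) ≤ 1 := hna.apply_natCast_le_one
        have e4 : v (-y) = v y := by
          have := av_neg (Sum.inr v : Pl K) y
          simpa [av] using this
        rw [map_mul, map_mul, map_mul, map_pow, map_pow, e4]
        have e3 := hterm ij (hsub (Finset.mem_insert_self ij s))
        have n1 : 0 ≤ v (((b + ij.1).choose ij.1 : ℕ) : K) := apply_nonneg v _
        have n2 : 0 ≤ v (((c + ij.2).choose ij.2 : ℕ) : K) := apply_nonneg v _
        have n3 : 0 ≤ v y ^ ij.1 * v z ^ ij.2 :=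
          mul_nonneg (pow_nonneg (apply_nonneg v _) _) (pow_nonneg (apply_nonneg v _) _)
        calc v (((b + ij.1).choose ij.1 : ℕ) : K) * v (((c + ij.2).choose ij.2 : ℕ) : K) * v y ^ ij.1 *
              v z ^ ij.2 = (v (((b + ij.1).choose ij.1 : ℕ) : K) *
                v (((c + ij.2).choose ij.2 : ℕ) : K)) * (v y ^ ij.1 * v z ^ ij.2) := by ring
          _ ≤ 1 * (v y ^ ij.1 * v z ^ ij.2) :=
            mul_le_mul_of_nonneg_right (mul_le_one₀ e1 n2 e2) n3
          _ ≤ _ := by rw [one_mul]; exact e3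
    exact hbound _ (Finset.Subset.refl _)

/-- The maximum of the logarithms of the absolute values of the coordinates. -/
noncomputable def mx (X : Fin 3 → K) (p : Pl K) : ℝ :=
  max (lv p (X 0)) (max (lv p (X 1)) (lv p (X 2)))

noncomputable def tt (X : Fin 3 → K) (p : Pl K) (i : Fin 3) : ℝ := mx X p - lv p (X i)

/-- The (unnormalised) logarithmic height of `(X_0 : X_1 : X_2)`. -/
noncomputable def Ht (X : Fin 3 → K) : ℝ := Sm (mx X)

theorem lv_le_mx (X : Fin 3 → K) (p : Pl K) (i : Fin 3) : lv p (X i) ≤ mx X p := by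
  fin_cases i
  · exact le_max_left _ _
  · exact le_max_of_le_right (le_max_left _ _)
  · exact le_max_of_le_right (le_max_right _ _)

theorem exists_eq_mx (X : Fin 3 → K) (p : Pl K) : ∃ i, lv p (X i) = mx X p := by
  unfold mx
  rcases le_total (lv p (X 0)) (max (lv p (X 1)) (lv p (X 2))) with h | h
  · rw [max_eq_right h]
    rcases le_total (lv p (X 1)) (lv p (X 2)) with h' | h'
    · rw [max_eq_right h']; exact ⟨2, rfl⟩
    · rw [max_eq_left h']; exact ⟨1, rfl⟩
  · rw [max_eq_left h]; exact ⟨0, rfl⟩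

theorem FS_mx {X : Fin 3 → K} (hX : ∀ i, X i ≠ 0) : FS (mx X) :=
  (FS_lv (hX 0)).max ((FS_lv (hX 1)).max (FS_lv (hX 2)))

theorem tri_of_sum_zero {X : Fin 3 → K} (hX : ∀ i, X i ≠ 0) (h0 : X 0 + X 1 + X 2 = 0) :
    Tri ell (tt X) (Ht X) where
  nonneg p i := sub_nonneg.2 (lv_le_mx X p i)
  fs i := (FS_mx hX).sub (FS_lv (hX i))
  sm i := by
    have h := Sm_sub (FS_mx hX) (FS_lv (hX i))
    rw [Sm_lv (hX i), sub_zero] at h
    exact h
  zero p := by
    obtain ⟨i, hi⟩ := exists_eq_mx X p
    exact ⟨i, by unfold tt; rw [hi, sub_self]⟩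
  main p := by
    -- one of the two other coordinates is almost as large
    have key : ∀ a b c : Fin 3, a ≠ b → b ≠ c → a ≠ c → X a + X b + X c = 0 → lv p (X a) = mx X p →
        ∃ i, ∀ j, j ≠ i → tt X p j ≤ ell p := by
      intro a b c hab hbc hac hs ha
      have h1 : lv p (X a) ≤ max (lv p (X b)) (lv p (X c)) + ell p := by
        have e : X a = -(X b + X c) := by linear_combination hs
        rw [e, lv_neg]
        refine lv_add_le p (hX b) (hX c) ?_
        intro h
        apply hX a
        rw [e, h, neg_zero]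
      have hj : ∀ j : Fin 3, j = a ∨ j = b ∨ j = c := by
        intro j
        revert hab hbc hac
        fin_cases a <;> fin_cases b <;> fin_cases c <;> fin_cases j <;> simp
      have hta : tt X p a ≤ ell p := by
        unfold tt
        rw [ha, sub_self]
        exact ell_nonneg p
      rcases le_total (lv p (X b)) (lv p (X c)) with h | h
      · rw [max_eq_right h] at h1
        refine ⟨b, fun j hjb => ?_⟩
        rcases hj j with rfl | rfl | rfl
        · exact hta
        · exact absurd rfl hjb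
        · unfold tt; linarith
      · rw [max_eq_left h] at h1
        refine ⟨c, fun j hjc => ?_⟩
        rcases hj j with rfl | rfl | rfl
        · exact hta
        · unfold tt; linarith
        · exact absurd rfl hjc
    obtain ⟨i, hi⟩ := exists_eq_mx X p
    fin_cases i
    · exact key 0 1 2 (by decide) (by decide) (by decide) h0 hi
    · exact key 1 0 2 (by decide) (by decide) (by decide) (by linear_combination h0) hi
    · exact key 2 0 1 (by decide) (by decide) (by decide) (by linear_combination h0) hi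

theorem Tri.mono {P : Type} {m m' : P → ℝ} {t : P → Fin 3 → ℝ} {H : ℝ} (h : Tri m t H)
    (hm : ∀ p, m p ≤ m' p) : Tri m' t H where
  nonneg := h.nonneg
  fs := h.fs
  sm := h.sm
  zero := h.zero
  main p := by
    obtain ⟨i, hi⟩ := h.main p
    exact ⟨i, fun j hj => (hi j hj).trans (hm p)⟩

theorem mx_perm (X : Fin 3 → K) (σ : Equiv.Perm (Fin 3)) (p : Pl K) :
    mx (fun i => X (σ i)) p = mx X p := by
  apply le_antisymm
  · obtain ⟨i, hi⟩ := exists_eq_mx (fun i => X (σ i)) p
    rw [← hi]
    exact lv_le_mx X p (σ i)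
  · obtain ⟨i, hi⟩ := exists_eq_mx X p
    rw [← hi]
    have := lv_le_mx (fun i => X (σ i)) p (σ.symm i)
    simpa using this

theorem Ht_perm (X : Fin 3 → K) (σ : Equiv.Perm (Fin 3)) : Ht (fun i => X (σ i)) = Ht X :=
  Sm_congr fun p => mx_perm X σ p

theorem tt_perm (X : Fin 3 → K) (σ : Equiv.Perm (Fin 3)) (p : Pl K) (i : Fin 3) :
    tt (fun i => X (σ i)) p i = tt X p (σ i) := by
  unfold tt
  rw [mx_perm]

end Pool.Agent.ZL2
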